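import Mathlib
import Pool.Agent.V8H12.X49.Low

/-!
# Solubility of the quartics at the good primes, and the change by local squares
-/

set_option autoImplicit false

namespace Pool.Agent.V8H12.GT

open Polynomial
open Pool.Agent.V8H12.X49

theorem scale {K : Type} [Field K] {u a v P c : ℤ} {π κ : K} (hπ : π ^ 2 = P) (hκ : κ ^ 2 = c)
    (hπ0 : π ≠ 0) (hκ0 : κ ≠ 0) :
    Sol K (u * P) (a * (P * c)) (v * P * c ^ 2) ↔ Sol K u a v := by
  constructor
  · rintro ⟨N, M, e, h1, h2⟩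
    refine ⟨N / π, M, κ * e, ?_, ?_⟩
    · rcases h1 with h | h
      · exact Or.inl h
      · exact Or.inr (mul_ne_zero hκ0 h)
    · rw [div_pow, h2, div_eq_iff (pow_ne_zero 2 hπ0), hπ, mul_pow, mul_pow]
      have h4 : κ ^ 4 = (c : K) ^ 2 := by rw [← hκ]; ring
      rw [h4, hκ]
      push_cast
      ring
  · rintro ⟨N, M, e, h1, h2⟩
    refine ⟨π * N, M, e / κ, ?_, ?_⟩
    · rcases h1 with h | h
      · exact Or.inl h
      · exact Or.inr (div_ne_zero h hκ0)
    · have hc : (c : K) ≠ 0 := by rw [← hκ]; exact pow_ne_zero 2 hκ0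
      have h4 : κ ^ 4 = (c : K) ^ 2 := by rw [← hκ]; ring
      rw [mul_pow, hπ, h2, div_pow, div_pow, h4, hκ]
      push_cast
      field_simp

/-- the condition at small primes -/
def Key (p : ℕ) : Prop := ∀ α β γ : ZMod p, ¬ IsSquare α → ¬ IsSquare γ → β ^ 2 - 4 * α * γ ≠ 0 →
  ∃ x : ZMod p, (α * x ^ 4 + β * x ^ 2 + γ ≠ 0 ∧ IsSquare (α * x ^ 4 + β * x ^ 2 + γ)) ∨
    (α * x ^ 4 + β * x ^ 2 + γ = 0 ∧ 4 * α * x ^ 3 + 2 * β * x ≠ 0)

theorem key3 : Key 3 := by
  unfold Key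
  decide

theorem key5 : Key 5 := by
  unfold Key
  decide

theorem key7 : Key 7 := by
  unfold Key
  decide

end Pool.Agent.V8H12.GT
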