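import Mathlib
import Pool.Agent.V8H12.GT.Good

/-!
# Solubility of the quartics at the good primes
-/

set_option autoImplicit false

namespace Pool.Agent.V8H12.GT

open Polynomial
open Pool.Agent.V8H12.X49

section
variable {p : ℕ} [hp : Fact p.Prime]

/-- a simple root modulo `p` -/
theorem solRoot {α β γ : ℤ} (x : ZMod p) (h1 : α * x ^ 4 + β * x ^ 2 + γ = 0)
    (h2 : 4 * α * x ^ 3 + 2 * β * x ≠ 0) : Sol ℚ_[p] α β γ := by
  obtain ⟨z, hz⟩ := hensel (p := p) (C α * X ^ 4 + C β * X ^ 2 + C γ) x (by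
    simp only [Polynomial.map_add, Polynomial.map_mul, Polynomial.map_pow, map_X, map_C, eval_add,
      eval_mul, eval_pow, eval_X, eval_C]
    simp
    linear_combination h1) (by
    simp only [derivative_add, derivative_X_pow, derivative_C, derivative_C_mul, add_zero,
      Polynomial.map_add, Polynomial.map_mul, Polynomial.map_pow, map_X, map_C, eval_add,
      eval_mul, eval_pow, eval_X, eval_C]
    simp
    intro h
    apply h2
    linear_combination h)
  refine Sol.of_int 0 z 1 (Or.inr one_ne_zero) ?_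
  simp only [Polynomial.map_add, Polynomial.map_mul, Polynomial.map_pow, map_X, map_C, eval_add,
      eval_mul, eval_pow, eval_X, eval_C] at hz
  simp at hz
  linear_combination -hz

/-- a value which is a nonzero square modulo `p` -/
theorem solVal (h2 : (2 : ZMod p) ≠ 0) {α β γ : ℤ} (x : ZMod p)
    (h0 : α * x ^ 4 + β * x ^ 2 + γ ≠ 0) (h1 : IsSquare (α * x ^ 4 + β * x ^ 2 + γ)) :
    Sol ℚ_[p] α β γ := by
  obtain ⟨a, ha⟩ : ∃ a : ℤ, (a : ZMod p) = x := ⟨x.val, by simp⟩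
  have e : ((α * a ^ 4 + β * a ^ 2 + γ : ℤ) : ZMod p) = α * x ^ 4 + β * x ^ 2 + γ := by
    push_cast
    rw [ha]
  obtain ⟨z, hz⟩ := sq_unit h2 (α * a ^ 4 + β * a ^ 2 + γ) (by rw [e]; exact h0) (by rw [e]; exact h1)
  exact Sol.of_int z a 1 (Or.inr one_ne_zero) (by rw [hz]; push_cast; ring)

theorem solLead (h2 : (2 : ZMod p) ≠ 0) {α β γ : ℤ} (hP : (α : ZMod p) ≠ 0)
    (hs : IsSquare (α : ZMod p)) : Sol ℚ_[p] α β γ := solA h2 hP hs

theorem solConst (h2 : (2 : ZMod p) ≠ 0) {α β γ : ℤ} (hP : (γ : ZMod p) ≠ 0)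
    (hs : IsSquare (γ : ZMod p)) : Sol ℚ_[p] α β γ := (solA h2 hP hs).swap

theorem simple {α β γ x : ZMod p} (h2 : (2 : ZMod p) ≠ 0) (hγ : γ ≠ 0)
    (hΔ : β ^ 2 - 4 * α * γ ≠ 0) (h : α * x ^ 4 + β * x ^ 2 + γ = 0) :
    4 * α * x ^ 3 + 2 * β * x ≠ 0 := by
  have hx : x ≠ 0 := by
    rintro rfl
    apply hγ
    linear_combination h
  intro h3
  have h4 : 2 * x * (2 * α * x ^ 2 + β) = 0 := by linear_combination h3
  rcases mul_eq_zero.1 h4 with h5 | h5
  · exact mul_ne_zero h2 hx h5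
  · apply hΔ
    linear_combination (β + 2 * α * x ^ 2) * h5 - 4 * α * h

/-- **the good primes** -/
theorem good (h2 : (2 : ZMod p) ≠ 0) {α β γ : ℤ} (hα : (α : ZMod p) ≠ 0) (hγ : (γ : ZMod p) ≠ 0)
    (hΔ : ((β ^ 2 - 4 * α * γ : ℤ) : ZMod p) ≠ 0) : Sol ℚ_[p] α β γ := by
  push_cast at hΔ
  by_cases h11 : 11 ≤ p
  · obtain ⟨x, hx⟩ := weil_pt h11 (P := (α : ZMod p)) (κ := β / α) (c := γ / α) hα
      (div_ne_zero hγ hα) (by
        have e : ((β : ZMod p) / α) ^ 2 - 4 * (γ / α) = (β ^ 2 - 4 * α * γ) / α ^ 2 := by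
          field_simp
        rw [e]
        exact div_ne_zero hΔ (pow_ne_zero 2 hα))
    have e : (α : ZMod p) * (x ^ 4 + β / α * x ^ 2 + γ / α) = α * x ^ 4 + β * x ^ 2 + γ := by
      field_simp
    rw [e] at hx
    by_cases h0 : (α : ZMod p) * x ^ 4 + β * x ^ 2 + γ = 0
    · exact solRoot x h0 (simple h2 hγ hΔ h0)
    · exact solVal h2 x h0 hx
  · have hk : Key p := by
      have h3 := hp.out
      have h2le := h3.two_le
      interval_cases p
      · exact absurd rfl h2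
      · exact key3
      · exact absurd h3 (by norm_num)
      · exact key5
      · exact absurd h3 (by norm_num)
      · exact key7
      · exact absurd h3 (by norm_num)
      · exact absurd h3 (by norm_num)
      · exact absurd h3 (by norm_num)
    by_cases hs : IsSquare (α : ZMod p)
    · exact solLead h2 hα hs
    by_cases hs' : IsSquare (γ : ZMod p)
    · exact solConst h2 hγ hs'
    obtain ⟨x, ⟨h3, h4⟩ | ⟨h3, h4⟩⟩ := hk α β γ hs hs' hΔ
    · exact solVal h2 x h3 h4
    · exact solRoot x h3 h4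

end

end Pool.Agent.V8H12.GT
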