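import Mathlib
import Pool.Agent.V8H12.GT.Good2
import Pool.Agent.V8H12.X49.Base

/-!
# The data of a twist and the matrix
-/

set_option autoImplicit false

namespace Pool.Agent.V8H12.GT

open Pool.Agent.V8H12.X49

/-- the product of a set of prime numbers -/
def PP (T : Finset ℕ) : ℤ := ∏ q ∈ T, (q : ℤ)

/-- the data: `S` the split and `Q` the inert prime factors of the twist -/
structure Dat (a b : ℤ) (S Q : Finset ℕ) (d : ℕ → ZMod 2) : Prop where
  b0 : b ≠ 0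
  Δ0 : a ^ 2 - 4 * b ≠ 0
  disj : Disjoint S Q
  prS : ∀ l ∈ S, l.Prime ∧ l % 8 = 1
  prQ : ∀ l ∈ Q, l.Prime ∧ l ≠ 2
  goodD : ∀ l ∈ S ∪ Q, (b : ZMod l) ≠ 0 ∧ ((a ^ 2 - 4 * b : ℤ) : ZMod l) ≠ 0
  root : ∀ l ∈ S, ∀ [Fact l.Prime], ∃ ρ : ZMod l, ρ ^ 2 + a * ρ + b = 0 ∧ lam ρ = d l
  badS : ∀ l ∈ S, ∀ p : ℕ, p.Prime → p ≠ 2 → (p : ℤ) ∣ b * (a ^ 2 - 4 * b) → IsSquare (l : ZMod p)
  inQ : ∀ l ∈ Q, ¬ IsSquare (b : ZMod l) ∧ ¬ IsSquare ((a ^ 2 - 4 * b : ℤ) : ZMod l)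
  D8 : PP (S ∪ Q) % 8 = 1
  badD : ∀ p : ℕ, p.Prime → p ≠ 2 → (p : ℤ) ∣ b * (a ^ 2 - 4 * b) →
    IsSquare (PP (S ∪ Q) : ZMod p)

theorem sq_prime {l : ℕ} [hl : Fact l.Prime] (h8 : l % 8 = 1) {m : ℕ} :
    m ≠ 0 → (∀ p : ℕ, p.Prime → p ≠ 2 → p ∣ m → IsSquare (l : ZMod p)) → IsSquare (m : ZMod l) := by
  induction m using induction_on_primes with
  | zero => intro h; exact absurd rfl h
  | one => intro _ _; exact ⟨1, by simp⟩
  | prime_mul p a hp ih =>
    intro h0 h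
    have ha : a ≠ 0 := by
      rintro rfl
      exact h0 (mul_zero p)
    have h1 := ih ha fun q hq hq2 hqa => h q hq hq2 (hqa.mul_left p)
    have h2 : IsSquare (p : ZMod l) := by
      by_cases hp2 : p = 2
      · subst hp2
        have := (ZMod.exists_sq_eq_two_iff (p := l) (by rintro rfl; omega)).2 (Or.inl h8)
        exact_mod_cast this
      · have : Fact p.Prime := ⟨hp⟩
        exact (ZMod.exists_sq_eq_prime_iff_of_mod_four_eq_one (p := l) (q := p) (by omega) hp2).2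
          (h p hp hp2 (dvd_mul_right p a))
    rw [Nat.cast_mul]
    exact h2.mul h1

theorem sq_int {l : ℕ} [hl : Fact l.Prime] (h8 : l % 8 = 1) {n : ℤ} (h0 : n ≠ 0)
    (h : ∀ p : ℕ, p.Prime → p ≠ 2 → (p : ℤ) ∣ n → IsSquare (l : ZMod p)) : IsSquare (n : ZMod l) := by
  have h1 := sq_prime (l := l) h8 (m := n.natAbs) (Int.natAbs_ne_zero.2 h0) fun p hp hp2 hpn =>
    h p hp hp2 (Int.natCast_dvd.2 hpn)
  have hneg := neg_one_sq (p := l) (by omega)
  rcases Int.natAbs_eq n with h2 | h2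
  · have e : (n : ZMod l) = ((n.natAbs : ℕ) : ZMod l) := by
      conv_lhs => rw [h2]
      rw [Int.cast_natCast]
    rw [e]
    exact h1
  · have e : (n : ZMod l) = -1 * ((n.natAbs : ℕ) : ZMod l) := by
      conv_lhs => rw [h2]
      rw [Int.cast_neg, Int.cast_natCast]
      ring
    rw [e]
    exact hneg.mul h1

section
variable {a b : ℤ} {S Q : Finset ℕ} {d : ℕ → ZMod 2}

theorem Dat.pr (h : Dat a b S Q d) {l : ℕ} (hl : l ∈ S ∪ Q) : l.Prime := by
  rcases Finset.mem_union.1 hl with h1 | h1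
  · exact (h.prS l h1).1
  · exact (h.prQ l h1).1

theorem Dat.ne2 (h : Dat a b S Q d) {l : ℕ} (hl : l ∈ S ∪ Q) : l ≠ 2 := by
  rcases Finset.mem_union.1 hl with h1 | h1
  · have := (h.prS l h1).2
    omega
  · exact (h.prQ l h1).2

theorem Dat.two (h : Dat a b S Q d) {l : ℕ} [Fact l.Prime] (hl : l ∈ S ∪ Q) : (2 : ZMod l) ≠ 0 := by
  intro h1
  have h2 : ((2 : ℕ) : ZMod l) = 0 := by exact_mod_cast h1
  rw [ZMod.natCast_eq_zero_iff] at h2
  exact h.ne2 hl ((Nat.prime_dvd_prime_iff_eq (h.pr hl) Nat.prime_two).1 h2)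

theorem pp_pos {R T : Finset ℕ} (hR : ∀ l ∈ R, l.Prime) (hT : T ⊆ R) : 0 < PP T :=
  Finset.prod_pos fun q hq => by
    have := (hR q (hT hq)).pos
    exact_mod_cast this

theorem pp_ne {R T : Finset ℕ} (hR : ∀ l ∈ R, l.Prime) (hT : T ⊆ R) {p : ℕ} [hp : Fact p.Prime]
    (hpT : p ∉ T) : (PP T : ZMod p) ≠ 0 := by
  unfold PP
  push_cast
  refine Finset.prod_ne_zero_iff.2 fun q hq h => ?_
  rw [ZMod.natCast_eq_zero_iff] at h
  exact hpT ((Nat.prime_dvd_prime_iff_eq hp.out (hR q (hT hq))).1 h ▸ hq)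

theorem pp_lam {R T : Finset ℕ} (hR : ∀ l ∈ R, l.Prime) (hT : T ⊆ R) {p : ℕ} [hp : Fact p.Prime]
    (hpT : p ∉ T) : lam (PP T : ZMod p) = ∑ q ∈ T, nonsq p q := by
  unfold PP
  push_cast
  refine lam_prod T _ fun q hq h => ?_
  rw [ZMod.natCast_eq_zero_iff] at h
  exact hpT ((Nat.prime_dvd_prime_iff_eq hp.out (hR q (hT hq))).1 h ▸ hq)

theorem pp_split {R T : Finset ℕ} (hT : T ⊆ R) : PP R = PP T * PP (R \ T) := by
  unfold PP
  rw [mul_comm, Finset.prod_sdiff hT]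

theorem pp_erase {T : Finset ℕ} {l : ℕ} (hl : l ∈ T) : PP T = l * PP (T.erase l) := by
  unfold PP
  exact (Finset.mul_prod_erase T (fun q : ℕ => (q : ℤ)) hl).symm

theorem Dat.bsq (h : Dat a b S Q d) {l : ℕ} [Fact l.Prime] (hl : l ∈ S) {n : ℤ} (hn : n ∣ b) :
    IsSquare (n : ZMod l) := by
  refine sq_int (h.prS l hl).2 (fun h0 => h.b0 (by rw [h0] at hn; exact zero_dvd_iff.1 hn))
    fun p hp hp2 hpn => h.badS l hl p hp hp2 ((hpn.trans hn).mul_right _)

/-- the symbols of all the roots agree -/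
theorem Dat.root_all (h : Dat a b S Q d) {l : ℕ} [Fact l.Prime] (hl : l ∈ S) {z : ZMod l}
    (hz : z ^ 2 + a * z + b = 0) : lam z = d l := by
  obtain ⟨ρ, h1, h2⟩ := h.root l hl
  have hlR : l ∈ S ∪ Q := Finset.mem_union_left _ hl
  have hb := (h.goodD l hlR).1
  have h3 : (z - ρ) * (z + ρ + a) = 0 := by linear_combination hz - h1
  rcases mul_eq_zero.1 h3 with h4 | h4
  · rw [sub_eq_zero.1 h4]
    exact h2
  · have h5 : z * ρ = b := by linear_combination ρ * h4 - h1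
    have hz0 : z ≠ 0 := by
      rintro rfl
      rw [zero_mul] at h5
      exact hb h5.symm
    have hρ0 : ρ ≠ 0 := by
      rintro rfl
      rw [mul_zero] at h5
      exact hb h5.symm
    have h6 : lam (z * ρ) = 0 := by rw [h5]; exact lam_of_sq (h.bsq hl dvd_rfl)
    rw [lam_mul hz0 hρ0, h2] at h6
    have h7 : ∀ x y : ZMod 2, x + y = 0 → x = y := by decide
    exact h7 _ _ h6

end

open scoped Classical in
/-- the matrix -/
noncomputable def gmat (S R : Finset ℕ) (d : ℕ → ZMod 2) : Matrix S S (ZMod 2) :=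
  Matrix.of fun i j => if i = j then d i + ∑ l ∈ R.erase i, nonsq i l else nonsq i j

/-- the indicator vector -/
noncomputable def gind (S T : Finset ℕ) : S → ZMod 2 := fun i => if (i : ℕ) ∈ T then 1 else 0

theorem mulVec_gind {S R T : Finset ℕ} {d : ℕ → ZMod 2} (hT : T ⊆ S) (i : S) :
    (gmat S R d).mulVec (gind S T) i =
      (if (i : ℕ) ∈ T then d i + ∑ l ∈ R.erase i, nonsq i l else 0) +
        ∑ j ∈ T.erase i, nonsq i j := by
  classical
  have h1 : (gmat S R d).mulVec (gind S T) i = ∑ j : S, gmat S R d i j * gind S T j := rfl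
  rw [h1, ← Finset.add_sum_erase Finset.univ _ (Finset.mem_univ i)]
  congr 1
  · unfold gmat gind
    rw [Matrix.of_apply, if_pos rfl]
    split_ifs
    · rw [mul_one]
    · rw [mul_zero]
  · have h2 : ∀ j ∈ Finset.univ.erase i, gmat S R d i j * gind S T j =
        if (j : ℕ) ∈ T then nonsq i j else 0 := by
      intro j hj
      have hij : i ≠ j := fun h => (Finset.ne_of_mem_erase hj) h.symm
      unfold gmat gind
      rw [Matrix.of_apply, if_neg hij]
      split_ifs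
      · rw [mul_one]
      · rw [mul_zero]
    rw [Finset.sum_congr rfl h2, ← Finset.sum_filter]
    refine Finset.sum_bij (fun j _ => (j : ℕ)) ?_ ?_ ?_ ?_
    · intro j hj
      rw [Finset.mem_filter, Finset.mem_erase] at hj
      rw [Finset.mem_erase]
      exact ⟨fun h => hj.1.1 (Subtype.ext h), hj.2⟩
    · intro a _ b _ h
      exact Subtype.ext h
    · intro b hb
      rw [Finset.mem_erase] at hb
      refine ⟨⟨b, hT hb.2⟩, ?_, rfl⟩
      rw [Finset.mem_filter, Finset.mem_erase]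
      exact ⟨⟨fun h => hb.1 (congrArg Subtype.val h), Finset.mem_univ _⟩, hb.2⟩
    · intro j _
      rfl

/-- the condition on `T` -/
def Ker (S Q : Finset ℕ) (d : ℕ → ZMod 2) (T : Finset ℕ) : Prop :=
  T ⊆ S ∧ (gmat S (S ∪ Q) d).mulVec (gind S T) = 0

theorem ker_iff {S Q T : Finset ℕ} {d : ℕ → ZMod 2} (hT : T ⊆ S) : Ker S Q d T ↔
    (∀ l ∈ T, d l + ∑ q ∈ (S ∪ Q) \ T, nonsq l q = 0) ∧ (∀ l ∈ S, l ∉ T → ∑ q ∈ T, nonsq l q = 0) := by
  classical
  have hTR : T ⊆ S ∪ Q := hT.trans Finset.subset_union_left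
  have key : ∀ l : ℕ, l ∈ T → ∑ q ∈ (S ∪ Q).erase l, nonsq l q =
      ∑ q ∈ (S ∪ Q) \ T, nonsq l q + ∑ q ∈ T.erase l, nonsq l q := by
    intro l hl
    rw [← Finset.sum_sdiff (Finset.erase_subset_erase l hTR)]
    congr 1
    refine Finset.sum_congr ?_ fun _ _ => rfl
    ext q
    simp only [Finset.mem_sdiff, Finset.mem_erase]
    constructor
    · rintro ⟨⟨h1, h2⟩, h3⟩
      exact ⟨h2, fun h => h3 ⟨h1, h⟩⟩
    · rintro ⟨h1, h3⟩
      refine ⟨⟨?_, h1⟩, fun h => h3 h.2⟩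
      rintro rfl
      exact h3 hl
  have z1 : ∀ x y z : ZMod 2, x + (y + z) + z = x + y := by decide
  have row : ∀ i : S, (gmat S (S ∪ Q) d).mulVec (gind S T) i =
      if (i : ℕ) ∈ T then d i + ∑ q ∈ (S ∪ Q) \ T, nonsq i q else ∑ q ∈ T, nonsq i q := by
    intro i
    rw [mulVec_gind hT]
    by_cases hi : (i : ℕ) ∈ T
    · rw [if_pos hi, if_pos hi, key i hi]
      exact z1 _ _ _
    · rw [if_neg hi, if_neg hi, zero_add, Finset.erase_eq_of_notMem hi]
  unfold Ker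
  constructor
  · rintro ⟨-, h⟩
    refine ⟨fun l hl => ?_, fun l hl hlT => ?_⟩
    · have h1 := congrFun h ⟨l, hT hl⟩
      rw [row, if_pos hl] at h1
      exact h1
    · have h1 := congrFun h ⟨l, hl⟩
      rw [row, if_neg hlT] at h1
      exact h1
  · rintro ⟨h1, h2⟩
    refine ⟨hT, funext fun i => ?_⟩
    rw [row]
    by_cases hi : (i : ℕ) ∈ T
    · rw [if_pos hi]
      exact h1 i hi
    · rw [if_neg hi]
      exact h2 i i.2 hi

end Pool.Agent.V8H12.GT
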