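import Mathlib
import Pool.Agent.V8H12.GT.Dat

/-!
# The Selmer sets of the twists
-/

set_option autoImplicit false

namespace Pool.Agent.V8H12.GT

open Pool.Agent.V8H12.X49

section
variable {a b : ℤ} {S Q : Finset ℕ} {d : ℕ → ZMod 2}

theorem Dat.notMem (h : Dat a b S Q d) {p : ℕ} (hb : (p : ℤ) ∣ b * (a ^ 2 - 4 * b)) :
    p ∉ S ∪ Q := by
  intro hp
  have : Fact p.Prime := ⟨h.pr hp⟩
  obtain ⟨h1, h2⟩ := h.goodD p hp
  have h3 : ((b * (a ^ 2 - 4 * b) : ℤ) : ZMod p) = 0 := (ZMod.intCast_zmod_eq_zero_iff_dvd _ p).2 hb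
  rw [Int.cast_mul] at h3
  exact mul_ne_zero h1 h2 h3

theorem Dat.psq (h : Dat a b S Q d) {T : Finset ℕ} (hT : T ⊆ S) {p : ℕ} [hp : Fact p.Prime]
    (hp2 : p ≠ 2) (hb : (p : ℤ) ∣ b * (a ^ 2 - 4 * b)) :
    IsSquare (PP T : ZMod p) ∧ (PP T : ZMod p) ≠ 0 := by
  constructor
  · unfold PP
    push_cast
    exact Finset.prod_induction (fun q : ℕ => (q : ZMod p)) IsSquare (fun a b ha hb => ha.mul hb)
      ⟨1, by ring⟩ fun q hq => h.badS q (hT hq) p hp.out hp2 hb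
  · exact pp_ne (fun l hl => h.pr hl) (hT.trans Finset.subset_union_left)
      fun hpT => h.notMem hb (Finset.mem_union_left _ (hT hpT))

theorem Dat.p8 (h : Dat a b S Q d) {T : Finset ℕ} (hT : T ⊆ S) : PP T % 8 = 1 := by
  refine Finset.prod_induction (fun q : ℕ => (q : ℤ)) (fun n => n % 8 = 1) (fun a b ha hb => ?_) rfl
    fun q hq => ?_
  · show a * b % 8 = 1
    rw [Int.mul_emod, ha, hb]
    rfl
  · have := (h.prS q (hT hq)).2
    show (q : ℤ) % 8 = 1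
    omega

theorem Dat.roots (h : Dat a b S Q d) {T : Finset ℕ} (hT : T ⊆ S) (p : ℕ) [hp : Fact p.Prime]
    (hbad : p = 2 ∨ (p : ℤ) ∣ b * (a ^ 2 - 4 * b)) :
    ∃ π κ : ℚ_[p], π ^ 2 = (PP T : ℤ) ∧ κ ^ 2 = (PP ((S ∪ Q) \ T) : ℤ) ∧ π ≠ 0 ∧ κ ≠ 0 := by
  have hTR : T ⊆ S ∪ Q := hT.trans Finset.subset_union_left
  have hP0 := pp_pos (fun l hl => h.pr hl) hTR
  have hc0 := pp_pos (fun l hl => h.pr hl) (Finset.sdiff_subset (s := S ∪ Q) (t := T))
  have hsp := pp_split hTR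
  have key : (∃ z : ℤ_[p], z ^ 2 = PP T) ∧ ∃ z : ℤ_[p], z ^ 2 = PP ((S ∪ Q) \ T) := by
    by_cases hp2 : p = 2
    · subst hp2
      have h1 := h.p8 hT
      have h2 := h.D8
      rw [hsp, Int.mul_emod, h1, one_mul, Int.emod_emod_of_dvd _ dvd_rfl] at h2
      exact ⟨sq_two _ h1, sq_two _ h2⟩
    · have hb := hbad.resolve_left hp2
      have h2 : (2 : ZMod p) ≠ 0 := by
        intro h
        have h1 : ((2 : ℕ) : ZMod p) = 0 := by exact_mod_cast h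
        rw [ZMod.natCast_eq_zero_iff] at h1
        exact hp2 ((Nat.prime_dvd_prime_iff_eq hp.out Nat.prime_two).1 h1)
      obtain ⟨h3, h4⟩ := h.psq hT hp2 hb
      have h5 := h.badD p hp.out hp2 hb
      have h6 : (PP ((S ∪ Q) \ T) : ZMod p) ≠ 0 := pp_ne (fun l hl => h.pr hl) Finset.sdiff_subset
        fun hpT => h.notMem hb (Finset.mem_sdiff.1 hpT).1
      have h7 : IsSquare (PP ((S ∪ Q) \ T) : ZMod p) := by
        rw [hsp, Int.cast_mul] at h5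
        have h8 := h5.div h3
        rwa [mul_div_cancel_left₀ _ h4] at h8
      exact ⟨sq_unit h2 _ h4 h3, sq_unit h2 _ h6 h7⟩
  obtain ⟨⟨z, hz⟩, ⟨w, hw⟩⟩ := key
  have e1 : (z : ℚ_[p]) ^ 2 = (PP T : ℤ) := by
    have := congrArg (fun x : ℤ_[p] => (x : ℚ_[p])) hz
    push_cast at this
    exact this
  have e2 : (w : ℚ_[p]) ^ 2 = (PP ((S ∪ Q) \ T) : ℤ) := by
    have := congrArg (fun x : ℤ_[p] => (x : ℚ_[p])) hw
    push_cast at this
    exact this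
  refine ⟨z, w, e1, e2, ?_, ?_⟩
  · intro h0
    rw [h0] at e1
    have : ((PP T : ℤ) : ℚ_[p]) = 0 := by rw [← e1]; ring
    exact hP0.ne' (by exact_mod_cast this)
  · intro h0
    rw [h0] at e2
    have : ((PP ((S ∪ Q) \ T) : ℤ) : ℚ_[p]) = 0 := by rw [← e2]; ring
    exact hc0.ne' (by exact_mod_cast this)

theorem Dat.tr (h : Dat a b S Q d) {T : Finset ℕ} (hT : T ⊆ S) (p : ℕ) [hp : Fact p.Prime]
    (hbad : p = 2 ∨ (p : ℤ) ∣ b * (a ^ 2 - 4 * b)) (u v : ℤ) :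
    Sol (Padic p) (u * PP T) (a * PP (S ∪ Q)) (v * PP T * PP ((S ∪ Q) \ T) ^ 2) ↔
      Sol (Padic p) u a v := by
  obtain ⟨π, κ, h1, h2, h3, h4⟩ := h.roots hT p hbad
  rw [pp_split (hT.trans Finset.subset_union_left)]
  exact scale h1 h2 h3 h4

theorem Dat.trR (h : Dat a b S Q d) {T : Finset ℕ} (hT : T ⊆ S) (u v : ℤ) :
    Sol ℝ (u * PP T) (a * PP (S ∪ Q)) (v * PP T * PP ((S ∪ Q) \ T) ^ 2) ↔ Sol ℝ u a v := by
  have hTR : T ⊆ S ∪ Q := hT.trans Finset.subset_union_left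
  have hP0 := pp_pos (fun l hl => h.pr hl) hTR
  have hc0 := pp_pos (fun l hl => h.pr hl) (Finset.sdiff_subset (s := S ∪ Q) (t := T))
  have hP1 : (0 : ℝ) < PP T := by exact_mod_cast hP0
  have hc1 : (0 : ℝ) < PP ((S ∪ Q) \ T) := by exact_mod_cast hc0
  rw [pp_split hTR]
  exact scale (Real.sq_sqrt hP1.le) (Real.sq_sqrt hc1.le) (Real.sqrt_pos.2 hP1).ne'
    (Real.sqrt_pos.2 hc1).ne'

/-- the conditions at a prime of `T` -/
theorem Dat.condT (h : Dat a b S Q d) {T : Finset ℕ} (hTR : T ⊆ S ∪ Q) {u v : ℤ} (huv : b = u * v)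
    {l : ℕ} [hl : Fact l.Prime] (hlT : l ∈ T)
    (hs : Sol (Padic l) (u * PP T) (a * PP (S ∪ Q)) (v * PP T * PP ((S ∪ Q) \ T) ^ 2)) :
    l ∈ S ∧ (l ∈ S → d l + ∑ q ∈ (S ∪ Q) \ T, nonsq l q = 0) := by
  have hR : ∀ l ∈ S ∪ Q, l.Prime := fun l hl => h.pr hl
  have hlR := hTR hlT
  obtain ⟨hb, hΔ⟩ := h.goodD l hlR
  have hb' : (u : ZMod l) * v ≠ 0 := by
    rw [← Int.cast_mul, ← huv]
    exact hb
  have hu : (u : ZMod l) ≠ 0 := left_ne_zero_of_mul hb'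
  have hv : (v : ZMod l) ≠ 0 := right_ne_zero_of_mul hb'
  have hP' : (PP (T.erase l) : ZMod l) ≠ 0 :=
    pp_ne hR ((Finset.erase_subset _ _).trans hTR) (Finset.notMem_erase _ _)
  have hlc : l ∉ (S ∪ Q) \ T := fun h => (Finset.mem_sdiff.1 h).2 hlT
  have hc : (PP ((S ∪ Q) \ T) : ZMod l) ≠ 0 := pp_ne hR Finset.sdiff_subset hlc
  have hclam := pp_lam hR (Finset.sdiff_subset (s := S ∪ Q) (t := T)) hlc
  rw [pp_split hTR] at hs
  rw [pp_erase hlT] at hs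
  generalize hPd : PP (T.erase l) = P' at *
  generalize hcd : PP ((S ∪ Q) \ T) = c at *
  obtain ⟨t, ht⟩ := locB (p := l) (α' := u * P') (β' := a * (P' * c)) (γ' := v * P' * c ^ 2)
    (by ring) (by ring) (by ring) (by
      push_cast
      exact mul_ne_zero (mul_ne_zero hv hP') (pow_ne_zero 2 hc)) hs
  push_cast at ht
  have h1 : (u : ZMod l) + a * c * t ^ 2 + v * c ^ 2 * t ^ 4 = 0 := by
    have e : (P' : ZMod l) * (u + a * c * t ^ 2 + v * c ^ 2 * t ^ 4) = 0 := by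
      linear_combination ht
    exact (mul_eq_zero.1 e).resolve_left hP'
  have ht0 : t ≠ 0 := by
    rintro rfl
    apply hu
    linear_combination h1
  have hz : ((u : ZMod l) / (c * t ^ 2)) ^ 2 + a * (u / (c * t ^ 2)) + b = 0 := by
    rw [huv]
    push_cast
    have e : ((u : ZMod l) / (c * t ^ 2)) ^ 2 + a * (u / (c * t ^ 2)) + u * v =
        u / (c ^ 2 * t ^ 4) * (u + a * c * t ^ 2 + v * c ^ 2 * t ^ 4) := by
      field_simp
    rw [e, h1, mul_zero]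
  have hlS : l ∈ S := by
    rcases Finset.mem_union.1 hlR with h2 | h2
    · exact h2
    · exfalso
      refine (h.inQ l h2).2 ⟨2 * (u / (c * t ^ 2)) + a, ?_⟩
      push_cast
      linear_combination -4 * hz
  refine ⟨hlS, fun _ => ?_⟩
  have h3 := h.root_all hlS hz
  have hzne : (u : ZMod l) / (c * t ^ 2) ≠ 0 := div_ne_zero hu (mul_ne_zero hc (pow_ne_zero 2 ht0))
  have h4 : IsSquare ((u : ZMod l) / (c * t ^ 2) * (u * c)) := ⟨u / t, by field_simp⟩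
  have h5 := lam_of_sq h4
  rw [lam_mul hzne (mul_ne_zero hu hc), lam_mul hu hc, h3,
    lam_of_sq (h.bsq hlS (n := u) ⟨v, huv⟩), zero_add, hclam] at h5
  exact h5

/-- the conditions at a prime of `S` outside `T` -/
theorem Dat.condS (h : Dat a b S Q d) {T : Finset ℕ} (hTR : T ⊆ S ∪ Q) {u v : ℤ} (huv : b = u * v)
    {l : ℕ} [hl : Fact l.Prime] (hlS : l ∈ S) (hlT : l ∉ T)
    (hs : Sol (Padic l) (u * PP T) (a * PP (S ∪ Q)) (v * PP T * PP ((S ∪ Q) \ T) ^ 2)) :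
    ∑ q ∈ T, nonsq l q = 0 := by
  have hR : ∀ l ∈ S ∪ Q, l.Prime := fun l hl => h.pr hl
  have hlR : l ∈ S ∪ Q := Finset.mem_union_left _ hlS
  obtain ⟨hb, hΔ⟩ := h.goodD l hlR
  have hb' : (u : ZMod l) * v ≠ 0 := by
    rw [← Int.cast_mul, ← huv]
    exact hb
  have hu : (u : ZMod l) ≠ 0 := left_ne_zero_of_mul hb'
  have hv : (v : ZMod l) ≠ 0 := right_ne_zero_of_mul hb'
  have hP := pp_ne hR hTR hlT
  have hPlam := pp_lam hR hTR hlT
  have hlc : l ∈ (S ∪ Q) \ T := Finset.mem_sdiff.2 ⟨hlR, hlT⟩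
  have hc' : (PP (((S ∪ Q) \ T).erase l) : ZMod l) ≠ 0 :=
    pp_ne hR ((Finset.erase_subset _ _).trans Finset.sdiff_subset) (Finset.notMem_erase _ _)
  rw [pp_split hTR, pp_erase hlc] at hs
  generalize hcd : PP (((S ∪ Q) \ T).erase l) = c' at *
  have hul := lam_of_sq (h.bsq hlS (n := u) ⟨v, huv⟩)
  have hvl := lam_of_sq (h.bsq hlS (n := v) ⟨u, by rw [huv]; ring⟩)
  rw [← hPlam]
  rcases locA (p := l) (γ' := v * PP T * c' ^ 2) ⟨a * (PP T * c'), by ring⟩ (by ring) hs with h1 | h1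
  · have h2 := lam_of_sq h1
    push_cast at h2
    rw [lam_mul hu hP, hul, zero_add] at h2
    exact h2
  · have h2 := lam_of_sq h1
    push_cast at h2
    rw [lam_mul (mul_ne_zero hv hP) (pow_ne_zero 2 hc'), lam_mul hv hP, hvl, zero_add, lam_sq,
      add_zero] at h2
    exact h2

theorem Dat.goodP (h : Dat a b S Q d) {u v : ℤ} (huv : b = u * v) {p : ℕ} [hp : Fact p.Prime]
    (hp2 : p ≠ 2) (hb : ¬ (p : ℤ) ∣ b * (a ^ 2 - 4 * b)) :
    (2 : ZMod p) ≠ 0 ∧ (u : ZMod p) ≠ 0 ∧ (v : ZMod p) ≠ 0 ∧ ((a ^ 2 - 4 * (u * v) : ℤ) : ZMod p) ≠ 0 := by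
  have h1 : ((b * (a ^ 2 - 4 * b) : ℤ) : ZMod p) ≠ 0 := by
    rw [ne_eq, ZMod.intCast_zmod_eq_zero_iff_dvd]
    exact hb
  rw [Int.cast_mul] at h1
  have h2 := left_ne_zero_of_mul h1
  have h3 := right_ne_zero_of_mul h1
  rw [huv] at h2 h3
  rw [Int.cast_mul] at h2
  refine ⟨?_, left_ne_zero_of_mul h2, right_ne_zero_of_mul h2, h3⟩
  intro h
  have h1 : ((2 : ℕ) : ZMod p) = 0 := by exact_mod_cast h
  rw [ZMod.natCast_eq_zero_iff] at h1
  exact hp2 ((Nat.prime_dvd_prime_iff_eq hp.out Nat.prime_two).1 h1)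

/-- **Upper bound** -/
theorem Dat.upper (h : Dat a b S Q d) {x : ℤ}
    (hx : x ∈ SelSet (a * PP (S ∪ Q)) (b * PP (S ∪ Q) ^ 2)) :
    ∃ (u : ℤ) (T : Finset ℕ), u ∈ SelSet a b ∧ Ker S Q d T ∧ x = u * PP T := by
  classical
  obtain ⟨hsf, hdvd, hRe, hPa⟩ := hx
  have hR : ∀ l ∈ S ∪ Q, l.Prime := fun l hl => h.pr hl
  obtain ⟨T, hTd⟩ : ∃ T : Finset ℕ, T = (S ∪ Q).filter fun q : ℕ => (q : ℤ) ∣ x := ⟨_, rfl⟩
  have hTR : T ⊆ S ∪ Q := by rw [hTd]; exact Finset.filter_subset _ _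
  have hTx : ∀ q ∈ T, (q : ℤ) ∣ x := fun q hq => by
    rw [hTd] at hq
    exact (Finset.mem_filter.1 hq).2
  have hPx : PP T ∣ x := by
    refine Finset.prod_dvd_of_coprime (fun p hp q hq hpq => ?_) hTx
    exact Nat.isCoprime_iff_coprime.2 ((Nat.coprime_primes (hR p (hTR hp)) (hR q (hTR hq))).2 hpq)
  obtain ⟨u, hu⟩ := hPx
  have hxu : x = u * PP T := by rw [hu]; ring
  have hcop : IsCoprime u (PP (S ∪ Q)) := by
    refine IsCoprime.prod_right fun l hl => ?_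
    have hlp : Prime (l : ℤ) := Nat.prime_iff_prime_int.1 (hR l hl)
    refine ((Prime.coprime_iff_not_dvd hlp).2 fun hlu => ?_).symm
    have hlT : l ∈ T := by
      rw [hTd, Finset.mem_filter]
      exact ⟨hl, by rw [hxu]; exact hlu.mul_right _⟩
    have h1 : (l : ℤ) * l ∣ x := by
      rw [hxu, pp_erase hlT]
      obtain ⟨k, hk⟩ := hlu
      exact ⟨k * PP (T.erase l), by rw [hk]; ring⟩
    exact hlp.not_isUnit (hsf _ h1)
  have hub : u ∣ b := by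
    refine (hcop.pow_right (n := 2)).dvd_of_dvd_mul_right ((Dvd.intro_left (PP T) hu.symm).trans hdvd)
  obtain ⟨v, huv⟩ := hub
  have hx0 : x ≠ 0 := hsf.ne_zero
  have e : b * PP (S ∪ Q) ^ 2 / x = v * PP T * PP ((S ∪ Q) \ T) ^ 2 := by
    have e1 : b * PP (S ∪ Q) ^ 2 = x * (v * PP T * PP ((S ∪ Q) \ T) ^ 2) := by
      rw [huv, hxu, pp_split hTR]
      ring
    rw [e1, Int.mul_ediv_cancel_left _ hx0]
  have hu0 : u ≠ 0 := by
    rintro rfl
    apply hx0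
    rw [hxu, zero_mul]
  have ev : b / u = v := by rw [huv, Int.mul_ediv_cancel_left _ hu0]
  rw [e, hxu] at hRe
  have hPa' : ∀ (p : ℕ) [Fact p.Prime],
      Sol (Padic p) (u * PP T) (a * PP (S ∪ Q)) (v * PP T * PP ((S ∪ Q) \ T) ^ 2) := by
    intro p _
    have h1 := hPa p
    rw [e] at h1
    rw [← hxu]
    exact h1
  have hTS : T ⊆ S := by
    intro l hl
    have : Fact l.Prime := ⟨hR l (hTR hl)⟩
    exact (h.condT hTR huv hl (hPa' l)).1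
  refine ⟨u, T, ⟨?_, ⟨v, huv⟩, ?_, ?_⟩, ?_, hxu⟩
  · exact hsf.squarefree_of_dvd ⟨PP T, hxu⟩
  · rw [ev]
    exact (h.trR hTS u v).1 hRe
  · intro p hp
    rw [ev]
    by_cases hbad : p = 2 ∨ (p : ℤ) ∣ b * (a ^ 2 - 4 * b)
    · exact (h.tr hTS p hbad u v).1 (hPa' p)
    · push Not at hbad
      obtain ⟨h2, h3, h4, h5⟩ := h.goodP huv hbad.1 hbad.2
      exact good h2 h3 h4 (by
        have e : a ^ 2 - 4 * u * v = a ^ 2 - 4 * (u * v) := by ring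
        rw [e]
        exact h5)
  · rw [ker_iff hTS]
    refine ⟨fun l hl => ?_, fun l hl hlT => ?_⟩
    · have : Fact l.Prime := ⟨hR l (hTR hl)⟩
      exact (h.condT hTR huv hl (hPa' l)).2 (hTS hl)
    · have : Fact l.Prime := ⟨(h.prS l hl).1⟩
      exact h.condS hTR huv hl hlT (hPa' l)

end

end Pool.Agent.V8H12.GT
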