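import Mathlib
import Pool.Agent.V8H12.GT.Sel

/-!
# The Selmer sets of the twists: lower bound, the dual curve, the orders
-/

set_option autoImplicit false

namespace Pool.Agent.V8H12.GT

open Polynomial
open Pool.Agent.V8H12.X49

section
variable {p : ℕ} [hp : Fact p.Prime]

theorem rootZ {α β γ : ℤ} (x : ZMod p) (h1 : α * x ^ 4 + β * x ^ 2 + γ = 0)
    (h2 : 4 * α * x ^ 3 + 2 * β * x ≠ 0) :
    ∃ z : ℤ_[p], (α : ℤ_[p]) * z ^ 4 + β * z ^ 2 + γ = 0 := by
  obtain ⟨z, hz⟩ := hensel (p := p) (C α * X ^ 4 + C β * X ^ 2 + C γ) x (by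
    simp only [Polynomial.map_add, Polynomial.map_mul, Polynomial.map_pow, map_X, map_C, eval_add,
      eval_mul, eval_pow, eval_X, eval_C]
    simp
    linear_combination h1) (by
    simp only [derivative_add, derivative_X_pow, derivative_C, derivative_C_mul, add_zero,
      Polynomial.map_add, Polynomial.map_mul, Polynomial.map_pow, map_X, map_C, eval_add,
      eval_mul, eval_pow, eval_X, eval_C]
    simp
    intro h
    apply h2
    linear_combination h)
  refine ⟨z, ?_⟩
  simp only [Polynomial.map_add, Polynomial.map_mul, Polynomial.map_pow, map_X, map_C, eval_add,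
      eval_mul, eval_pow, eval_X, eval_C] at hz
  simp at hz
  linear_combination hz

end

section
variable {a b : ℤ} {S Q : Finset ℕ} {d : ℕ → ZMod 2}

theorem Dat.cop (h : Dat a b S Q d) {u : ℤ} (hu : u ∣ b) {T : Finset ℕ} (hTR : T ⊆ S ∪ Q) :
    IsCoprime u (PP T) := by
  refine IsCoprime.prod_right fun l hl => ?_
  have hlp : Prime (l : ℤ) := Nat.prime_iff_prime_int.1 (h.pr (hTR hl))
  refine ((Prime.coprime_iff_not_dvd hlp).2 fun hlu => ?_).symm
  exact (h.goodD l (hTR hl)).1 ((ZMod.intCast_zmod_eq_zero_iff_dvd _ l).2 (hlu.trans hu))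

theorem Dat.sqfP (h : Dat a b S Q d) {T : Finset ℕ} (hTR : T ⊆ S ∪ Q) : Squarefree (PP T) := by
  refine Finset.squarefree_prod_of_pairwise_isCoprime (fun p hp q hq hpq => ?_) fun p hp => ?_
  · exact (Nat.isCoprime_iff_coprime.2
      ((Nat.coprime_primes (h.pr (hTR hp)) (h.pr (hTR hq))).2 hpq)).isRelPrime
  · exact (Nat.prime_iff_prime_int.1 (h.pr (hTR hp))).squarefree

/-- **Lower bound** -/
theorem Dat.lower (h : Dat a b S Q d) {u : ℤ} {T : Finset ℕ} (hu : u ∈ SelSet a b)
    (hK : Ker S Q d T) : u * PP T ∈ SelSet (a * PP (S ∪ Q)) (b * PP (S ∪ Q) ^ 2) := by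
  classical
  obtain ⟨hsf, ⟨v, huv⟩, hRe, hPa⟩ := hu
  have hTS := hK.1
  have hTR : T ⊆ S ∪ Q := hTS.trans Finset.subset_union_left
  have hR : ∀ l ∈ S ∪ Q, l.Prime := fun l hl => h.pr hl
  obtain ⟨hk1, hk2⟩ := (ker_iff hTS).1 hK
  have hu0 : u ≠ 0 := hsf.ne_zero
  have hP0 := pp_pos hR hTR
  have ev : b / u = v := by rw [huv, Int.mul_ediv_cancel_left _ hu0]
  have e1 : b * PP (S ∪ Q) ^ 2 = u * PP T * (v * PP T * PP ((S ∪ Q) \ T) ^ 2) := by
    rw [huv, pp_split hTR]
    ring
  have e : b * PP (S ∪ Q) ^ 2 / (u * PP T) = v * PP T * PP ((S ∪ Q) \ T) ^ 2 := by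
    rw [e1, Int.mul_ediv_cancel_left _ (mul_ne_zero hu0 hP0.ne')]
  rw [ev] at hRe
  refine ⟨?_, ⟨_, e1⟩, ?_, ?_⟩
  · exact squarefree_mul_iff.2 ⟨(h.cop ⟨v, huv⟩ hTR).isRelPrime, hsf, h.sqfP hTR⟩
  · rw [e]
    exact (h.trR hTS u v).2 hRe
  · intro p hp
    have hPp := hPa p
    rw [ev] at hPp
    rw [e]
    by_cases hbad : p = 2 ∨ (p : ℤ) ∣ b * (a ^ 2 - 4 * b)
    · exact (h.tr hTS p hbad u v).2 hPp
    push Not at hbad
    obtain ⟨h2, h3, h4, h5⟩ := h.goodP huv hbad.1 hbad.2
    by_cases hpT : p ∈ T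
    · have hpS := hTS hpT
      have hpc : p ∉ (S ∪ Q) \ T := fun h => (Finset.mem_sdiff.1 h).2 hpT
      have hc := pp_ne hR (Finset.sdiff_subset (s := S ∪ Q) (t := T)) hpc
      have hclam := pp_lam hR (Finset.sdiff_subset (s := S ∪ Q) (t := T)) hpc
      obtain ⟨ρ, hρ, hρd⟩ := h.root p hpS
      have hb := (h.goodD p (hTR hpT)).1
      have hρ0 : ρ ≠ 0 := by
        rintro rfl
        apply hb
        linear_combination hρ
      rw [pp_split hTR]
      generalize hcd : PP ((S ∪ Q) \ T) = c at *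
      have hul := lam_of_sq (h.bsq hpS (n := u) ⟨v, huv⟩)
      have hsq : IsSquare ((c : ZMod p) * ρ * u) := by
        rw [← lam_zero_iff, lam_mul (mul_ne_zero hc hρ0) h3, lam_mul hc hρ0, hul, hρd, add_zero,
          hclam, add_comm]
        exact hk1 p hpT
      obtain ⟨y, hy⟩ := hsq
      have hbuv : (b : ZMod p) = u * v := by rw [huv]; push_cast; rfl
      have hx : (y / u) ^ 2 = c * ρ / u := by
        rw [div_pow, sq y, ← hy]
        field_simp
      have hroot : ((u : ℤ) : ZMod p) * (y / u) ^ 4 + ((a * c : ℤ) : ZMod p) * (y / u) ^ 2 +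
          ((v * c ^ 2 : ℤ) : ZMod p) = 0 := by
        have e4 : (y / (u : ZMod p)) ^ 4 = (c * ρ / u) ^ 2 := by rw [← hx]; ring
        rw [e4, hx]
        push_cast
        rw [hbuv] at hρ
        field_simp
        linear_combination c ^ 2 * hρ
      obtain ⟨z, hz⟩ := rootZ (p := p) (y / u) hroot (simple h2 (by
          push_cast
          exact mul_ne_zero h4 (pow_ne_zero 2 hc)) (by
          push_cast at h5 ⊢
          have e5 : ((a : ZMod p) * c) ^ 2 - 4 * u * (v * c ^ 2) = (a ^ 2 - 4 * (u * v)) * c ^ 2 := by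
            ring
          rw [e5]
          exact mul_ne_zero h5 (pow_ne_zero 2 hc)) hroot)
      refine Sol.of_int 0 z 1 (Or.inr one_ne_zero) ?_
      push_cast at hz ⊢
      linear_combination -(PP T : ℤ_[p]) * hz
    · have hP := pp_ne hR hTR hpT
      have hPlam := pp_lam hR hTR hpT
      by_cases hpS : p ∈ S
      · refine solLead h2 (by push_cast; exact mul_ne_zero h3 hP) ?_
        rw [← lam_zero_iff]
        push_cast
        rw [lam_mul h3 hP, lam_of_sq (h.bsq hpS (n := u) ⟨v, huv⟩), hPlam, zero_add]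
        exact hk2 p hpS hpT
      · by_cases hpQ : p ∈ Q
        · rcases lam_cases ((u : ZMod p) * (PP T : ZMod p)) with h6 | h6
          · refine solLead h2 (by push_cast; exact mul_ne_zero h3 hP) ?_
            rw [← lam_zero_iff]
            push_cast
            exact h6
          · have h7 : lam ((v : ZMod p) * (PP T : ZMod p)) = 0 := by
              have h8 : lam ((u : ZMod p) * v) = 1 := by
                have e2 : (u : ZMod p) * v = (b : ZMod p) := by rw [huv]; push_cast; rfl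
                rw [e2]
                exact lam_eq_one (h.inQ p hpQ).1
              rw [lam_mul h3 hP] at h6
              rw [lam_mul h3 h4] at h8
              rw [lam_mul h4 hP]
              have h9 : ∀ x y z : ZMod 2, x + z = 1 → x + y = 1 → y + z = 0 := by decide
              exact h9 _ _ _ h6 h8
            obtain ⟨z, hz⟩ := sq_unit (p := p) h2 (v * PP T)
              (by push_cast; exact mul_ne_zero h4 hP)
              (by push_cast; exact (lam_zero_iff _).1 h7)
            refine Sol.of_int (PP ((S ∪ Q) \ T) * z) 0 1 (Or.inr one_ne_zero) ?_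
            rw [mul_pow, hz]
            push_cast
            ring
        · have hpR : p ∉ S ∪ Q := fun h6 => (Finset.mem_union.1 h6).elim hpS hpQ
          have hc := pp_ne hR (Finset.sdiff_subset (s := S ∪ Q) (t := T))
            (p := p) (fun h6 => hpR (Finset.mem_sdiff.1 h6).1)
          rw [pp_split hTR]
          refine good h2 (by push_cast; exact mul_ne_zero h3 hP)
            (by push_cast; exact mul_ne_zero (mul_ne_zero h4 hP) (pow_ne_zero 2 hc)) ?_
          push_cast at h5 ⊢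
          have e5 : ((a : ZMod p) * ((PP T : ZMod p) * (PP ((S ∪ Q) \ T) : ZMod p))) ^ 2 -
              4 * (u * (PP T : ZMod p)) * (v * (PP T : ZMod p) * (PP ((S ∪ Q) \ T) : ZMod p) ^ 2) =
              (a ^ 2 - 4 * (u * v)) * ((PP T : ZMod p) * (PP ((S ∪ Q) \ T) : ZMod p)) ^ 2 := by ring
          rw [e5]
          exact mul_ne_zero h5 (pow_ne_zero 2 (mul_ne_zero hP hc))

/-- the data of the dual curve -/
theorem Dat.dual (h : Dat a b S Q d) : Dat (-2 * a) (a ^ 2 - 4 * b) S Q d := by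
  have e16 : (-2 * a) ^ 2 - 4 * (a ^ 2 - 4 * b) = 16 * b := by ring
  have hbad : ∀ p : ℕ, p.Prime → p ≠ 2 →
      (p : ℤ) ∣ (a ^ 2 - 4 * b) * ((-2 * a) ^ 2 - 4 * (a ^ 2 - 4 * b)) →
      (p : ℤ) ∣ b * (a ^ 2 - 4 * b) := by
    intro p hp hp2 hd
    rw [e16] at hd
    have hpp : Prime (p : ℤ) := Nat.prime_iff_prime_int.1 hp
    have e : (a ^ 2 - 4 * b) * (16 * b) = 2 ^ 4 * (b * (a ^ 2 - 4 * b)) := by ring
    rw [e] at hd
    rcases hpp.dvd_or_dvd hd with h1 | h1
    · exfalso
      have h2 := hpp.dvd_of_dvd_pow h1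
      have h3 : p ∣ 2 := by exact_mod_cast h2
      exact hp2 ((Nat.prime_dvd_prime_iff_eq hp Nat.prime_two).1 h3)
    · exact h1
  refine ⟨h.Δ0, by rw [e16]; exact mul_ne_zero (by norm_num) h.b0, h.disj, h.prS, h.prQ, ?_, ?_, ?_,
    ?_, h.D8, fun p hp hp2 hd => h.badD p hp hp2 (hbad p hp hp2 hd)⟩
  · intro l hl
    have : Fact l.Prime := ⟨h.pr hl⟩
    obtain ⟨h1, h2⟩ := h.goodD l hl
    refine ⟨h2, ?_⟩
    rw [e16]
    push_cast
    have e : (16 : ZMod l) = 2 ^ 4 := by norm_num
    rw [e]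
    exact mul_ne_zero (pow_ne_zero 4 (h.two hl)) h1
  · intro l hl _
    have hlR : l ∈ S ∪ Q := Finset.mem_union_left _ hl
    obtain ⟨ρ, h1, h2⟩ := h.root l hl
    obtain ⟨hb, hΔ⟩ := h.goodD l hlR
    obtain ⟨w, hw⟩ := h.bsq hl (n := b) dvd_rfl
    have hρ0 : ρ ≠ 0 := by
      rintro rfl
      apply hb
      linear_combination h1
    have hσ : (a - 2 * w : ZMod l) ≠ 0 := by
      intro h0
      apply hΔ
      push_cast
      linear_combination (a + 2 * w) * h0 - 4 * hw
    refine ⟨a - 2 * w, ?_, ?_⟩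
    · push_cast
      linear_combination -4 * hw
    · have h3 : ρ * (-1 * (a - 2 * w)) = (ρ + w) ^ 2 := by linear_combination -h1 + hw
      have h4 : lam (ρ * (-1 * (a - 2 * w))) = 0 := by rw [h3]; exact lam_sq _
      have hm1 : (-1 : ZMod l) ≠ 0 := neg_ne_zero.2 one_ne_zero
      have h8 := (h.prS l hl).2
      rw [lam_mul hρ0 (mul_ne_zero hm1 hσ), lam_mul hm1 hσ,
        lam_of_sq (neg_one_sq (p := l) (by omega)), zero_add, h2] at h4
      have h5 : ∀ x y : ZMod 2, x + y = 0 → y = x := by decide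
      exact h5 _ _ h4
  · intro l hl p hp hp2 hd
    exact h.badS l hl p hp hp2 (hbad p hp hp2 hd)
  · intro l hl
    have : Fact l.Prime := ⟨(h.prQ l hl).1⟩
    have hlR : l ∈ S ∪ Q := Finset.mem_union_right _ hl
    refine ⟨(h.inQ l hl).2, fun h1 => (h.inQ l hl).1 ?_⟩
    rw [e16] at h1
    push_cast at h1
    have h40 : (4 : ZMod l) ≠ 0 := by
      have e : (4 : ZMod l) = 2 * 2 := by norm_num
      rw [e]
      exact mul_ne_zero (h.two hlR) (h.two hlR)
    have h2 : IsSquare ((4 : ZMod l) * 4) := ⟨4, rfl⟩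
    have h3 := h1.div h2
    have e : (16 : ZMod l) * b / (4 * 4) = b := by
      rw [div_eq_iff (mul_ne_zero h40 h40)]
      ring
    rwa [e] at h3

end

end Pool.Agent.V8H12.GT
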