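import Mathlib
import Pool.Agent.V8H12.GT.Low

/-!
# The orders of the Selmer sets of the twists
-/

set_option autoImplicit false

namespace Pool.Agent.V8H12.GT

open Pool.Agent.V8H12.X49

open scoped Classical in
/-- the sets of the prime numbers with indicator vector in the kernel -/
noncomputable def KG (S Q : Finset ℕ) (d : ℕ → ZMod 2) : Finset (Finset ℕ) :=
  S.powerset.filter fun T => (gmat S (S ∪ Q) d).mulVec (gind S T) = 0

/-- the corank of the matrix -/
noncomputable def gcork (S Q : Finset ℕ) (d : ℕ → ZMod 2) : ℕ := S.card - (gmat S (S ∪ Q) d).rank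

theorem KG_card (S Q : Finset ℕ) (d : ℕ → ZMod 2) : (KG S Q d).card = 2 ^ gcork S Q d := by
  classical
  have h1 : Module.finrank (ZMod 2) (LinearMap.ker (gmat S (S ∪ Q) d).mulVecLin) = gcork S Q d := by
    have h := (gmat S (S ∪ Q) d).mulVecLin.finrank_range_add_finrank_ker
    rw [Module.finrank_fintype_fun_eq_card, Fintype.card_coe] at h
    unfold gcork Matrix.rank
    omega
  have h2 : Nat.card (LinearMap.ker (gmat S (S ∪ Q) d).mulVecLin) = 2 ^ gcork S Q d := by
    rw [Module.natCard_eq_pow_finrank (K := ZMod 2), h1, Nat.card_zmod]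
  rw [← h2, Nat.card_eq_fintype_card, ← Finset.card_univ]
  refine Finset.card_bij (fun T hT => ⟨gind S T, ?_⟩) ?_ ?_ ?_
  · rw [LinearMap.mem_ker, Matrix.mulVecLin_apply]
    exact (Finset.mem_filter.1 hT).2
  · intro T hT
    exact Finset.mem_univ _
  · intro T hT T' hT' h
    have h3 : gind S T = gind S T' := congrArg Subtype.val h
    have hs := Finset.mem_powerset.1 (Finset.mem_filter.1 hT).1
    have hs' := Finset.mem_powerset.1 (Finset.mem_filter.1 hT').1
    have h10 : (1 : ZMod 2) ≠ 0 := by decide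
    ext q
    constructor
    · intro hq
      have h4 := congrFun h3 ⟨q, hs hq⟩
      by_contra hn
      unfold gind at h4
      rw [if_pos hq, if_neg hn] at h4
      exact h10 h4
    · intro hq
      have h4 := congrFun h3 ⟨q, hs' hq⟩
      by_contra hn
      unfold gind at h4
      rw [if_pos hq, if_neg hn] at h4
      exact h10 h4.symm
  · rintro ⟨v, hv⟩ -
    have hv' : (gmat S (S ∪ Q) d).mulVec v = 0 := by
      rw [LinearMap.mem_ker, Matrix.mulVecLin_apply] at hv
      exact hv
    have he : gind S ((Finset.univ.filter fun i : S => v i = 1).map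
        (Function.Embedding.subtype _)) = v := by
      funext i
      unfold gind
      have hz : ∀ z : ZMod 2, z ≠ 1 → z = 0 := by decide
      by_cases hi : v i = 1
      · rw [if_pos, hi]
        rw [Finset.mem_map]
        exact ⟨i, Finset.mem_filter.2 ⟨Finset.mem_univ _, hi⟩, rfl⟩
      · rw [if_neg, hz _ hi]
        rw [Finset.mem_map]
        rintro ⟨j, hj, hji⟩
        have : j = i := Subtype.ext hji
        rw [this] at hj
        exact hi (Finset.mem_filter.1 hj).2
    refine ⟨(Finset.univ.filter fun i : S => v i = 1).map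
        (Function.Embedding.subtype _), ?_, Subtype.ext he⟩
    unfold KG
    rw [Finset.mem_filter, Finset.mem_powerset, he]
    refine ⟨?_, hv'⟩
    intro q hq
    rw [Finset.mem_map] at hq
    obtain ⟨j, -, rfl⟩ := hq
    exact j.2

section
variable {a b : ℤ} {S Q : Finset ℕ} {d : ℕ → ZMod 2}

theorem sel_finite {a b : ℤ} (hb : b ≠ 0) : (SelSet a b).Finite := by
  refine (Set.finite_Icc (-|b|) |b|).subset fun x hx => ?_
  exact Set.mem_Icc.2 (abs_le.1 (Int.le_of_dvd (abs_pos.2 hb) ((abs_dvd_abs x b).2 hx.2.1)))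

theorem one_mem (a b : ℤ) : (1 : ℤ) ∈ SelSet a b := by
  refine ⟨squarefree_one, one_dvd _, ?_, fun p _ => ?_⟩
  · exact ⟨1, 1, 0, Or.inl one_ne_zero, by push_cast; ring⟩
  · exact ⟨1, 1, 0, Or.inl one_ne_zero, by push_cast; ring⟩

theorem Dat.mem_T (h : Dat a b S Q d) {u : ℤ} (hu : u ∣ b) {T : Finset ℕ} (hT : T ⊆ S ∪ Q) {q : ℕ}
    (hq : q ∈ S ∪ Q) : (q : ℤ) ∣ u * PP T ↔ q ∈ T := by
  have hqp := h.pr hq
  have hpp : Prime (q : ℤ) := Nat.prime_iff_prime_int.1 hqp
  constructor
  · intro h0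
    rcases hpp.dvd_or_dvd h0 with h1 | h1
    · exfalso
      exact (h.goodD q hq).1 ((ZMod.intCast_zmod_eq_zero_iff_dvd _ q).2 (h1.trans hu))
    · obtain ⟨l, hl, h2⟩ := (hpp.dvd_finsetProd_iff _).1 h1
      have h3 := (Nat.prime_dvd_prime_iff_eq hqp (h.pr (hT hl))).1 (Int.natCast_dvd_natCast.1 h2)
      exact h3 ▸ hl
  · intro h0
    exact (Finset.dvd_prod_of_mem (fun l : ℕ => (l : ℤ)) h0).mul_left u

/-- **The order of the Selmer set of the twist** -/
theorem Dat.ncard (h : Dat a b S Q d) : (SelSet (a * PP (S ∪ Q)) (b * PP (S ∪ Q) ^ 2)).ncard =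
    (SelSet a b).ncard * 2 ^ gcork S Q d := by
  classical
  have hfin := sel_finite (a := a) h.b0
  have hS : SelSet (a * PP (S ∪ Q)) (b * PP (S ∪ Q) ^ 2) =
      (((hfin.toFinset ×ˢ KG S Q d).image
        fun x : ℤ × Finset ℕ => x.1 * PP x.2 : Finset ℤ) : Set ℤ) := by
    ext x
    rw [Finset.mem_coe, Finset.mem_image]
    constructor
    · intro hx
      obtain ⟨u, T, hu, hK, he⟩ := h.upper hx
      refine ⟨(u, T), ?_, he.symm⟩
      rw [Finset.mem_product]
      refine ⟨hfin.mem_toFinset.2 hu, ?_⟩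
      exact Finset.mem_filter.2 ⟨Finset.mem_powerset.2 hK.1, hK.2⟩
    · rintro ⟨⟨u, T⟩, hx, rfl⟩
      rw [Finset.mem_product] at hx
      have h3 := Finset.mem_filter.1 hx.2
      exact h.lower (hfin.mem_toFinset.1 hx.1) ⟨Finset.mem_powerset.1 h3.1, h3.2⟩
  rw [hS, Set.ncard_coe_finset, Finset.card_image_of_injOn, Finset.card_product, KG_card,
    Set.ncard_eq_toFinset_card _ hfin]
  rintro ⟨U, T⟩ hx ⟨U', T'⟩ hx' he
  rw [Finset.mem_coe, Finset.mem_product] at hx hx'
  have hU1 : U ∣ b := (hfin.mem_toFinset.1 hx.1).2.1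
  have hU2 : U' ∣ b := (hfin.mem_toFinset.1 hx'.1).2.1
  have hT : T ⊆ S ∪ Q := (Finset.mem_powerset.1 (Finset.mem_filter.1 hx.2).1).trans
    Finset.subset_union_left
  have hT' : T' ⊆ S ∪ Q := (Finset.mem_powerset.1 (Finset.mem_filter.1 hx'.2).1).trans
    Finset.subset_union_left
  have he' : U * PP T = U' * PP T' := he
  have hTT : T = T' := by
    ext q
    constructor
    · intro hq
      rw [← h.mem_T hU2 hT' (hT hq), ← he']
      exact (h.mem_T hU1 hT (hT hq)).2 hq
    · intro hq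
      rw [← h.mem_T hU1 hT (hT' hq), he']
      exact (h.mem_T hU2 hT' (hT' hq)).2 hq
  subst hTT
  have h3 := mul_right_cancel₀ (pp_pos (fun l hl => h.pr hl) hT).ne' he'
  rw [h3]

theorem log_mul_pow {n : ℕ} (hn : n ≠ 0) (k : ℕ) : Nat.log 2 (n * 2 ^ k) = Nat.log 2 n + k := by
  induction k with
  | zero => simp
  | succ k ih =>
    rw [pow_succ, ← mul_assoc, Nat.log_mul_base Nat.one_lt_two (by positivity), ih]
    ring

/-- the exponents -/
theorem Dat.flog (h : Dat a b S Q d) :
    Nat.log 2 (SelSet (a * PP (S ∪ Q)) (b * PP (S ∪ Q) ^ 2)).ncard =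
      Nat.log 2 (SelSet a b).ncard + gcork S Q d := by
  rw [h.ncard, log_mul_pow]
  exact ((Set.ncard_pos (sel_finite (a := a) h.b0)).2 ⟨1, one_mem a b⟩).ne'

end

end Pool.Agent.V8H12.GT
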