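import Mathlib
import Pool.Agent.Y687.Desc3
import Pool.Agent.V8H12.GT.Count
import Pool.Agent.V8H12.X49.Rank

/-!
# Finiteness of the group of rational points from the classes, for `y² = x³ + a x² + b x`
(after `Pool/Agent/Y687/Desc3` and `Pool/Agent/Y687/K2/Desc2p`, where `a = 13 M`, `b = 128 M²`)
-/

set_option autoImplicit false

open WeierstrassCurve WeierstrassCurve.Affine

namespace Pool.Agent.V8H12.GT

open Pool.Agent.TH942 (sw SPt sw_eqn sw_nonsing sfg)
open Pool.Agent.Y687 (pt_congr finite_of_halving hom_space)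
open Pool.Agent.V8H12.X49

theorem disc_ne {a b : ℚ} (hb : b ≠ 0) (hΔ : a ^ 2 - 4 * b ≠ 0) :
    4 * (81 * b - 27 * a ^ 2) ^ 3 + 27 * (54 * a ^ 3 - 243 * a * b) ^ 2 ≠ 0 := by
  have : 4 * (81 * b - 27 * a ^ 2) ^ 3 + 27 * (54 * a ^ 3 - 243 * a * b) ^ 2 =
      -(3 ^ 12) * (b ^ 2 * (a ^ 2 - 4 * b)) := by
    ring
  rw [this]
  exact mul_ne_zero (by norm_num) (mul_ne_zero (pow_ne_zero 2 hb) hΔ)

/-- halving -/
theorem halve {a b : ℚ} (hb : b ≠ 0) (hΔ : a ^ 2 - 4 * b ≠ 0) {u v s : ℚ}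
    (hv : v ^ 2 = u ^ 4 + a * u ^ 2 + b) (hs : s ^ 2 = a + 2 * u ^ 2 + 2 * v)
    (hP : (sw (81 * b - 27 * a ^ 2) (54 * a ^ 3 - 243 * a * b)).toAffine.Nonsingular
      (9 * u ^ 2 + 3 * a) (27 * (u * v))) :
    ∃ Q : SPt (81 * b - 27 * a ^ 2) (54 * a ^ 3 - 243 * a * b), 2 • Q = Point.some _ _ hP := by
  obtain ⟨t, ht⟩ : ∃ t, t = u ^ 2 + v + u * s := ⟨_, rfl⟩
  have hprod : t * (u ^ 2 + v - u * s) = b := by
    rw [ht]
    linear_combination (-u ^ 2) * hs + hv
  have ht0 : t ≠ 0 := by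
    intro h0
    rw [h0, zero_mul] at hprod
    exact hb hprod.symm
  have hs0 : s ≠ 0 := by
    intro h0
    rw [h0] at hs
    apply hΔ
    linear_combination -(a + 2 * u ^ 2 - 2 * v) * hs + 4 * hv
  -- the equation of `t`
  have hq : t ^ 2 + (a - s ^ 2) * t + b = 0 := by
    rw [← hprod, hs, ht]; ring
  have hQe : (27 * (s * t)) ^ 2 = (9 * t + 3 * a) ^ 3 + (81 * b - 27 * a ^ 2) * (9 * t + 3 * a) +
      (54 * a ^ 3 - 243 * a * b) := by
    linear_combination (-729 * t) * hq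
  have hQ := sw_nonsing (disc_ne hb hΔ) hQe
  refine ⟨Point.some _ _ hQ, ?_⟩
  have hyne : (27 * (s * t)) ≠ 0 := mul_ne_zero (by norm_num) (mul_ne_zero hs0 ht0)
  have hneg : (sw (81 * b - 27 * a ^ 2) (54 * a ^ 3 - 243 * a * b)).toAffine.negY (9 * t + 3 * a)
      (27 * (s * t)) = -(27 * (s * t)) := by
    simp [negY, sw]
  have hY : (27 * (s * t)) ≠ (sw (81 * b - 27 * a ^ 2) (54 * a ^ 3 - 243 * a * b)).toAffine.negY
      (9 * t + 3 * a) (27 * (s * t)) := by
    rw [hneg]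
    intro h
    apply hyne
    linarith
  have hsl : (sw (81 * b - 27 * a ^ 2) (54 * a ^ 3 - 243 * a * b)).toAffine.slope (9 * t + 3 * a)
      (9 * t + 3 * a) (27 * (s * t)) (27 * (s * t)) = 3 * (u + s) := by
    rw [slope_of_Y_ne rfl hY, hneg]
    have h0 : (27 * (s * t)) - -(27 * (s * t)) ≠ 0 := by
      have : (27 * (s * t)) - -(27 * (s * t)) = 2 * (27 * (s * t)) := by ring
      rw [this]
      exact mul_ne_zero (by norm_num) hyne
    rw [div_eq_iff h0]
    simp only [sw]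
    have e1 : t * (t + a + u ^ 2 + v) = t * (s * (u + s)) := by
      rw [ht]
      linear_combination (-(u ^ 2 + v + u * s)) * hs
    linear_combination 81 * hq + 162 * e1 + 81 * t * hs
  rw [two_nsmul, Point.add_self_of_Y_ne hY]
  refine pt_congr _ _ ?_ ?_
  · rw [hsl, addX]
    simp only [sw]
    rw [ht]
    linear_combination (9 : ℚ) * hs
  · rw [addY, negAddY, hsl, addX, negY]
    simp only [sw]
    rw [ht]
    linear_combination (-27 * (u + s)) * hs

/-- adding the point of order two -/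
theorem add_T {a b : ℚ} {x y : ℚ} (hx : x ≠ 0) (h : y ^ 2 = x * (x ^ 2 + a * x + b))
    (hP : (sw (81 * b - 27 * a ^ 2) (54 * a ^ 3 - 243 * a * b)).toAffine.Nonsingular
      (9 * x + 3 * a) (27 * y))
    (hT : (sw (81 * b - 27 * a ^ 2) (54 * a ^ 3 - 243 * a * b)).toAffine.Nonsingular (3 * a) 0) :
    ∃ (y' : ℚ) (hR : (sw (81 * b - 27 * a ^ 2) (54 * a ^ 3 - 243 * a * b)).toAffine.Nonsingular
      (9 * (b / x) + 3 * a) (27 * y')),
      (Point.some _ _ hP : SPt (81 * b - 27 * a ^ 2) (54 * a ^ 3 - 243 * a * b)) +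
        Point.some _ _ hT = Point.some _ _ hR := by
  have hX : 9 * x + 3 * a ≠ 3 * a := by
    intro h0
    apply hx
    linarith
  have hsl : (sw (81 * b - 27 * a ^ 2) (54 * a ^ 3 - 243 * a * b)).toAffine.slope (9 * x + 3 * a)
      (3 * a) (27 * y) 0 = 3 * y / x := by
    rw [slope_of_X_ne hX]
    have : 9 * x + 3 * a - 3 * a = 9 * x := by ring
    rw [this]
    field_simp
    ring
  have e1 : (sw (81 * b - 27 * a ^ 2) (54 * a ^ 3 - 243 * a * b)).toAffine.addX (9 * x + 3 * a)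
      (3 * a) ((sw (81 * b - 27 * a ^ 2) (54 * a ^ 3 - 243 * a * b)).toAffine.slope (9 * x + 3 * a)
        (3 * a) (27 * y) 0) = 9 * (b / x) + 3 * a := by
    rw [hsl, addX]
    simp only [sw]
    field_simp
    linear_combination 9 * h
  rw [Point.add_of_X_ne hX]
  generalize_proofs pf
  revert pf
  rw [e1]
  generalize (sw (81 * b - 27 * a ^ 2) (54 * a ^ 3 - 243 * a * b)).toAffine.addY (9 * x + 3 * a)
    (3 * a) (27 * y) ((sw (81 * b - 27 * a ^ 2) (54 * a ^ 3 - 243 * a * b)).toAffine.slope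
      (9 * x + 3 * a) (3 * a) (27 * y) 0) = Y3
  intro pf
  have e2 : Y3 = 27 * (Y3 / 27) := by field_simp
  refine ⟨Y3 / 27, by rw [← e2]; exact pf, ?_⟩
  exact pt_congr _ _ rfl e2

/-- finiteness from the knowledge of the classes -/
theorem finite_pt_of_class {a b : ℚ} (hb : b ≠ 0) (hΔ : a ^ 2 - 4 * b ≠ 0)
    (hx_class : ∀ {x y : ℚ}, x ≠ 0 → y ^ 2 = x * (x ^ 2 + a * x + b) →
      IsSquare x ∨ IsSquare (b * x))
    (hX_class : ∀ {u v : ℚ}, v ^ 2 = u ^ 4 + a * u ^ 2 + b →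
      IsSquare (a + 2 * u ^ 2 + 2 * v) ∨ IsSquare (a + 2 * u ^ 2 - 2 * v)) :
    Finite (SPt (81 * b - 27 * a ^ 2) (54 * a ^ 3 - 243 * a * b)) := by
  have hTe : (0 : ℚ) ^ 2 = (3 * a) ^ 3 + (81 * b - 27 * a ^ 2) * (3 * a) +
      (54 * a ^ 3 - 243 * a * b) := by ring
  have hT := sw_nonsing (disc_ne hb hΔ) hTe
  have hTT : 2 • (Point.some _ _ hT : SPt (81 * b - 27 * a ^ 2) (54 * a ^ 3 - 243 * a * b)) = 0 := by
    rw [two_nsmul]
    apply Point.add_self_of_Y_eq
    simp [negY, sw]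
  -- points whose `x` is a nonzero square
  have hsq : ∀ (u y : ℚ), u ≠ 0 →
      ∀ (hP : (sw (81 * b - 27 * a ^ 2) (54 * a ^ 3 - 243 * a * b)).toAffine.Nonsingular
      (9 * u ^ 2 + 3 * a) (27 * y)),
      ∃ Q : SPt (81 * b - 27 * a ^ 2) (54 * a ^ 3 - 243 * a * b), 2 • Q = Point.some _ _ hP := by
    intro u y hu hP
    have heq := sw_eqn.1 hP.1
    have hv : (y / u) ^ 2 = u ^ 4 + a * u ^ 2 + b := by
      field_simp
      linear_combination heq / 729
    have hy : y = u * (y / u) := by field_simp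
    generalize y / u = v at hv hy
    subst hy
    rcases hX_class hv with ⟨s, hs⟩ | ⟨s, hs⟩
    · exact halve hb hΔ hv (s := s) (by rw [hs]; ring) hP
    · have hneg : -(Point.some _ _ hP : SPt (81 * b - 27 * a ^ 2) (54 * a ^ 3 - 243 * a * b)) =
          Point.some (9 * u ^ 2 + 3 * a) (27 * (u * -v)) (by
            have h1 : (9 * u ^ 2 + 3 * a) ^ 3 + (81 * b - 27 * a ^ 2) * (9 * u ^ 2 + 3 * a) +
              (54 * a ^ 3 - 243 * a * b) = (27 * (u * -v)) ^ 2 := by rw [← heq]; ring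
            exact sw_nonsing (disc_ne hb hΔ) h1.symm) := by
        rw [Point.neg_some]
        refine pt_congr _ _ rfl ?_
        simp [negY, sw]
      obtain ⟨Q, hQ⟩ := halve hb hΔ (u := u) (v := -v) (s := s) (by rw [neg_sq]; exact hv)
        (by rw [← sq] at hs; rw [← hs]; ring) (by
            have h1 : (9 * u ^ 2 + 3 * a) ^ 3 + (81 * b - 27 * a ^ 2) * (9 * u ^ 2 + 3 * a) +
              (54 * a ^ 3 - 243 * a * b) = (27 * (u * -v)) ^ 2 := by rw [← heq]; ring
            exact sw_nonsing (disc_ne hb hΔ) h1.symm)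
      refine ⟨-Q, ?_⟩
      rw [smul_neg, hQ, ← hneg, neg_neg]
  refine finite_of_halving (sfg (disc_ne hb hΔ)) (Point.some _ _ hT) hTT ?_
  intro P
  rcases P with _ | ⟨X, Y, hP⟩
  · exact ⟨0, Or.inl (smul_zero _)⟩
  · obtain ⟨x, hx⟩ : ∃ x, x = (X - 3 * a) / 9 := ⟨_, rfl⟩
    obtain ⟨y, hy⟩ : ∃ y, y = Y / 27 := ⟨_, rfl⟩
    have hX : X = 9 * x + 3 * a := by rw [hx]; ring
    have hY : Y = 27 * y := by rw [hy]; ring
    subst hX hY
    have heq := sw_eqn.1 hP.1
    have h1 : y ^ 2 = x * (x ^ 2 + a * x + b) := by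
      linear_combination heq / 729
    by_cases hx0 : x = 0
    · subst hx0
      have hy0 : y = 0 := by
        have : y ^ 2 = 0 := by rw [h1]; ring
        exact pow_eq_zero_iff (two_ne_zero) |>.1 this
      subst hy0
      refine ⟨0, Or.inr ?_⟩
      have : (Point.some _ _ hP : SPt (81 * b - 27 * a ^ 2) (54 * a ^ 3 - 243 * a * b)) =
          Point.some _ _ hT := pt_congr _ _ (by ring) (by ring)
      rw [this, smul_zero, ← two_nsmul, hTT]
    · rcases hx_class hx0 h1 with ⟨u, hu⟩ | ⟨u, hu⟩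
      · have hu0 : u ≠ 0 := by
          rintro rfl
          apply hx0
          rw [hu]; ring
        have hu2 : x = u ^ 2 := by rw [hu]; ring
        subst hu2
        obtain ⟨Q, hQ⟩ := hsq u y hu0 hP
        exact ⟨Q, Or.inl hQ⟩
      · have hu0 : u ≠ 0 := by
          rintro rfl
          rw [mul_zero] at hu
          exact mul_ne_zero hb hx0 hu
        obtain ⟨y', hR, hadd⟩ := add_T hx0 h1 hP hT
        have e1 : b / x = (u / x) ^ 2 := by
          rw [div_pow, sq u, ← hu]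
          field_simp
        rw [e1] at hR
        have hadd' : (Point.some _ _ hP : SPt (81 * b - 27 * a ^ 2) (54 * a ^ 3 - 243 * a * b)) +
            Point.some _ _ hT = Point.some _ _ hR := by
          rw [hadd]
          exact pt_congr _ _ (by rw [e1]) rfl
        obtain ⟨Q, hQ⟩ := hsq (u / x) y' (div_ne_zero hu0 hx0) hR
        exact ⟨Q, Or.inr (hQ.trans hadd'.symm)⟩

end Pool.Agent.V8H12.GT
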