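import Mathlib
import Pool.Agent.V8H12.GT.Fin

/-!
# Rank zero from the orders of the Selmer sets
-/

set_option autoImplicit false

open WeierstrassCurve WeierstrassCurve.Affine

namespace Pool.Agent.V8H12.GT

open Pool.Agent.TH942 (sw SPt sw_eqn sw_nonsing sfg)
open Pool.Agent.Y687 (pt_congr finite_of_halving hom_space)
open Pool.Agent.V8H12.X49

theorem fin_WT {a b : ℚ} (hb : b ≠ 0) (hΔ : a ^ 2 - 4 * b ≠ 0)
    (hf : Finite (SPt (81 * b - 27 * a ^ 2) (54 * a ^ 3 - 243 * a * b))) :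
    Finite (WT a b).toAffine.Point := by
  have key : ∀ x y : ℚ, (WT a b).toAffine.Equation x y →
      (27 * y) ^ 2 = (9 * x + 3 * a) ^ 3 + (81 * b - 27 * a ^ 2) * (9 * x + 3 * a) +
        (54 * a ^ 3 - 243 * a * b) := by
    intro x y h
    rw [Affine.equation_iff] at h
    unfold WT at h
    simp only at h
    linear_combination 729 * h
  let f : (WT a b).toAffine.Point → SPt (81 * b - 27 * a ^ 2) (54 * a ^ 3 - 243 * a * b) := fun P =>
    match P with
    | .zero => .zero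
    | .some x y h => .some (9 * x + 3 * a) (27 * y) (sw_nonsing (disc_ne hb hΔ) (key x y h.1))
  refine Finite.of_injective f ?_
  rintro (_ | ⟨x, y, h⟩) (_ | ⟨x', y', h'⟩) he
  · rfl
  · exact absurd he (by simp [f])
  · exact absurd he (by simp [f])
  · simp only [f, Affine.Point.some.injEq] at he
    obtain ⟨h1, h2⟩ := he
    have hx : x = x' := by linarith
    have hy : y = y' := by linarith
    subst hx hy
    rfl

/-- the class of a rational point is in the Selmer set -/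
theorem class_mem {A B : ℤ} {X Y : ℚ} (hX : X ≠ 0) (h : Y ^ 2 = X * (X ^ 2 + A * X + B)) :
    ∃ d ∈ SelSet A B, ∃ w e : ℚ, e ≠ 0 ∧ X = d * w ^ 2 / e ^ 2 := by
  obtain ⟨d, w, e, N, h1, h2, h3, h4, h5, h6⟩ := hom_space A B hX h
  have hd0 : d ≠ 0 := h1.ne_zero
  have hdB : d ∣ B := by
    have hcop : IsCoprime d (e ^ 4) := (IsCoprime.of_mul_left_left h4).pow_right
    refine hcop.dvd_of_dvd_mul_right ⟨N ^ 2 - d * w ^ 4 - A * w ^ 2 * e ^ 2, ?_⟩
    linear_combination -h6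
  obtain ⟨B', hB'⟩ := hdB
  have h7 : N ^ 2 = d * w ^ 4 + A * w ^ 2 * e ^ 2 + B' * e ^ 4 := by
    apply mul_left_cancel₀ hd0
    rw [h6, hB']
    ring
  have hB1 : B / d = B' := by rw [hB', Int.mul_ediv_cancel_left _ hd0]
  have key : ∀ (K : Type) [Field K] [CharZero K], Sol K d A (B / d) := by
    intro K _ _
    rw [hB1]
    refine ⟨(N : K), (w : K), (e : K), Or.inr (by exact_mod_cast h2.ne'), ?_⟩
    exact_mod_cast congrArg (fun z : ℤ => (z : K)) h7
  exact ⟨d, ⟨h1, ⟨B', hB'⟩, key ℝ, fun p _ => key (Padic p)⟩, w, e, by exact_mod_cast h2.ne', h5⟩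

theorem sq_part {n : ℤ} (hn : n ≠ 0) : ∃ s k : ℤ, n = s * k ^ 2 ∧ Squarefree s ∧ k ≠ 0 := by
  obtain ⟨a, b, hab, hsf⟩ := Nat.sq_mul_squarefree n.natAbs
  have hr : n = (n.sign * a) * (b : ℤ) ^ 2 := by
    have h2 := Int.sign_mul_natAbs n
    rw [← hab] at h2
    push_cast at h2
    linear_combination -h2
  refine ⟨n.sign * a, b, hr, ?_, ?_⟩
  · rw [← Int.squarefree_natAbs, Int.natAbs_mul, Int.natAbs_sign_of_ne_zero hn, one_mul,
      Int.natAbs_natCast]
    exact hsf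
  · intro hb
    rw [hb] at hr
    apply hn
    rw [hr]; ring

theorem sq_uniq {s s' k k' : ℤ} (hs : Squarefree s) (hs' : Squarefree s') (hk : k ≠ 0)
    (h : s * k ^ 2 = s' * k' ^ 2) : s = s' := by
  have h1 : (s' * k') ^ 2 = k ^ 2 * (s * s') := by linear_combination -s' * h
  have h2 : k ∣ s' * k' := (Int.pow_dvd_pow_iff (n := 2) (by norm_num)).1 ⟨_, h1⟩
  obtain ⟨t, ht⟩ := h2
  have h3 : s * s' = t ^ 2 := by
    apply mul_left_cancel₀ (pow_ne_zero 2 hk)
    rw [← h1, ht]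
    ring
  have h4 : s ∣ t := (hs.dvd_pow_iff_dvd (by norm_num : (2 : ℕ) ≠ 0)).1 ⟨s', h3.symm⟩
  obtain ⟨m, hm⟩ := h4
  have h5 : s' = s * m ^ 2 := by
    apply mul_left_cancel₀ hs.ne_zero
    rw [h3, hm]
    ring
  have h6 : IsUnit m := hs' m ⟨s, by rw [h5]; ring⟩
  rcases Int.isUnit_iff.1 h6 with rfl | rfl
  · rw [h5]; ring
  · rw [h5]; ring

open scoped Classical in
/-- the squarefree part -/
noncomputable def sf (n : ℤ) : ℤ := if h : n ≠ 0 then (sq_part h).choose else 1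

theorem sf_spec {n : ℤ} (h : n ≠ 0) : ∃ k : ℤ, n = sf n * k ^ 2 ∧ Squarefree (sf n) ∧ k ≠ 0 := by
  unfold sf
  rw [dif_pos h]
  exact (sq_part h).choose_spec

theorem sf_eq {s k : ℤ} (hs : Squarefree s) (hk : k ≠ 0) : sf (s * k ^ 2) = s := by
  have h0 : s * k ^ 2 ≠ 0 := mul_ne_zero hs.ne_zero (pow_ne_zero 2 hk)
  obtain ⟨k', h1, h2, h3⟩ := sf_spec h0
  exact (sq_uniq hs h2 hk h1).symm

theorem Sol.inv {K : Type} [Field K] [CharZero K] {x x' A k : ℤ} (hk : k ≠ 0)
    (h : Sol K x A (x' * k ^ 2)) : Sol K x' A (x * k ^ 2) := by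
  obtain ⟨N, M, e, h1, h2⟩ := h.swap
  have hk' : (k : K) ≠ 0 := by exact_mod_cast hk
  refine ⟨N / k, M, e / k, ?_, ?_⟩
  · rcases h1 with h | h
    · exact Or.inl h
    · exact Or.inr (div_ne_zero h hk')
  · rw [div_pow, h2]
    push_cast
    field_simp

theorem inv_mem {A B x : ℤ} (hB : B ≠ 0) (hx : x ∈ SelSet A B) :
    sf (B / x) ∈ SelSet A B ∧ sf (B / sf (B / x)) = x ∧ (¬ IsSquare B → sf (B / x) ≠ x) := by
  obtain ⟨h1, ⟨y, hy⟩, h3, h4⟩ := hx
  have hx0 : x ≠ 0 := h1.ne_zero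
  have hy0 : y ≠ 0 := by
    rintro rfl
    apply hB
    rw [hy, mul_zero]
  have e1 : B / x = y := by rw [hy, Int.mul_ediv_cancel_left _ hx0]
  rw [e1] at h3 h4 ⊢
  obtain ⟨k, hk1, hk2, hk3⟩ := sf_spec hy0
  generalize sf y = x' at *
  have hx'0 : x' ≠ 0 := hk2.ne_zero
  have e2 : B = x' * (x * k ^ 2) := by rw [hy, hk1]; ring
  have e3 : B / x' = x * k ^ 2 := by rw [e2, Int.mul_ediv_cancel_left _ hx'0]
  rw [hk1] at h3 h4
  refine ⟨⟨hk2, ⟨_, e2⟩, ?_, fun p _ => ?_⟩, ?_, ?_⟩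
  · rw [e3]
    exact Sol.inv hk3 h3
  · rw [e3]
    exact Sol.inv hk3 (h4 p)
  · rw [e3]
    exact sf_eq h1 hk3
  · intro hns he
    apply hns
    rw [e2, he]
    exact ⟨x * k, by ring⟩

theorem even_ncard {A B : ℤ} (hB : B ≠ 0) (hns : ¬ IsSquare B) : Even (SelSet A B).ncard := by
  classical
  have hfin := sel_finite (a := A) hB
  rw [Set.ncard_eq_toFinset_card _ hfin]
  have h2 : (∑ x ∈ hfin.toFinset, (1 : ZMod 2)) = 0 := by
    refine Finset.sum_involution (fun x _ => sf (B / x)) (fun x _ => by decide) ?_ ?_ ?_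
    · intro x hx _
      exact (inv_mem hB (hfin.mem_toFinset.1 hx)).2.2 hns
    · intro x hx
      exact hfin.mem_toFinset.2 (inv_mem hB (hfin.mem_toFinset.1 hx)).1
    · intro x hx
      exact (inv_mem hB (hfin.mem_toFinset.1 hx)).2.1
  rw [Finset.sum_const, nsmul_eq_mul, mul_one, ZMod.natCast_eq_zero_iff] at h2
  exact even_iff_two_dvd.2 h2

/-- the two elements of the Selmer set in the minimal case -/
theorem two_elts {A B : ℤ} (hB : B ≠ 0) (hns : ¬ IsSquare B)
    (h1 : Nat.log 2 (SelSet A B).ncard ≤ 1) {d : ℤ} (hd : d ∈ SelSet A B) :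
    d = 1 ∨ IsSquare (B * d) := by
  classical
  have hfin := sel_finite (a := A) hB
  have hev := even_ncard (A := A) hB hns
  have hlt : (SelSet A B).ncard < 4 := by
    have := Nat.lt_pow_of_log_lt (b := 2) (x := 2) (y := (SelSet A B).ncard) Nat.one_lt_two (by omega)
    simpa using this
  obtain ⟨h3, -, h5⟩ := inv_mem hB (one_mem A B)
  have h6 := h5 hns
  rw [Int.ediv_one] at h3 h6
  by_contra hcon
  push Not at hcon
  have hne : d ≠ sf B := by
    intro he
    apply hcon.2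
    obtain ⟨k, hk1, -, -⟩ := sf_spec hB
    rw [he]
    exact ⟨sf B * k, by linear_combination sf B * hk1⟩
  have hsub : ({1, sf B, d} : Finset ℤ) ⊆ hfin.toFinset := by
    intro x hx
    rw [Finset.mem_insert, Finset.mem_insert, Finset.mem_singleton] at hx
    rw [hfin.mem_toFinset]
    rcases hx with rfl | rfl | rfl
    · exact one_mem A B
    · exact h3
    · exact hd
  have hcard : ({1, sf B, d} : Finset ℤ).card = 3 := Finset.card_eq_three.2
    ⟨1, sf B, d, h6.symm, Ne.symm hcon.1, hne.symm, rfl⟩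
  have h7 := Finset.card_le_card hsub
  rw [hcard, ← Set.ncard_eq_toFinset_card _ hfin] at h7
  obtain ⟨r, hr⟩ := hev
  omega

/-- **Rank zero in the minimal case** -/
theorem rank_zero {A B : ℤ} (hB : B ≠ 0) (hΔ : A ^ 2 - 4 * B ≠ 0) (hns : ¬ IsSquare B)
    (hns' : ¬ IsSquare (A ^ 2 - 4 * B)) (h1 : Nat.log 2 (SelSet A B).ncard ≤ 1)
    (h2 : Nat.log 2 (SelSet (-2 * A) (A ^ 2 - 4 * B)).ncard ≤ 1) :
    Finite (WT A B).toAffine.Point := by
  have hBq : (B : ℚ) ≠ 0 := by exact_mod_cast hB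
  have hΔq : (A : ℚ) ^ 2 - 4 * B ≠ 0 := by exact_mod_cast hΔ
  refine fin_WT hBq hΔq (finite_pt_of_class hBq hΔq ?_ ?_)
  · intro x y hx h
    obtain ⟨d, hd, w, e, he, hX⟩ := class_mem (A := A) (B := B) hx h
    rcases two_elts hB hns h1 hd with rfl | ⟨m, hm⟩
    · left
      refine ⟨w / e, ?_⟩
      rw [hX]
      push_cast
      field_simp
    · right
      have hm' : (B : ℚ) * d = m * m := by exact_mod_cast hm
      refine ⟨m * w / e, ?_⟩
      rw [hX]
      field_simp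
      linear_combination w ^ 2 * hm'
  · intro u v h
    have hprod : ((A : ℚ) + 2 * u ^ 2 + 2 * v) * (A + 2 * u ^ 2 - 2 * v) = A ^ 2 - 4 * B := by
      linear_combination (-4 : ℚ) * h
    obtain ⟨X, hX⟩ : ∃ X : ℚ, X = A + 2 * u ^ 2 + 2 * v := ⟨_, rfl⟩
    have hX0 : X ≠ 0 := by
      rintro rfl
      rw [← hX, zero_mul] at hprod
      exact hΔq hprod.symm
    obtain ⟨d, hd, w, e, he, hXe⟩ := class_mem (A := -2 * A) (B := A ^ 2 - 4 * B) (Y := 2 * u * X)
      hX0 (by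
        rw [hX]
        push_cast
        linear_combination (-4 * (A + 2 * u ^ 2 + 2 * v)) * h)
    rcases two_elts hΔ hns' h2 hd with rfl | ⟨m, hm⟩
    · left
      refine ⟨w / e, ?_⟩
      rw [← hX, hXe]
      push_cast
      field_simp
    · right
      have hm' : ((A : ℚ) ^ 2 - 4 * B) * d = m * m := by exact_mod_cast hm
      have hw : w ≠ 0 := by
        rintro rfl
        apply hX0
        rw [hXe]
        simp
      have hd0 : (d : ℚ) ≠ 0 := by exact_mod_cast hd.1.ne_zero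
      refine ⟨m * w / (e * X), ?_⟩
      have e1 : ((A : ℚ) + 2 * u ^ 2 - 2 * v) = (A ^ 2 - 4 * B) / X := by
        rw [← hX] at hprod
        rw [eq_div_iff hX0]
        linear_combination hprod
      rw [e1, div_mul_div_comm, div_eq_div_iff hX0 (mul_ne_zero (mul_ne_zero he hX0) (mul_ne_zero he hX0))]
      have e2 : X * e ^ 2 = d * w ^ 2 := by
        rw [hXe]
        field_simp
      linear_combination X * ((A : ℚ) ^ 2 - 4 * B) * e2 + X * w ^ 2 * hm'

end Pool.Agent.V8H12.GT
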