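import Mathlib
import Pool.Agent.V8H12.GT.Rk

/-!
# The class of the twists of a curve
-/

set_option autoImplicit false

namespace Pool.Agent.V8H12.GT

open Pool.Agent.V8H12.X49

/-- the odd primes dividing `b (a² - 4 b)` -/
def Bad (a b : ℤ) (p : ℕ) : Prop := p.Prime ∧ p ≠ 2 ∧ (p : ℤ) ∣ b * (a ^ 2 - 4 * b)

/-- the split primes -/
def IsSplit (a b : ℤ) (l : ℕ) : Prop :=
  l.Prime ∧ l % 8 = 1 ∧ ¬ (l : ℤ) ∣ b * (a ^ 2 - 4 * b) ∧ ∀ p : ℕ, Bad a b p → IsSquare (l : ZMod p)

/-- the inert primes -/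
def IsInert (a b : ℤ) (l : ℕ) : Prop :=
  l.Prime ∧ l ≠ 2 ∧ ¬ IsSquare (b : ZMod l) ∧ ¬ IsSquare ((a ^ 2 - 4 * b : ℤ) : ZMod l)

/-- the class -/
def Class (a b : ℤ) (D : ℕ) : Prop :=
  Squarefree D ∧ D % 8 = 1 ∧ (∀ p : ℕ, Bad a b p → IsSquare (D : ZMod p)) ∧
    ∀ l ∈ D.primeFactors, IsSplit a b l ∨ IsInert a b l

open scoped Classical in
/-- the split prime factors of `D` -/
noncomputable def splitSet (a b : ℤ) (D : ℕ) : Finset ℕ := D.primeFactors.filter (IsSplit a b)

open scoped Classical in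
/-- `1` if `y⁴ + a y² + b` has no root modulo `l`, and `0` if it has one -/
noncomputable def rootless (a b : ℤ) (l : ℕ) : ZMod 2 :=
  if ∃ y : ZMod l, y ^ 4 + a * y ^ 2 + b = 0 then 0 else 1

theorem union_eq (a b : ℤ) (D : ℕ) :
    splitSet a b D ∪ (D.primeFactors \ splitSet a b D) = D.primeFactors :=
  Finset.union_sdiff_of_subset (by classical exact Finset.filter_subset _ _)

theorem pp_eq {D : ℕ} (hD : Squarefree D) : PP D.primeFactors = D := by
  unfold PP
  have h := Nat.prod_primeFactors_of_squarefree hD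
  conv_rhs => rw [← h]
  push_cast
  rfl

theorem split_root {a b : ℤ} (hb : b ≠ 0) (hΔ : a ^ 2 - 4 * b ≠ 0) {l : ℕ} [hl : Fact l.Prime]
    (hs : IsSplit a b l) : ∃ ρ : ZMod l, ρ ^ 2 + a * ρ + b = 0 ∧ lam ρ = rootless a b l := by
  obtain ⟨-, h8, hnd, hbad⟩ := hs
  have hbne : ((b * (a ^ 2 - 4 * b) : ℤ) : ZMod l) ≠ 0 := by
    rw [ne_eq, ZMod.intCast_zmod_eq_zero_iff_dvd]
    exact hnd
  rw [Int.cast_mul] at hbne
  have hb0 := left_ne_zero_of_mul hbne
  have h2 : (2 : ZMod l) ≠ 0 := two_ne (p := l) (by omega)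
  have hbs : IsSquare (b : ZMod l) := sq_int h8 hb fun p hp hp2 hpn =>
    hbad p ⟨hp, hp2, hpn.mul_right _⟩
  obtain ⟨w, hw⟩ : IsSquare ((a ^ 2 - 4 * b : ℤ) : ZMod l) := sq_int h8 hΔ fun p hp hp2 hpn =>
    hbad p ⟨hp, hp2, hpn.mul_left _⟩
  push_cast at hw
  obtain ⟨ρ, hρ⟩ : ∃ ρ : ZMod l, ρ = (-a + w) / 2 := ⟨_, rfl⟩
  have hρ2 : 2 * ρ = -a + w := by rw [hρ]; field_simp
  have h4 : (4 : ZMod l) ≠ 0 := by
    have e : (4 : ZMod l) = 2 * 2 := by norm_num
    rw [e]
    exact mul_ne_zero h2 h2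
  have hroot : ρ ^ 2 + a * ρ + b = 0 := by
    have e : 4 * (ρ ^ 2 + a * ρ + b) = 0 := by
      linear_combination (2 * ρ + a + w) * hρ2 - hw
    exact (mul_eq_zero.1 e).resolve_left h4
  refine ⟨ρ, hroot, ?_⟩
  have key : (∃ y : ZMod l, y ^ 4 + a * y ^ 2 + b = 0) ↔ IsSquare ρ := by
    constructor
    · rintro ⟨y, hy⟩
      have h5 : (y ^ 2 - ρ) * (y ^ 2 + ρ + a) = 0 := by linear_combination hy - hroot
      rcases mul_eq_zero.1 h5 with h6 | h6
      · exact ⟨y, by linear_combination -h6⟩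
      · have h7 : ρ * y ^ 2 = b := by linear_combination ρ * h6 - hroot
        have hy0 : y ^ 2 ≠ 0 := by
          intro h0
          rw [h0, mul_zero] at h7
          exact hb0 h7.symm
        have h8 := hbs.div (⟨y, sq y⟩ : IsSquare (y ^ 2))
        rw [← h7, mul_div_cancel_right₀ _ hy0] at h8
        exact h8
    · rintro ⟨y, rfl⟩
      exact ⟨y, by linear_combination hroot⟩
  unfold rootless lam
  by_cases h : IsSquare ρ
  · rw [if_pos h, if_pos (key.2 h)]
  · rw [if_neg h, if_neg fun h' => h (key.1 h')]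

theorem Class.dat {a b : ℤ} (hb : b ≠ 0) (hΔ : a ^ 2 - 4 * b ≠ 0) {D : ℕ} (h : Class a b D) :
    Dat a b (splitSet a b D) (D.primeFactors \ splitSet a b D) (rootless a b) := by
  classical
  obtain ⟨h1, h2, h3, h4⟩ := h
  have hS : ∀ l ∈ splitSet a b D, IsSplit a b l := fun l hl => (Finset.mem_filter.1 hl).2
  have hQ : ∀ l ∈ D.primeFactors \ splitSet a b D, IsInert a b l := by
    intro l hl
    obtain ⟨h5, h6⟩ := Finset.mem_sdiff.1 hl
    exact (h4 l h5).resolve_left fun h7 => h6 (Finset.mem_filter.2 ⟨h5, h7⟩)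
  refine ⟨hb, hΔ, Finset.disjoint_sdiff, fun l hl => ⟨(hS l hl).1, (hS l hl).2.1⟩,
    fun l hl => ⟨(hQ l hl).1, (hQ l hl).2.1⟩, ?_, ?_, ?_, fun l hl => (hQ l hl).2.2, ?_, ?_⟩
  · intro l hl
    rcases Finset.mem_union.1 hl with h5 | h5
    · have h6 := hS l h5
      have : Fact l.Prime := ⟨h6.1⟩
      have h7 : ((b * (a ^ 2 - 4 * b) : ℤ) : ZMod l) ≠ 0 := by
        rw [ne_eq, ZMod.intCast_zmod_eq_zero_iff_dvd]
        exact h6.2.2.1
      rw [Int.cast_mul] at h7
      exact ⟨left_ne_zero_of_mul h7, right_ne_zero_of_mul h7⟩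
    · have h6 := hQ l h5
      refine ⟨fun h7 => h6.2.2.1 (by rw [h7]; exact ⟨0, by ring⟩), fun h7 => h6.2.2.2 (by
        rw [h7]; exact ⟨0, by ring⟩)⟩
  · intro l hl _
    exact split_root hb hΔ (hS l hl)
  · intro l hl p hp hp2 hpd
    exact (hS l hl).2.2.2 p ⟨hp, hp2, hpd⟩
  · rw [union_eq, pp_eq h1]
    omega
  · intro p hp hp2 hpd
    rw [union_eq, pp_eq h1, Int.cast_natCast]
    exact h3 p ⟨hp, hp2, hpd⟩

/-- two split primes -/
theorem pair_class {a b : ℤ} {l₀ l : ℕ} (h0 : IsSplit a b l₀) (h : IsSplit a b l)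
    (hns : ¬ IsSquare (l : ZMod l₀)) : Class a b (l₀ * l) ∧ splitSet a b (l₀ * l) = {l₀, l} ∧
      (l₀ * l).primeFactors = {l₀, l} ∧ l₀ ≠ l := by
  classical
  have hne : l₀ ≠ l := by
    rintro rfl
    exact hns ⟨0, by simp⟩
  have hpf : (l₀ * l).primeFactors = {l₀, l} := by
    rw [Nat.primeFactors_mul h0.1.ne_zero h.1.ne_zero, h0.1.primeFactors, h.1.primeFactors]
    rfl
  have hco : Nat.Coprime l₀ l := (Nat.coprime_primes h0.1 h.1).2 hne
  refine ⟨⟨?_, ?_, ?_, ?_⟩, ?_, hpf, hne⟩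
  · exact (Nat.squarefree_mul hco).2 ⟨h0.1.prime.squarefree, h.1.prime.squarefree⟩
  · rw [Nat.mul_mod, h0.2.1, h.2.1]
  · intro p hp
    rw [Nat.cast_mul]
    exact (h0.2.2.2 p hp).mul (h.2.2.2 p hp)
  · intro q hq
    rw [hpf, Finset.mem_insert, Finset.mem_singleton] at hq
    rcases hq with rfl | rfl
    · exact Or.inl h0
    · exact Or.inl h
  · unfold splitSet
    rw [hpf, Finset.filter_true_of_mem]
    intro q hq
    rw [Finset.mem_insert, Finset.mem_singleton] at hq
    rcases hq with rfl | rfl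
    · exact h0
    · exact h

theorem gcork_zero {S Q : Finset ℕ} {d : ℕ → ZMod 2} (h : ∀ T : Finset ℕ, Ker S Q d T → T = ∅) :
    gcork S Q d = 0 := by
  classical
  have h1 := KG_card S Q d
  have h2 : (KG S Q d).card ≤ 1 := by
    rw [Finset.card_le_one]
    intro T hT T' hT'
    have hT1 := Finset.mem_filter.1 hT
    have hT2 := Finset.mem_filter.1 hT'
    rw [h T ⟨Finset.mem_powerset.1 hT1.1, hT1.2⟩, h T' ⟨Finset.mem_powerset.1 hT2.1, hT2.2⟩]
  rw [h1] at h2
  by_contra h3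
  have h4 : 1 < 2 ^ gcork S Q d := Nat.one_lt_two_pow h3
  omega

theorem pair_cork {l₀ l : ℕ} (hne : l₀ ≠ l) {d : ℕ → ZMod 2} (hd : d l₀ = 1)
    (h1 : nonsq l₀ l = 1) (h2 : nonsq l l₀ = 1) : gcork {l₀, l} ∅ d = 0 := by
  classical
  refine gcork_zero fun T hT => ?_
  have hTS := hT.1
  obtain ⟨k1, k2⟩ := (ker_iff hTS).1 hT
  have h10 : (1 : ZMod 2) ≠ 0 := by decide
  have m0 : l₀ ∈ ({l₀, l} : Finset ℕ) := by simp
  have m1 : l ∈ ({l₀, l} : Finset ℕ) := by simp
  by_cases a0 : l₀ ∈ T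
  · by_cases a1 : l ∈ T
    · exfalso
      have e : ({l₀, l} : Finset ℕ) ∪ ∅ = {l₀, l} := Finset.union_empty _
      have e2 : (({l₀, l} : Finset ℕ) ∪ ∅) \ T = ∅ := by
        rw [e, Finset.sdiff_eq_empty_iff_subset]
        intro q hq
        rw [Finset.mem_insert, Finset.mem_singleton] at hq
        rcases hq with rfl | rfl
        · exact a0
        · exact a1
      have h3 := k1 l₀ a0
      rw [e2, Finset.sum_empty, add_zero, hd] at h3
      exact h10 h3
    · exfalso
      have e : T = {l₀} := by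
        ext q
        rw [Finset.mem_singleton]
        constructor
        · intro hq
          have := hTS hq
          rw [Finset.mem_insert, Finset.mem_singleton] at this
          rcases this with h | h
          · exact h
          · exact absurd (h ▸ hq) a1
        · rintro rfl
          exact a0
      have h3 := k2 l m1 a1
      rw [e, Finset.sum_singleton, h2] at h3
      exact h10 h3
  · by_cases a1 : l ∈ T
    · exfalso
      have e : T = {l} := by
        ext q
        rw [Finset.mem_singleton]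
        constructor
        · intro hq
          have := hTS hq
          rw [Finset.mem_insert, Finset.mem_singleton] at this
          rcases this with h | h
          · exact absurd (h ▸ hq) a0
          · exact h
        · rintro rfl
          exact a1
      have h3 := k2 l₀ m0 a0
      rw [e, Finset.sum_singleton, h1] at h3
      exact h10 h3
    · ext q
      constructor
      · intro hq
        exfalso
        have := hTS hq
        rw [Finset.mem_insert, Finset.mem_singleton] at this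
        rcases this with h | h
        · exact a0 (h ▸ hq)
        · exact a1 (h ▸ hq)
      · intro hq
        exact absurd hq (Finset.notMem_empty q)

end Pool.Agent.V8H12.GT
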