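import Mathlib
import Pool.Agent.V8H12.GT.Cls
import Pool.Agent.Helper919.NonRes

/-!
# Existence of inert prime numbers and of twists
-/

set_option autoImplicit false

namespace Pool.Agent.V8H12.GT

open Pool.Agent.V8H12.X49

/-- a number at which both symbols are `-1` -/
theorem exists_sym {u v : ℤ} (hu : ¬ IsSquare u) (hv : ¬ IsSquare v) :
    ∃ m : ℕ, Odd m ∧ Nat.Coprime (u * v).natAbs m ∧ jacobiSym u m = -1 ∧ jacobiSym v m = -1 := by
  have hu0 : u ≠ 0 := by rintro rfl; exact hu ⟨0, by simp⟩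
  have hv0 : v ≠ 0 := by rintro rfl; exact hv ⟨0, by simp⟩
  have key : ∀ {x y : ℤ}, ¬ IsSquare x → y ≠ 0 → ∃ m : ℕ, Odd m ∧ jacobiSym x m = -1 ∧
      (jacobiSym y m = 1 ∨ jacobiSym y m = -1) := by
    intro x y hx hy
    have h1 : ¬ IsSquare (x * y ^ 2) := by
      rintro ⟨z, hz⟩
      have h2 : y ^ 2 ∣ z ^ 2 := ⟨x, by linarith [hz]⟩
      have h3 : y ∣ z := (Int.pow_dvd_pow_iff two_ne_zero).1 h2
      obtain ⟨w, rfl⟩ := h3
      refine hx ⟨w, ?_⟩
      have h4 : y ^ 2 * (x - w * w) = 0 := by linear_combination hz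
      rcases mul_eq_zero.1 h4 with h5 | h5
      · exact absurd h5 (pow_ne_zero 2 hy)
      · linarith
    obtain ⟨m, hm, hJ⟩ := Pool.Agent.Helper919.exists_jacobi_neg_one _ h1
    rw [jacobiSym.mul_left, jacobiSym.pow_left] at hJ
    have hy' : jacobiSym y m ≠ 0 := by
      intro h0
      rw [h0] at hJ
      norm_num at hJ
    have hy2 : jacobiSym y m = 1 ∨ jacobiSym y m = -1 := by
      rcases jacobiSym.trichotomy y m with h | h | h
      · exact absurd h hy'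
      · exact Or.inl h
      · exact Or.inr h
    refine ⟨m, hm, ?_, hy2⟩
    rcases hy2 with h | h <;> rw [h] at hJ <;> simpa using hJ
  have cop : ∀ {m : ℕ}, Odd m → jacobiSym u m ≠ 0 → jacobiSym v m ≠ 0 →
      Nat.Coprime (u * v).natAbs m := by
    intro m hm h1 h2
    have : NeZero m := ⟨by rintro rfl; simp at hm⟩
    by_contra hc
    have h0 : jacobiSym (u * v) m = 0 := by
      rw [jacobiSym.eq_zero_iff_not_coprime]
      rwa [Int.gcd_eq_natAbs, Int.natAbs_natCast]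
    rw [jacobiSym.mul_left] at h0
    rcases mul_eq_zero.1 h0 with h | h
    · exact h1 h
    · exact h2 h
  obtain ⟨m₁, ho₁, hJ₁, hc₁⟩ := key hu hv0
  obtain ⟨m₂, ho₂, hJ₂, hc₂⟩ := key hv hu0
  rcases hc₁ with hc₁ | hc₁
  · rcases hc₂ with hc₂ | hc₂
    · have : NeZero m₁ := ⟨by rintro rfl; simp at ho₁⟩
      have : NeZero m₂ := ⟨by rintro rfl; simp at ho₂⟩
      have e1 : jacobiSym u (m₁ * m₂) = -1 := by
        rw [jacobiSym.mul_right, hJ₁, hc₂]; norm_num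
      have e2 : jacobiSym v (m₁ * m₂) = -1 := by
        rw [jacobiSym.mul_right, hJ₂, hc₁]; norm_num
      refine ⟨m₁ * m₂, ho₁.mul ho₂, cop (ho₁.mul ho₂) ?_ ?_, e1, e2⟩
      · rw [e1]; norm_num
      · rw [e2]; norm_num
    · refine ⟨m₂, ho₂, cop ho₂ ?_ ?_, hc₂, hJ₂⟩
      · rw [hc₂]; norm_num
      · rw [hJ₂]; norm_num
  · refine ⟨m₁, ho₁, cop ho₁ ?_ ?_, hJ₁, hc₁⟩
    · rw [hJ₁]; norm_num
    · rw [hc₁]; norm_num

/-- the modulus -/
def Mod (a b : ℤ) : ℕ := 8 * (b * (a ^ 2 - 4 * b)).natAbs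

theorem mod_pos {a b : ℤ} (hb : b ≠ 0) (hΔ : a ^ 2 - 4 * b ≠ 0) : 0 < Mod a b := by
  unfold Mod
  have := Int.natAbs_pos.2 (mul_ne_zero hb hΔ)
  omega

theorem sym_mod {u : ℤ} {M m q : ℕ} (hM : 4 * u.natAbs ∣ M) (hm : Odd m) (hJ : jacobiSym u m = -1)
    (hq : q.Prime) (hqm : q ≡ m [MOD M]) : q ≠ 2 ∧ ¬ IsSquare (u : ZMod q) := by
  have h1 : q ≡ m [MOD 4 * u.natAbs] := hqm.of_dvd hM
  have h4 : q ≡ m [MOD 4] := h1.of_mul_right _
  have h2 : q % 4 = m % 4 := h4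
  have hqo : Odd q := by
    rw [Nat.odd_iff] at hm ⊢
    omega
  refine ⟨by rintro rfl; revert hqo; decide, fun hsq => ?_⟩
  have : Fact q.Prime := ⟨hq⟩
  have e1 := jacobiSym.mod_right u hqo
  have e2 := jacobiSym.mod_right u hm
  have e3 : q % (4 * u.natAbs) = m % (4 * u.natAbs) := h1
  have e4 : jacobiSym u q = -1 := by rw [e1, e3, ← e2, hJ]
  rw [← jacobiSym.legendreSym.to_jacobiSym, legendreSym.eq_neg_one_iff] at e4
  exact e4 hsq

/-- the residue class of inert primes -/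
theorem inert_class {a b : ℤ} (hb : ¬ IsSquare b) (hΔ : ¬ IsSquare (a ^ 2 - 4 * b)) :
    ∃ m : ℕ, Nat.Coprime m (Mod a b) ∧ ∀ q : ℕ, q.Prime → q ≡ m [MOD Mod a b] → IsInert a b q := by
  obtain ⟨m, ho, hc, h1, h2⟩ := exists_sym hb hΔ
  refine ⟨m, ?_, fun q hq hqm => ?_⟩
  · unfold Mod
    refine Nat.Coprime.mul_right ?_ hc.symm
    have : Nat.Coprime m (2 ^ 3) := Nat.Coprime.pow_right 3 (Nat.coprime_two_right.2 ho)
    simpa using this
  · have k1 := sym_mod (u := b) (M := Mod a b) (by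
      unfold Mod
      rw [Int.natAbs_mul]
      exact ⟨2 * (a ^ 2 - 4 * b).natAbs, by ring⟩) ho h1 hq hqm
    have k2 := sym_mod (u := a ^ 2 - 4 * b) (M := Mod a b) (by
      unfold Mod
      rw [Int.natAbs_mul]
      exact ⟨2 * b.natAbs, by ring⟩) ho h2 hq hqm
    exact ⟨hq, k1.1, k1.2, k2.2⟩

/-- a prime is not both -/
theorem not_split_of_inert {a b : ℤ} (hb : b ≠ 0) {l : ℕ} (h : IsInert a b l) : ¬ IsSplit a b l := by
  intro hs
  have : Fact l.Prime := ⟨h.1⟩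
  exact h.2.2.1 (sq_int hs.2.1 hb fun p hp hp2 hpn => hs.2.2.2 p ⟨hp, hp2, hpn.mul_right _⟩)

theorem bad_mod {a b : ℤ} {p : ℕ} (h : Bad a b p) : p ∣ Mod a b := by
  unfold Mod
  exact (Int.natCast_dvd.1 h.2.2).mul_left 8

theorem prod_mod {M m : ℕ} (s : Finset ℕ) (h : ∀ q ∈ s, q ≡ m [MOD M]) :
    ∏ q ∈ s, q ≡ m ^ s.card [MOD M] := by
  classical
  induction s using Finset.induction_on with
  | empty => simp [Nat.ModEq]
  | insert q t hq ih =>
    rw [Finset.prod_insert hq, Finset.card_insert_of_notMem hq, pow_succ, mul_comm]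
    exact (ih fun r hr => h r (Finset.mem_insert_of_mem hr)).mul (h q (Finset.mem_insert_self q t))

/-- products of an even number of primes of the residue class -/
theorem inert_prod {a b : ℤ} (hb : b ≠ 0) {m : ℕ} (hm : Nat.Coprime m (Mod a b))
    (hc : ∀ q : ℕ, q.Prime → q ≡ m [MOD Mod a b] → IsInert a b q) {D : ℕ} (hD : Squarefree D)
    (he : Even D.primeFactors.card) (h : ∀ q ∈ D.primeFactors, q ≡ m [MOD Mod a b]) :
    Class a b D ∧ splitSet a b D = ∅ := by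
  classical
  have hin : ∀ q ∈ D.primeFactors, IsInert a b q := fun q hq =>
    hc q (Nat.prime_of_mem_primeFactors hq) (h q hq)
  obtain ⟨k, hk⟩ := he
  have hD2 : D ≡ (m ^ k) ^ 2 [MOD Mod a b] := by
    have h1 := prod_mod D.primeFactors h
    rw [Nat.prod_primeFactors_of_squarefree hD, hk, ← two_mul, mul_comm, pow_mul] at h1
    exact h1
  refine ⟨⟨hD, ?_, fun p hp => ?_, fun l hl => Or.inr (hin l hl)⟩, ?_⟩
  · have h8 : D ≡ (m ^ k) ^ 2 [MOD 8] := hD2.of_mul_right _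
    have hmo : Odd m := by
      have : Nat.Coprime m 8 := hm.coprime_dvd_right ⟨_, rfl⟩
      rw [← Nat.coprime_two_right]
      exact this.coprime_dvd_right ⟨4, rfl⟩
    have hko : Odd (m ^ k) := hmo.pow
    have h3 : (m ^ k) ^ 2 % 8 = 1 := by
      rw [Nat.pow_mod]
      have h4 : (m ^ k) % 8 = 1 ∨ (m ^ k) % 8 = 3 ∨ (m ^ k) % 8 = 5 ∨ (m ^ k) % 8 = 7 := by
        rw [Nat.odd_iff] at hko
        omega
      rcases h4 with h4 | h4 | h4 | h4 <;> rw [h4]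
    exact Nat.ModEq.trans h8 (show (m ^ k) ^ 2 ≡ 1 [MOD 8] from h3)
  · have h1 : D ≡ (m ^ k) ^ 2 [MOD p] := hD2.of_dvd (bad_mod hp)
    rw [(ZMod.natCast_eq_natCast_iff _ _ _).2 h1]
    exact ⟨((m ^ k : ℕ) : ZMod p), by push_cast; ring⟩
  · unfold splitSet
    rw [Finset.filter_eq_empty_iff]
    exact fun {l} hl => not_split_of_inert hb (hin l hl)

theorem gcork_empty (Q : Finset ℕ) (d : ℕ → ZMod 2) : gcork ∅ Q d = 0 := by
  unfold gcork
  simp

/-- the residue classes of split primes -/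
theorem split_class {a b : ℤ} {l : ℕ} (hl : l.Prime) (h : l ≡ 1 [MOD Mod a b])
    (hn : ¬ (l : ℤ) ∣ b * (a ^ 2 - 4 * b)) : IsSplit a b l := by
  refine ⟨hl, ?_, hn, fun p hp => ?_⟩
  · have h8 : l ≡ 1 [MOD 8] := h.of_mul_right _
    exact h8
  · have h1 : l ≡ 1 [MOD p] := h.of_dvd (bad_mod hp)
    rw [(ZMod.natCast_eq_natCast_iff _ _ _).2 h1]
    exact ⟨1, by simp⟩

/-- infinitely many split primes which are not squares modulo a given prime -/
theorem exists_partner {a b : ℤ} (hb : b ≠ 0) (hΔ : a ^ 2 - 4 * b ≠ 0) {l₀ : ℕ} (h0 : IsSplit a b l₀)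
    (N : ℕ) : ∃ l : ℕ, N < l ∧ IsSplit a b l ∧ ¬ IsSquare (l : ZMod l₀) := by
  have hl0 : Fact l₀.Prime := ⟨h0.1⟩
  have hM := mod_pos hb hΔ
  have hco : Nat.Coprime (Mod a b) l₀ := by
    rw [Nat.coprime_comm, h0.1.coprime_iff_not_dvd]
    intro hd
    unfold Mod at hd
    rcases (Nat.Prime.dvd_mul h0.1).1 hd with h1 | h1
    · have h2 : l₀ ∣ 2 ^ 3 := by norm_num; exact h1
      have h3 := (Nat.prime_dvd_prime_iff_eq h0.1 Nat.prime_two).1 (h0.1.dvd_of_dvd_pow h2)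
      have := h0.2.1
      omega
    · exact h0.2.2.1 (Int.natCast_dvd.2 h1)
  obtain ⟨g, hg⟩ := FiniteField.exists_nonsquare (F := ZMod l₀) (by
    rw [ZMod.ringChar_zmod_n]
    have := h0.2.1
    omega)
  obtain ⟨r, hr1, hr2⟩ := Nat.chineseRemainder hco 1 g.val
  have hg0 : g ≠ 0 := by rintro rfl; exact hg ⟨0, by simp⟩
  have hrg : (r : ZMod l₀) = g := by
    rw [(ZMod.natCast_eq_natCast_iff _ _ _).2 hr2, ZMod.natCast_zmod_val]
  have hrM : (r : ZMod (Mod a b)) = 1 := by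
    rw [(ZMod.natCast_eq_natCast_iff _ _ _).2 hr1]
    simp
  have : NeZero (Mod a b * l₀) := ⟨Nat.mul_ne_zero hM.ne' h0.1.ne_zero⟩
  have hru : IsUnit (r : ZMod (Mod a b * l₀)) := by
    rw [ZMod.isUnit_iff_coprime]
    refine Nat.Coprime.mul_right ?_ ?_
    · rw [← ZMod.isUnit_iff_coprime, hrM]
      exact isUnit_one
    · rw [← ZMod.isUnit_iff_coprime, hrg]
      exact isUnit_iff_ne_zero.2 hg0
  obtain ⟨l, hlN, hl, hlr⟩ := Nat.forall_exists_prime_gt_and_eq_mod hru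
    (max N (b * (a ^ 2 - 4 * b)).natAbs)
  have h1 : l ≡ r [MOD Mod a b * l₀] := (ZMod.natCast_eq_natCast_iff _ _ _).1 hlr
  have h2 : l ≡ 1 [MOD Mod a b] := (h1.of_mul_right _).trans hr1
  have h3 : (l : ZMod l₀) = g := by
    rw [(ZMod.natCast_eq_natCast_iff _ _ _).2 (h1.of_mul_left _), hrg]
  refine ⟨l, lt_of_le_of_lt (le_max_left _ _) hlN, split_class hl h2 ?_, by rw [h3]; exact hg⟩
  intro hd
  have h4 := Nat.le_of_dvd (Int.natAbs_pos.2 (mul_ne_zero hb hΔ)) (Int.natCast_dvd.1 hd)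
  have h5 := le_max_right N (b * (a ^ 2 - 4 * b)).natAbs
  omega

end Pool.Agent.V8H12.GT
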