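import Mathlib
import Pool.Agent.V8H12.GT.Ex

/-!
# Changing the diagonal of the matrix by two inert primes
-/

set_option autoImplicit false

namespace Pool.Agent.V8H12.GT

open Pool.Agent.V8H12.X49

/-- a diagonal which makes the matrix invertible -/
theorem choose_diag (S : Finset ℕ) (A : ℕ → ℕ → ZMod 2) : ∃ c : ℕ → ZMod 2, ∀ v : ℕ → ZMod 2,
    (∀ i ∈ S, c i * v i + ∑ j ∈ S, A i j * v j = 0) → ∀ i ∈ S, v i = 0 := by
  classical
  have z0 : ∀ x y z : ZMod 2, x + (y * 1 + z) = 0 → x + z = y := by decide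
  have z1 : ∀ x : ZMod 2, x = 0 ∨ x = 1 := by decide
  have z2 : ∀ x y : ZMod 2, (1 + x + y) * 1 + (x * 1 + y) = 0 → False := by decide
  have z3 : ∀ x y : ZMod 2, x - y = 0 → x = y := by decide
  induction S using Finset.induction_on with
  | empty => exact ⟨0, fun v _ i hi => absurd hi (Finset.notMem_empty i)⟩
  | insert s S hs ih =>
    obtain ⟨c, hc⟩ := ih
    obtain ⟨t, ht⟩ : ∃ t : ZMod 2, ∀ w : ℕ → ZMod 2,
        (∀ i ∈ S, c i * w i + ∑ j ∈ S, A i j * w j = A i s) →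
          t = 1 + A s s + ∑ j ∈ S, A s j * w j := by
      by_cases hw : ∃ w : ℕ → ZMod 2, ∀ i ∈ S, c i * w i + ∑ j ∈ S, A i j * w j = A i s
      · obtain ⟨w, hw⟩ := hw
        refine ⟨1 + A s s + ∑ j ∈ S, A s j * w j, fun v hv => ?_⟩
        congr 1
        refine Finset.sum_congr rfl fun j hj => ?_
        have h1 := hc (fun i => w i - v i) (fun i hi => by
          have e : c i * (w i - v i) + ∑ j ∈ S, A i j * (w j - v j) =
              (c i * w i + ∑ j ∈ S, A i j * w j) - (c i * v i + ∑ j ∈ S, A i j * v j) := by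
            have e2 : ∑ j ∈ S, A i j * (w j - v j) = ∑ j ∈ S, A i j * w j - ∑ j ∈ S, A i j * v j := by
              rw [← Finset.sum_sub_distrib]
              exact Finset.sum_congr rfl fun j _ => by ring
            rw [e2]
            ring
          rw [e, hw i hi, hv i hi, sub_self]) j hj
        rw [z3 _ _ h1]
      · exact ⟨0, fun w h => absurd ⟨w, h⟩ hw⟩
    refine ⟨Function.update c s t, fun v hv => ?_⟩
    have hrow : ∀ i ∈ S, c i * v i + (A i s * v s + ∑ j ∈ S, A i j * v j) = 0 := by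
      intro i hi
      have h1 := hv i (Finset.mem_insert_of_mem hi)
      rw [Finset.sum_insert hs, Function.update_of_ne (by rintro rfl; exact hs hi)] at h1
      exact h1
    have hrs := hv s (Finset.mem_insert_self s S)
    rw [Finset.sum_insert hs, Function.update_self] at hrs
    rcases z1 (v s) with h0 | h1
    · intro i hi
      rcases Finset.mem_insert.1 hi with rfl | hi
      · exact h0
      · refine hc v (fun i hi => ?_) i hi
        have h2 := hrow i hi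
        rwa [h0, mul_zero, zero_add] at h2
    · exfalso
      have h2 := ht v fun i hi => by
        have h3 := hrow i hi
        rw [h1] at h3
        exact z0 _ _ _ h3
      rw [h2, h1] at hrs
      exact z2 _ _ hrs

/-- the entry of the matrix -/
noncomputable def ent (R : Finset ℕ) (d : ℕ → ZMod 2) (i j : ℕ) : ZMod 2 :=
  if i = j then d i + ∑ l ∈ R.erase i, nonsq i l else nonsq i j

theorem mulVec_tog {S R T : Finset ℕ} {d c : ℕ → ZMod 2} (hT : T ⊆ S) (hSR : S ⊆ R) {q₁ q₂ : ℕ}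
    (hne : q₁ ≠ q₂) (h1 : q₁ ∉ R) (h2 : q₂ ∉ R) (hc : ∀ i ∈ S, nonsq i q₁ + nonsq i q₂ = c i) (i : S) :
    (gmat S (insert q₁ (insert q₂ R)) d).mulVec (gind S T) i =
      c i * (if (i : ℕ) ∈ T then 1 else 0) + ∑ j ∈ S, ent R d i j * (if j ∈ T then 1 else 0) := by
  classical
  rw [mulVec_gind hT, ← Finset.add_sum_erase S _ i.2]
  have hiR : (i : ℕ) ∈ R := hSR i.2
  have hi1 : (i : ℕ) ≠ q₁ := by rintro h; exact h1 (h ▸ hiR)
  have hi2 : (i : ℕ) ≠ q₂ := by rintro h; exact h2 (h ▸ hiR)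
  have e1 : (insert q₁ (insert q₂ R)).erase (i : ℕ) = insert q₁ (insert q₂ (R.erase i)) := by
    rw [Finset.erase_insert_of_ne hi1.symm, Finset.erase_insert_of_ne hi2.symm]
  have e2 : ∑ l ∈ (insert q₁ (insert q₂ R)).erase (i : ℕ), nonsq i l =
      nonsq i q₁ + (nonsq i q₂ + ∑ l ∈ R.erase i, nonsq i l) := by
    rw [e1, Finset.sum_insert, Finset.sum_insert]
    · exact fun h => h2 (Finset.mem_of_mem_erase h)
    · rw [Finset.mem_insert]
      rintro (h | h)
      · exact hne h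
      · exact h1 (Finset.mem_of_mem_erase h)
  have e3 : ∑ j ∈ S.erase (i : ℕ), ent R d i j * (if j ∈ T then 1 else 0) =
      ∑ j ∈ T.erase (i : ℕ), nonsq i j := by
    have e4 : ∀ j ∈ S.erase (i : ℕ), ent R d i j * (if j ∈ T then (1 : ZMod 2) else 0) =
        if j ∈ T then nonsq i j else 0 := by
      intro j hj
      have hij : (i : ℕ) ≠ j := fun h => (Finset.ne_of_mem_erase hj) h.symm
      unfold ent
      rw [if_neg hij]
      split_ifs
      · rw [mul_one]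
      · rw [mul_zero]
    rw [Finset.sum_congr rfl e4, ← Finset.sum_filter]
    refine Finset.sum_congr ?_ fun _ _ => rfl
    ext j
    rw [Finset.mem_filter, Finset.mem_erase, Finset.mem_erase]
    constructor
    · rintro ⟨⟨h3, -⟩, h4⟩
      exact ⟨h3, h4⟩
    · rintro ⟨h3, h4⟩
      exact ⟨⟨h3, hT h4⟩, h4⟩
  rw [e2, e3]
  unfold ent
  rw [if_pos rfl, ← hc i i.2]
  split_ifs
  · ring
  · ring

/-- all residues can be prescribed -/
theorem crt {M m : ℕ} (hm : Nat.Coprime m M) (S : Finset ℕ) (hS : ∀ i ∈ S, i.Prime ∧ ¬ i ∣ M)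
    (g : ℕ → ℕ) (hg : ∀ i ∈ S, Nat.Coprime (g i) i) : ∃ r : ℕ, Nat.Coprime r (M * ∏ i ∈ S, i) ∧
      r ≡ m [MOD M] ∧ ∀ i ∈ S, r ≡ g i [MOD i] := by
  classical
  induction S using Finset.induction_on with
  | empty => exact ⟨m, by simpa using hm, Nat.ModEq.refl m, fun i hi => absurd hi (Finset.notMem_empty i)⟩
  | insert s S hs ih =>
    obtain ⟨r, h1, h2, h3⟩ := ih (fun i hi => hS i (Finset.mem_insert_of_mem hi))
      fun i hi => hg i (Finset.mem_insert_of_mem hi)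
    have hsp := hS s (Finset.mem_insert_self s S)
    have hco : Nat.Coprime (M * ∏ i ∈ S, i) s := by
      rw [Nat.coprime_comm, hsp.1.coprime_iff_not_dvd]
      intro hd
      rcases (Nat.Prime.dvd_mul hsp.1).1 hd with h | h
      · exact hsp.2 h
      · obtain ⟨i, hi, h4⟩ := (hsp.1.prime.dvd_finsetProd_iff _).1 h
        have h5 := (Nat.prime_dvd_prime_iff_eq hsp.1 (hS i (Finset.mem_insert_of_mem hi)).1).1 h4
        exact hs (h5 ▸ hi)
    obtain ⟨r', hr1, hr2⟩ := Nat.chineseRemainder hco r (g s)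
    refine ⟨r', ?_, (hr1.of_mul_right _).trans h2, fun i hi => ?_⟩
    · rw [Finset.prod_insert hs]
      have e : M * (s * ∏ i ∈ S, i) = (M * ∏ i ∈ S, i) * s := by ring
      rw [e]
      refine Nat.Coprime.mul_right ?_ ?_
      · exact (Nat.ModEq.gcd_eq hr1).trans h1
      · exact (Nat.ModEq.gcd_eq hr2).trans (hg s (Finset.mem_insert_self s S))
    · rcases Finset.mem_insert.1 hi with rfl | hi
      · exact hr2
      · have hd : i ∣ M * ∏ i ∈ S, i := (Finset.dvd_prod_of_mem _ hi).mul_left M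
        exact (hr1.of_dvd hd).trans (h3 i hi)

theorem nonsq_congr {i q r : ℕ} (h : q ≡ r [MOD i]) : nonsq i q = nonsq i r := by
  unfold nonsq
  rw [(ZMod.natCast_eq_natCast_iff _ _ _).2 h]

/-- prime numbers with prescribed symbols -/
theorem prime_sym {M m : ℕ} (hM : 0 < M) (hm : Nat.Coprime m M) (S : Finset ℕ)
    (hS : ∀ i ∈ S, i.Prime ∧ i ≠ 2 ∧ ¬ i ∣ M) (c : ℕ → ZMod 2) (N : ℕ) :
    ∃ q : ℕ, N < q ∧ q.Prime ∧ q ≡ m [MOD M] ∧ ∀ i ∈ S, nonsq i q = c i := by
  classical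
  have hg : ∀ i : ℕ, ∃ g : ℕ, i ∈ S → Nat.Coprime g i ∧ nonsq i g = c i := by
    intro i
    by_cases hi : i ∈ S
    · have hip : Fact i.Prime := ⟨(hS i hi).1⟩
      have z1 : ∀ x : ZMod 2, x = 0 ∨ x = 1 := by decide
      rcases z1 (c i) with h | h
      · refine ⟨1, fun _ => ⟨Nat.coprime_one_left i, ?_⟩⟩
        unfold nonsq
        rw [if_pos ⟨1, by simp⟩, h]
      · obtain ⟨g, hg⟩ := FiniteField.exists_nonsquare (F := ZMod i) (by
          rw [ZMod.ringChar_zmod_n]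
          exact (hS i hi).2.1)
        have hg0 : g ≠ 0 := by rintro rfl; exact hg ⟨0, by simp⟩
        refine ⟨g.val, fun _ => ⟨?_, ?_⟩⟩
        · rw [← ZMod.isUnit_iff_coprime, ZMod.natCast_zmod_val]
          exact isUnit_iff_ne_zero.2 hg0
        · unfold nonsq
          rw [ZMod.natCast_zmod_val, if_neg hg, h]
    · exact ⟨0, fun h => absurd h hi⟩
  choose g hg using hg
  obtain ⟨r, h1, h2, h3⟩ := crt hm S (fun i hi => ⟨(hS i hi).1, (hS i hi).2.2⟩) g
    fun i hi => (hg i hi).1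
  have hpos : 0 < M * ∏ i ∈ S, i := Nat.mul_pos hM (Finset.prod_pos fun i hi => (hS i hi).1.pos)
  have : NeZero (M * ∏ i ∈ S, i) := ⟨hpos.ne'⟩
  obtain ⟨q, hqN, hq, hqr⟩ := Nat.forall_exists_prime_gt_and_eq_mod
    ((ZMod.isUnit_iff_coprime _ _).2 h1) N
  have h4 : q ≡ r [MOD M * ∏ i ∈ S, i] := (ZMod.natCast_eq_natCast_iff _ _ _).1 hqr
  refine ⟨q, hqN, hq, (h4.of_mul_right _).trans h2, fun i hi => ?_⟩
  have hd : i ∣ M * ∏ i ∈ S, i := (Finset.dvd_prod_of_mem _ hi).mul_left M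
  rw [nonsq_congr ((h4.of_dvd hd).trans (h3 i hi))]
  exact (hg i hi).2

theorem split_not_dvd {a b : ℤ} {l : ℕ} (h : IsSplit a b l) : l.Prime ∧ l ≠ 2 ∧ ¬ l ∣ Mod a b := by
  have h8 := h.2.1
  refine ⟨h.1, by omega, fun hd => ?_⟩
  unfold Mod at hd
  rcases (Nat.Prime.dvd_mul h.1).1 hd with h1 | h1
  · have h2 : l ∣ 2 ^ 3 := by norm_num; exact h1
    have h3 := (Nat.prime_dvd_prime_iff_eq h.1 Nat.prime_two).1 (h.1.dvd_of_dvd_pow h2)
    omega
  · exact h.2.2.1 (Int.natCast_dvd.2 h1)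

/-- two more inert primes -/
theorem add_pair {a b : ℤ} (hb : b ≠ 0) {m : ℕ} (hm : Nat.Coprime m (Mod a b))
    (hc : ∀ q : ℕ, q.Prime → q ≡ m [MOD Mod a b] → IsInert a b q) {D q₁ q₂ : ℕ} (hD : Class a b D)
    (h1 : q₁.Prime) (h2 : q₂.Prime) (hm1 : q₁ ≡ m [MOD Mod a b]) (hm2 : q₂ ≡ m [MOD Mod a b])
    (hlt : q₁ < q₂) (hD1 : D < q₁) : Class a b (D * q₁ * q₂) ∧
      (D * q₁ * q₂).primeFactors = insert q₁ (insert q₂ D.primeFactors) ∧
      splitSet a b (D * q₁ * q₂) = splitSet a b D ∧ q₁ ∉ D.primeFactors ∧ q₂ ∉ D.primeFactors := by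
  classical
  have hD0 : D ≠ 0 := hD.1.ne_zero
  have hDp : 0 < D := Nat.pos_of_ne_zero hD0
  have n1 : ¬ q₁ ∣ D := fun h => by have := Nat.le_of_dvd hDp h; omega
  have n2 : ¬ q₂ ∣ D := fun h => by have := Nat.le_of_dvd hDp h; omega
  have m1 : q₁ ∉ D.primeFactors := fun h => n1 (Nat.dvd_of_mem_primeFactors h)
  have m2 : q₂ ∉ D.primeFactors := fun h => n2 (Nat.dvd_of_mem_primeFactors h)
  have hpf : (D * q₁ * q₂).primeFactors = insert q₁ (insert q₂ D.primeFactors) := by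
    rw [Nat.primeFactors_mul (Nat.mul_ne_zero hD0 h1.ne_zero) h2.ne_zero,
      Nat.primeFactors_mul hD0 h1.ne_zero, h1.primeFactors, h2.primeFactors]
    ext l
    simp only [Finset.mem_union, Finset.mem_singleton, Finset.mem_insert]
    tauto
  have hi1 := hc q₁ h1 hm1
  have hi2 := hc q₂ h2 hm2
  have c1 : Nat.Coprime D q₁ := ((Nat.Prime.coprime_iff_not_dvd h1).2 n1).symm
  have c2 : Nat.Coprime (D * q₁) q₂ := by
    refine Nat.Coprime.symm ((Nat.Prime.coprime_iff_not_dvd h2).2 fun h => ?_)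
    rcases (Nat.Prime.dvd_mul h2).1 h with h3 | h3
    · exact n2 h3
    · have := (Nat.prime_dvd_prime_iff_eq h2 h1).1 h3
      omega
  refine ⟨⟨?_, ?_, fun p hp => ?_, fun l hl => ?_⟩, hpf, ?_, m1, m2⟩
  · exact (Nat.squarefree_mul c2).2 ⟨(Nat.squarefree_mul c1).2 ⟨hD.1, h1.prime.squarefree⟩,
      h2.prime.squarefree⟩
  · have e1 : q₁ % 8 = m % 8 := (hm1.of_mul_right _ : q₁ ≡ m [MOD 8])
    have e2 : q₂ % 8 = m % 8 := (hm2.of_mul_right _ : q₂ ≡ m [MOD 8])
    have hmo : m % 2 = 1 := by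
      have h8 : Nat.Coprime m 8 := hm.coprime_dvd_right ⟨_, rfl⟩
      rw [← Nat.odd_iff, ← Nat.coprime_two_right]
      exact h8.coprime_dvd_right ⟨4, rfl⟩
    have h3 : D % 8 = 1 := hD.2.1
    rw [Nat.mul_mod, Nat.mul_mod D q₁, h3, e1, e2]
    have h4 : m % 8 = 1 ∨ m % 8 = 3 ∨ m % 8 = 5 ∨ m % 8 = 7 := by omega
    rcases h4 with h4 | h4 | h4 | h4 <;> rw [h4]
  · have e1 : (q₁ : ZMod p) = m := (ZMod.natCast_eq_natCast_iff _ _ _).2 (hm1.of_dvd (bad_mod hp))
    have e2 : (q₂ : ZMod p) = m := (ZMod.natCast_eq_natCast_iff _ _ _).2 (hm2.of_dvd (bad_mod hp))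
    obtain ⟨z, hz⟩ := hD.2.2.1 p hp
    exact ⟨z * m, by push_cast; rw [e1, e2, hz]; ring⟩
  · rw [hpf, Finset.mem_insert, Finset.mem_insert] at hl
    rcases hl with rfl | rfl | hl
    · exact Or.inr hi1
    · exact Or.inr hi2
    · exact hD.2.2.2 l hl
  · unfold splitSet
    rw [hpf, Finset.filter_insert, Finset.filter_insert, if_neg (not_split_of_inert hb hi1),
      if_neg (not_split_of_inert hb hi2)]

end Pool.Agent.V8H12.GT
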