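import Mathlib
import Pool.Agent.V8H12.GT.Tog

/-!
# Twists with corank zero and twists with a given corank
-/

set_option autoImplicit false

namespace Pool.Agent.V8H12.GT

open Pool.Agent.V8H12.X49

/-- the corank of the matrix of `D` -/
noncomputable def cork (a b : ℤ) (D : ℕ) : ℕ :=
  (splitSet a b D).card - (gmat (splitSet a b D) D.primeFactors (rootless a b)).rank

theorem cork_eq (a b : ℤ) (D : ℕ) :
    cork a b D = gcork (splitSet a b D) (D.primeFactors \ splitSet a b D) (rootless a b) := by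
  unfold cork gcork
  rw [union_eq]

theorem splitSet_sub (a b : ℤ) (D : ℕ) : splitSet a b D ⊆ D.primeFactors := by
  classical
  exact Finset.filter_subset _ _

theorem mem_splitSet {a b : ℤ} {D l : ℕ} (h : l ∈ splitSet a b D) : IsSplit a b l := by
  classical
  exact (Finset.mem_filter.1 h).2

/-- two inert primes that produce a given change of the diagonal -/
theorem pair_tog {a b : ℤ} (hb : b ≠ 0) (hΔ : a ^ 2 - 4 * b ≠ 0) {m : ℕ}
    (hm : Nat.Coprime m (Mod a b)) {D : ℕ} (c : ℕ → ZMod 2) (N : ℕ) :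
    ∃ q₁ q₂ : ℕ, N < q₁ ∧ q₁ < q₂ ∧ q₁.Prime ∧ q₂.Prime ∧ q₁ ≡ m [MOD Mod a b] ∧
      q₂ ≡ m [MOD Mod a b] ∧ ∀ i ∈ splitSet a b D, nonsq i q₁ + nonsq i q₂ = c i := by
  have hM := mod_pos hb hΔ
  have hS : ∀ i ∈ splitSet a b D, i.Prime ∧ i ≠ 2 ∧ ¬ i ∣ Mod a b := fun i hi =>
    split_not_dvd (mem_splitSet hi)
  obtain ⟨q₁, h1, h2, h3, h4⟩ := prime_sym hM hm (splitSet a b D) hS 0 N
  obtain ⟨q₂, k1, k2, k3, k4⟩ := prime_sym hM hm (splitSet a b D) hS c q₁
  refine ⟨q₁, q₂, h1, k1, h2, k2, h3, k3, fun i hi => ?_⟩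
  rw [h4 i hi, k4 i hi, Pi.zero_apply, zero_add]

theorem exists_zero {a b : ℤ} (hb : b ≠ 0) (hΔ : a ^ 2 - 4 * b ≠ 0) {m : ℕ}
    (hm : Nat.Coprime m (Mod a b))
    (hc : ∀ q : ℕ, q.Prime → q ≡ m [MOD Mod a b] → IsInert a b q) {D : ℕ} (hD : Class a b D) (N : ℕ) :
    ∃ q₁ q₂ : ℕ, N < q₁ ∧ q₁ < q₂ ∧ IsInert a b q₁ ∧ IsInert a b q₂ ∧ Class a b (D * q₁ * q₂) ∧
      cork a b (D * q₁ * q₂) = 0 := by
  classical
  obtain ⟨c, hch⟩ := choose_diag (splitSet a b D) (ent D.primeFactors (rootless a b))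
  obtain ⟨q₁, q₂, h1, h2, h3, h4, h5, h6, h7⟩ := pair_tog hb hΔ hm (D := D) c (max N D)
  have hN : N < q₁ := lt_of_le_of_lt (le_max_left _ _) h1
  obtain ⟨k1, k2, k3, k4, k5⟩ := add_pair hb hm hc hD h3 h4 h5 h6 h2
    (lt_of_le_of_lt (le_max_right _ _) h1)
  refine ⟨q₁, q₂, hN, h2, hc q₁ h3 h5, hc q₂ h4 h6, k1, ?_⟩
  rw [cork_eq]
  refine gcork_zero fun T hT => ?_
  obtain ⟨t1, t2⟩ := hT
  rw [union_eq, k2, k3] at t2
  rw [k3] at t1
  have t3 : ∀ i ∈ splitSet a b D, c i * (if i ∈ T then 1 else 0) + ∑ j ∈ splitSet a b D,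
      ent D.primeFactors (rootless a b) i j * (if j ∈ T then 1 else 0) = 0 := by
    intro i hi
    have h8 := congrFun t2 ⟨i, hi⟩
    rw [mulVec_tog t1 (splitSet_sub a b D) h2.ne k4 k5 h7] at h8
    exact h8
  have t4 := hch (fun j => if j ∈ T then 1 else 0) t3
  refine Finset.eq_empty_of_forall_notMem fun i hi => ?_
  have h9 : (if i ∈ T then (1 : ZMod 2) else 0) = 0 := t4 i (t1 hi)
  rw [if_pos hi] at h9
  exact absurd h9 (by decide)

theorem one_class (a b : ℤ) : Class a b 1 := by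
  refine ⟨squarefree_one, by norm_num, fun p _ => ⟨1, by simp⟩, fun l hl => ?_⟩
  simp at hl

/-- split primes with trivial symbols -/
theorem exists_clique {a b : ℤ} (hb : b ≠ 0) (hΔ : a ^ 2 - 4 * b ≠ 0) (n : ℕ) :
    ∃ D : ℕ, Class a b D ∧ (∀ l ∈ D.primeFactors, IsSplit a b l) ∧ D.primeFactors.card = n ∧
      ∀ i ∈ D.primeFactors, ∀ j ∈ D.primeFactors, i ≠ j → nonsq i j = 0 := by
  classical
  induction n with
  | zero => exact ⟨1, one_class a b, by simp, by simp, by simp⟩
  | succ n ih =>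
    obtain ⟨D, hD, h1, h2, h3⟩ := ih
    have hM := mod_pos hb hΔ
    have hS : ∀ i ∈ D.primeFactors, i.Prime ∧ i ≠ 2 ∧ ¬ i ∣ Mod a b := fun i hi =>
      split_not_dvd (h1 i hi)
    obtain ⟨l, k1, k2, k3, k4⟩ := prime_sym hM (Nat.coprime_one_left _) D.primeFactors hS 0
      (max D (b * (a ^ 2 - 4 * b)).natAbs)
    have hlD : D < l := lt_of_le_of_lt (le_max_left _ _) k1
    have hl : IsSplit a b l := split_class k2 k3 fun hd => by
      have h4 := Nat.le_of_dvd (Int.natAbs_pos.2 (mul_ne_zero hb hΔ)) (Int.natCast_dvd.1 hd)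
      have h5 := le_max_right D (b * (a ^ 2 - 4 * b)).natAbs
      omega
    have hD0 : D ≠ 0 := hD.1.ne_zero
    have n1 : ¬ l ∣ D := fun h => by
      have := Nat.le_of_dvd (Nat.pos_of_ne_zero hD0) h
      omega
    have m1 : l ∉ D.primeFactors := fun h => n1 (Nat.dvd_of_mem_primeFactors h)
    have hpf : (D * l).primeFactors = insert l D.primeFactors := by
      rw [Nat.primeFactors_mul hD0 k2.ne_zero, k2.primeFactors]
      ext x
      simp only [Finset.mem_union, Finset.mem_singleton, Finset.mem_insert]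
      tauto
    have c1 : Nat.Coprime D l := ((Nat.Prime.coprime_iff_not_dvd k2).2 n1).symm
    have hsp : ∀ x ∈ (D * l).primeFactors, IsSplit a b x := by
      intro x hx
      rw [hpf, Finset.mem_insert] at hx
      rcases hx with rfl | hx
      · exact hl
      · exact h1 x hx
    refine ⟨D * l, ⟨?_, ?_, fun p hp => ?_, fun x hx => Or.inl (hsp x hx)⟩, hsp, ?_, ?_⟩
    · exact (Nat.squarefree_mul c1).2 ⟨hD.1, k2.prime.squarefree⟩
    · rw [Nat.mul_mod, hD.2.1, hl.2.1]
    · rw [Nat.cast_mul]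
      exact (hD.2.2.1 p hp).mul (hl.2.2.2 p hp)
    · rw [hpf, Finset.card_insert_of_notMem m1, h2]
    · have hsym : ∀ i ∈ D.primeFactors, nonsq l i = 0 := by
        intro i hi
        have hip : Fact i.Prime := ⟨(h1 i hi).1⟩
        have hlp : Fact l.Prime := ⟨k2⟩
        have h4 := k4 i hi
        have h5 : IsSquare (l : ZMod i) := by
          by_contra hn
          unfold nonsq at h4
          rw [if_neg hn, Pi.zero_apply] at h4
          exact absurd h4 (by decide)
        have h8 := (h1 i hi).2.1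
        have h9 := hl.2.1
        have h6 : IsSquare (i : ZMod l) :=
          (ZMod.exists_sq_eq_prime_iff_of_mod_four_eq_one (p := l) (q := i) (by omega) (by omega)).2 h5
        unfold nonsq
        rw [if_pos h6]
      intro i hi j hj hij
      rw [hpf, Finset.mem_insert] at hi hj
      rcases hi with rfl | hi
      · rcases hj with rfl | hj
        · exact absurd rfl hij
        · exact hsym j hj
      · rcases hj with rfl | hj
        · exact k4 i hi
        · exact h3 i hi j hj hij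

theorem exists_cork {a b : ℤ} (hb : b ≠ 0) (hΔ : a ^ 2 - 4 * b ≠ 0) {m : ℕ}
    (hm : Nat.Coprime m (Mod a b))
    (hc : ∀ q : ℕ, q.Prime → q ≡ m [MOD Mod a b] → IsInert a b q) (n N : ℕ) :
    ∃ D : ℕ, N < D ∧ Class a b D ∧ cork a b D = n := by
  classical
  obtain ⟨D, hD, g1, g2, g3⟩ := exists_clique hb hΔ n
  have hsD : splitSet a b D = D.primeFactors := by
    unfold splitSet
    exact Finset.filter_true_of_mem g1
  obtain ⟨q₁, q₂, h1, h2, h3, h4, h5, h6, h7⟩ := pair_tog hb hΔ hm (D := D)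
    (fun i => ent D.primeFactors (rootless a b) i i) (max N D)
  have hN : N < q₁ := lt_of_le_of_lt (le_max_left _ _) h1
  obtain ⟨k1, k2, k3, k4, k5⟩ := add_pair hb hm hc hD h3 h4 h5 h6 h2
    (lt_of_le_of_lt (le_max_right _ _) h1)
  refine ⟨D * q₁ * q₂, ?_, k1, ?_⟩
  · have hDp : 0 < D := Nat.pos_of_ne_zero hD.1.ne_zero
    calc N < q₁ := hN
      _ ≤ D * q₁ := Nat.le_mul_of_pos_left _ hDp
      _ ≤ D * q₁ * q₂ := Nat.le_mul_of_pos_right _ h4.pos
  · have hz : gmat (splitSet a b (D * q₁ * q₂)) (D * q₁ * q₂).primeFactors (rootless a b) = 0 := by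
      ext i j
      have hi : (i : ℕ) ∈ splitSet a b D := (Finset.ext_iff.1 k3 i).1 i.2
      have hj : (j : ℕ) ∈ splitSet a b D := (Finset.ext_iff.1 k3 j).1 j.2
      have hiD := hsD ▸ hi
      have hjD := hsD ▸ hj
      unfold gmat
      rw [Matrix.of_apply, Matrix.zero_apply]
      by_cases hij : i = j
      · rw [if_pos hij, k2]
        have hi1 : (i : ℕ) ≠ q₁ := by intro h; exact k4 (h ▸ hiD)
        have hi2 : (i : ℕ) ≠ q₂ := by intro h; exact k5 (h ▸ hiD)
        have e1 : (insert q₁ (insert q₂ D.primeFactors)).erase (i : ℕ) =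
            insert q₁ (insert q₂ (D.primeFactors.erase i)) := by
          rw [Finset.erase_insert_of_ne hi1.symm, Finset.erase_insert_of_ne hi2.symm]
        have e2 : ∑ l ∈ (insert q₁ (insert q₂ D.primeFactors)).erase (i : ℕ), nonsq i l =
            nonsq i q₁ + (nonsq i q₂ + ∑ l ∈ D.primeFactors.erase i, nonsq i l) := by
          rw [e1, Finset.sum_insert, Finset.sum_insert]
          · exact fun h => k5 (Finset.mem_of_mem_erase h)
          · rw [Finset.mem_insert]
            rintro (h | h)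
            · exact h2.ne h
            · exact k4 (Finset.mem_of_mem_erase h)
        have h8 := h7 i hi
        have z : ∀ x y u w : ZMod 2, y + u = x + w → x + (y + (u + w)) = 0 := by decide
        rw [e2]
        refine z _ _ _ _ ?_
        rw [h8]
        unfold ent
        rw [if_pos rfl]
      · rw [if_neg hij]
        exact g3 i hiD j hjD fun h => hij (Subtype.ext h)
    unfold cork
    rw [hz, Matrix.rank_zero, Nat.sub_zero, k3, hsD, g2]

end Pool.Agent.V8H12.GT
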