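import Mathlib
import Pool.Agent.V8H12.GT.Val
import Pool.Agent.V8H64.X49.Frob

/-!
# Frobenius elements, square roots and the roots of `y⁴ + a y² + b`
-/

set_option autoImplicit false
set_option linter.unusedSectionVars false

namespace Pool.Agent.V8H12.GT

open Polynomial NumberField Pool.Agent.W401.Cheb
open Q283.TW (gal_sqrt frob_sqrt fixed_iff two_ne coe_smul' gen_split_rat)

/-- a Galois extension of the rationals with given square roots and a root of `y⁴ + a y² + b` -/
theorem exists_fld (a b : ℤ) (T : Finset ℤ) : ∃ (L : Type) (_ : Field L) (_ : NumberField L)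
    (_ : IsGalois ℚ L) (s : ℤ → L) (t : L), t ^ 4 + a * t ^ 2 + b = 0 ∧
      ∀ n ∈ T, (s n) ^ 2 = (n : L) := by
  classical
  set h : ℚ[X] := X ^ 4 + C (a : ℚ) * X ^ 2 + C (b : ℚ) with hh
  set q : ℤ → ℚ[X] := fun n => X ^ 2 - C (n : ℚ) with hq
  set f : ℚ[X] := h * ∏ n ∈ T, q n with hf
  have hhd : h.natDegree = 4 := by rw [hh]; compute_degree!
  have hqd : ∀ n, (q n).natDegree = 2 := by intro n; rw [hq]; exact natDegree_X_pow_sub_C
  have hh0 : h ≠ 0 := by intro h0; rw [h0] at hhd; simp at hhd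
  have hq0 : ∀ n, q n ≠ 0 := by intro n h0; have := hqd n; rw [h0] at this; simp at this
  have hf0 : f ≠ 0 := mul_ne_zero hh0 (Finset.prod_ne_zero_iff.2 fun n _ => hq0 n)
  obtain ⟨L, hL, hN, hG, hsp⟩ := gen_split_rat f
  have hfm : f.map (algebraMap ℚ L) ≠ 0 := by
    rwa [Ne, Polynomial.map_eq_zero]
  have key : ∀ g : ℚ[X], g ∣ f → g.natDegree ≠ 0 →
      ∃ x : L, (g.map (algebraMap ℚ L)).eval x = 0 := by
    intro g hg hd
    have h1 := hsp.of_dvd hfm (Polynomial.map_dvd _ hg)
    refine h1.exists_eval_eq_zero ?_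
    rw [Polynomial.degree_map]
    intro h2
    exact hd (natDegree_eq_of_degree_eq_some h2)
  obtain ⟨t, ht⟩ := key h (Dvd.intro _ rfl) (by rw [hhd]; norm_num)
  have hs : ∀ n : ℤ, ∃ x : L, n ∈ T → x ^ 2 = (n : L) := by
    intro n
    by_cases hn : n ∈ T
    · obtain ⟨x, hx⟩ := key (q n) ((Finset.dvd_prod_of_mem q hn).mul_left _)
        (by rw [hqd]; norm_num)
      refine ⟨x, fun _ => ?_⟩
      rw [hq] at hx
      simp at hx
      linear_combination hx
    · exact ⟨0, fun h => absurd h hn⟩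
  choose s hs' using hs
  refine ⟨L, hL, hN, hG, s, t, ?_, fun n hn => hs' n hn⟩
  rw [hh] at ht
  simp at ht
  exact ht

section
variable {L : Type} [Field L] [NumberField L] [IsGalois ℚ L] {p : ℕ} [hp : Fact p.Prime]
  {φ : 𝓞 L →+* AlgebraicClosure (ZMod p)} {g : Gal(L/ℚ)}

theorem root_int {a b : ℤ} {t : L} (ht : t ^ 4 + a * t ^ 2 + b = 0) : IsIntegral ℤ t := by
  refine ⟨Polynomial.X ^ 4 + Polynomial.C a * Polynomial.X ^ 2 + Polynomial.C b, ?_, ?_⟩
  · monicity!
  · rw [eval₂_add, eval₂_add, eval₂_mul, eval₂_pow, eval₂_pow, eval₂_X, eval₂_C, eval₂_C,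
      eq_intCast, eq_intCast]
    exact ht

/-- the conjugates of a root -/
theorem conj_root {a b : ℤ} {t : L} (ht : t ^ 4 + a * t ^ 2 + b = 0) :
    g t = t ∨ g t = -t ∨ (g t) ^ 2 + t ^ 2 + a = 0 := by
  have h1 : (g t) ^ 4 + a * (g t) ^ 2 + b = 0 := by
    have h := congrArg g ht
    rw [map_add, map_add, map_mul, map_pow, map_pow, map_intCast, map_intCast, map_zero] at h
    exact h
  have h2 : ((g t) ^ 2 - t ^ 2) * ((g t) ^ 2 + t ^ 2 + a) = 0 := by linear_combination h1 - ht
  rcases mul_eq_zero.1 h2 with h3 | h3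
  · rcases sq_eq_sq_iff_eq_or_eq_neg.1 (sub_eq_zero.1 h3) with h4 | h4
    · exact Or.inl h4
    · exact Or.inr (Or.inl h4)
  · exact Or.inr (Or.inr h3)

/-- **Frobenius and the roots of the quartic.** -/
theorem frob_quartic (hφ : HasFrob p φ g) {a b : ℤ} {t : L} (ht : t ^ 4 + a * t ^ 2 + b = 0)
    (h2 : p ≠ 2) (hb : (b : ZMod p) ≠ 0) (hΔ : ((a ^ 2 - 4 * b : ℤ) : ZMod p) ≠ 0)
    (hbs : IsSquare (b : ZMod p)) : (∃ y : ZMod p, y ^ 4 + a * y ^ 2 + b = 0) ↔ g t = t := by
  obtain ⟨T, hT⟩ : ∃ S : 𝓞 L, algebraMap (𝓞 L) L S = t := ⟨⟨t, root_int ht⟩, rfl⟩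
  have hinj : Function.Injective (algebraMap (𝓞 L) L) := RingOfIntegers.coe_injective
  have hT4 : T ^ 4 + a * T ^ 2 + b = 0 := by
    apply hinj
    rw [map_add, map_add, map_mul, map_pow, map_pow, map_intCast, map_intCast, map_zero, hT]
    exact ht
  obtain ⟨ι, hι⟩ : ∃ ι : ZMod p →+* AlgebraicClosure (ZMod p),
    ι = algebraMap (ZMod p) (AlgebraicClosure (ZMod p)) := ⟨_, rfl⟩
  obtain ⟨F, hF⟩ : ∃ F : AlgebraicClosure (ZMod p), F = φ T := ⟨_, rfl⟩
  have hF4 : F ^ 4 + a * F ^ 2 + b = 0 := by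
    have h := congrArg φ hT4
    rw [map_add, map_add, map_mul, map_pow, map_pow, map_intCast, map_intCast, map_zero, ← hF] at h
    exact h
  have hb' : ((b : ℤ) : AlgebraicClosure (ZMod p)) ≠ 0 := by
    intro h
    apply hb
    apply Q283.TW.cast_inj
    rw [map_intCast, map_zero]
    exact h
  have hΔ' : (a : AlgebraicClosure (ZMod p)) ^ 2 - 4 * b ≠ 0 := by
    intro h
    apply hΔ
    apply Q283.TW.cast_inj
    rw [map_intCast, map_zero]
    push_cast
    exact h
  have hF0 : F ≠ 0 := by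
    intro h
    rw [h] at hF4
    apply hb'
    linear_combination hF4
  constructor
  · rintro ⟨y, hy⟩
    have hY : (ι y) ^ 4 + a * (ι y) ^ 2 + b = 0 := by
      have h := congrArg ι hy
      rw [map_add, map_add, map_mul, map_pow, map_pow, map_intCast, map_intCast, map_zero] at h
      exact h
    have hFp : F ^ p = F := by
      have h3 : (F ^ 2 - (ι y) ^ 2) * (F ^ 2 + (ι y) ^ 2 + a) = 0 := by
        linear_combination hF4 - hY
      rw [fixed_iff, ← hι]
      rcases mul_eq_zero.1 h3 with h4 | h4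
      · rcases sq_eq_sq_iff_eq_or_eq_neg.1 (sub_eq_zero.1 h4) with h5 | h5
        · exact ⟨y, h5.symm⟩
        · exact ⟨-y, by rw [map_neg]; exact h5.symm⟩
      · obtain ⟨β, hβ⟩ := hbs
        have hβ' : (b : AlgebraicClosure (ZMod p)) = ι β * ι β := by
          have h := congrArg ι hβ
          rw [map_intCast, map_mul] at h
          exact h
        have hy0 : y ≠ 0 := by
          rintro rfl
          apply hb'
          rw [map_zero] at hY
          linear_combination hY
        have hY0 : ι y ≠ 0 := by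
          intro h
          rw [h] at hY
          apply hb'
          linear_combination hY
        have h5 : (ι y * F) ^ 2 = (ι β) ^ 2 := by
          linear_combination (ι y) ^ 2 * h4 - hY + hβ'
        have hyi : ι y * ι (y⁻¹) = 1 := by
          rw [← map_mul, mul_inv_cancel₀ hy0, map_one]
        rcases sq_eq_sq_iff_eq_or_eq_neg.1 h5 with h6 | h6
        · refine ⟨β * y⁻¹, ?_⟩
          rw [map_mul]
          linear_combination -(ι y⁻¹) * h6 + F * hyi
        · refine ⟨-(β * y⁻¹), ?_⟩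
          rw [map_neg, map_mul]
          linear_combination -(ι y⁻¹) * h6 + F * hyi
    have h6 := hφ T
    rw [← hF, hFp] at h6
    rcases conj_root (g := g) ht with h | h | h
    · exact h
    · exfalso
      have h7 : g • T = -T := by
        apply hinj
        rw [coe_smul', hT, h, map_neg, hT]
      rw [h7, map_neg, ← hF] at h6
      have h8 : 2 * F = 0 := by linear_combination -h6
      rcases mul_eq_zero.1 h8 with h9 | h9
      · exact two_ne h2 h9
      · exact hF0 h9
    · exfalso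
      have h7 : (g • T) ^ 2 + T ^ 2 + a = 0 := by
        apply hinj
        rw [map_add, map_add, map_pow, map_pow, coe_smul', hT, map_intCast, map_zero]
        exact h
      have h8 := congrArg φ h7
      rw [map_add, map_add, map_pow, map_pow, map_intCast, map_zero, h6, ← hF] at h8
      apply hΔ'
      linear_combination (a - 2 * F ^ 2) * h8 - 4 * hF4 + (4 * F ^ 2) * h8
  · intro h
    have h5 : g • T = T := by
      apply hinj
      rw [coe_smul', hT, h]
    have h6 := hφ T
    rw [h5, ← hF] at h6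
    obtain ⟨z, hz⟩ := (fixed_iff _).1 h6.symm
    refine ⟨z, ?_⟩
    apply Q283.TW.cast_inj
    rw [map_add, map_add, map_mul, map_pow, map_pow, map_intCast, map_intCast, map_zero, hz]
    exact hF4

end

end Pool.Agent.V8H12.GT
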