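import Mathlib
import Pool.Agent.V8H12.GT.Frb

/-!
# The density of the split primes with given symbols
-/

set_option autoImplicit false
set_option linter.unusedSectionVars false

namespace Pool.Agent.V8H12.GT

open NumberField Filter Topology Pool.Agent.W401.Cheb
open Pool.Agent.V8H12.X49
open Pool.Agent.V8H64.X49 (HasDensity dens_M)
open Q283.TW (gal_sqrt frob_sqrt)

/-- the integers which have to be squares modulo the split primes -/
def T0 (a b : ℤ) : Finset ℤ := {-1, 2, b, a ^ 2 - 4 * b} ∪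
  ((b * (a ^ 2 - 4 * b)).natAbs.primeFactors.image fun r : ℕ => (r : ℤ))

theorem T0_spec {a b : ℤ} (hb : b ≠ 0) (hΔ : a ^ 2 - 4 * b ≠ 0) {n : ℤ} (hn : n ∈ T0 a b) :
    n ≠ 0 ∧ ∀ q : ℕ, q.Prime → q ≠ 2 → (q : ℤ) ∣ n → Bad a b q := by
  unfold T0 at hn
  rw [Finset.mem_union, Finset.mem_image] at hn
  simp only [Finset.mem_insert, Finset.mem_singleton] at hn
  rcases hn with (rfl | rfl | rfl | rfl) | ⟨r, hr, rfl⟩
  · refine ⟨by norm_num, fun q hq _ hd => ?_⟩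
    exfalso
    have h1 := Int.natCast_dvd.1 hd
    simp at h1
    exact hq.one_lt.ne' h1
  · refine ⟨by norm_num, fun q hq h2 hd => ?_⟩
    exfalso
    have h1 := Int.natCast_dvd.1 hd
    have h3 : q ∣ 2 := by simpa using h1
    exact h2 ((Nat.prime_dvd_prime_iff_eq hq Nat.prime_two).1 h3)
  · exact ⟨hb, fun q hq h2 hd => ⟨hq, h2, hd.mul_right _⟩⟩
  · exact ⟨hΔ, fun q hq h2 hd => ⟨hq, h2, hd.mul_left _⟩⟩
  · have hrp := Nat.prime_of_mem_primeFactors hr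
    refine ⟨by exact_mod_cast hrp.ne_zero, fun q hq h2 hd => ?_⟩
    have h3 := (Nat.prime_dvd_prime_iff_eq hq hrp).1 (Int.natCast_dvd_natCast.1 hd)
    subst h3
    exact ⟨hq, h2, Int.natCast_dvd.2 (Nat.dvd_of_mem_primeFactors hr)⟩

theorem T0_sq {a b : ℤ} (hb : b ≠ 0) (hΔ : a ^ 2 - 4 * b ≠ 0) {p : ℕ} [Fact p.Prime]
    (h : IsSplit a b p) {n : ℤ} (hn : n ∈ T0 a b) : IsSquare (n : ZMod p) := by
  obtain ⟨h1, h2⟩ := T0_spec hb hΔ hn
  exact sq_int h.2.1 h1 fun q hq hq2 hqn => h.2.2.2 q (h2 q hq hq2 hqn)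

theorem T0_ne {a b : ℤ} (hb : b ≠ 0) (hΔ : a ^ 2 - 4 * b ≠ 0) {p : ℕ} [hp : Fact p.Prime]
    (h2 : p ≠ 2) (hd : ¬ (p : ℤ) ∣ b * (a ^ 2 - 4 * b)) {n : ℤ} (hn : n ∈ T0 a b) :
    (n : ZMod p) ≠ 0 := by
  intro h
  rw [ZMod.intCast_zmod_eq_zero_iff_dvd] at h
  exact hd ((T0_spec hb hΔ hn).2 p hp.out h2 h).2.2

theorem split_of_sq {a b : ℤ} (hb : b ≠ 0) (hΔ : a ^ 2 - 4 * b ≠ 0) {p : ℕ} [hp : Fact p.Prime]
    (h2 : p ≠ 2) (hd : ¬ (p : ℤ) ∣ b * (a ^ 2 - 4 * b))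
    (h : ∀ n ∈ T0 a b, IsSquare (n : ZMod p)) : IsSplit a b p := by
  have m1 : (-1 : ℤ) ∈ T0 a b := by unfold T0; simp
  have m2 : (2 : ℤ) ∈ T0 a b := by unfold T0; simp
  have h4 : p % 4 ≠ 3 := by
    rw [← ZMod.exists_sq_eq_neg_one_iff]
    have := h _ m1
    push_cast at this
    exact this
  have h5 : p % 8 = 1 ∨ p % 8 = 7 := by
    rw [← ZMod.exists_sq_eq_two_iff h2]
    have := h _ m2
    push_cast at this
    exact this
  have h8 : p % 8 = 1 := by omega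
  refine ⟨hp.out, h8, hd, fun q hq => ?_⟩
  have hqp : Fact q.Prime := ⟨hq.1⟩
  have mq : (q : ℤ) ∈ T0 a b := by
    unfold T0
    rw [Finset.mem_union]
    refine Or.inr (Finset.mem_image.2 ⟨q, ?_, rfl⟩)
    rw [Nat.mem_primeFactors]
    exact ⟨hq.1, Int.natCast_dvd.1 hq.2.2, Int.natAbs_ne_zero.2 (mul_ne_zero hb hΔ)⟩
  have h6 := h _ mq
  rw [Int.cast_natCast] at h6
  exact (ZMod.exists_sq_eq_prime_iff_of_mod_four_eq_one (p := p) (q := q) (by omega) hq.2.1).1 h6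

theorem z2 (x y : ZMod 2) : x = y ↔ (x = 0 ↔ y = 0) := by
  revert x y
  decide

theorem nonsq_zero {i p : ℕ} : nonsq i p = 0 ↔ IsSquare (p : ZMod i) := by
  unfold nonsq
  split_ifs with h
  · exact ⟨fun _ => h, fun _ => rfl⟩
  · exact ⟨fun h1 => absurd h1 (by decide), fun h1 => absurd h1 h⟩

theorem rootless_zero {a b : ℤ} {p : ℕ} :
    rootless a b p = 0 ↔ ∃ y : ZMod p, y ^ 4 + a * y ^ 2 + b = 0 := by
  unfold rootless
  split_ifs with h
  · exact ⟨fun _ => h, fun _ => rfl⟩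
  · exact ⟨fun h1 => absurd h1 (by decide), fun h1 => absurd h1 h⟩

theorem class_prime {a b : ℤ} {D : ℕ} (hD : Class a b D) {i : ℕ} (hi : i ∈ D.primeFactors) :
    i.Prime ∧ i ≠ 2 ∧ ¬ i ∣ Mod a b := by
  rcases hD.2.2.2 i hi with h | h
  · exact split_not_dvd h
  · refine ⟨h.1, h.2.1, fun hd => ?_⟩
    unfold Mod at hd
    rcases (Nat.Prime.dvd_mul h.1).1 hd with h1 | h1
    · have h2 : i ∣ 2 ^ 3 := by norm_num; exact h1
      exact h.2.1 ((Nat.prime_dvd_prime_iff_eq h.1 Nat.prime_two).1 (h.1.dvd_of_dvd_pow h2))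
    · have hp : Fact i.Prime := ⟨h.1⟩
      have h3 : ((b * (a ^ 2 - 4 * b) : ℤ) : ZMod i) = 0 :=
        (ZMod.intCast_zmod_eq_zero_iff_dvd _ i).2 (Int.natCast_dvd.2 h1)
      rw [Int.cast_mul] at h3
      rcases mul_eq_zero.1 h3 with h4 | h4
      · exact h.2.2.1 (by rw [h4]; exact ⟨0, by ring⟩)
      · exact h.2.2.2 (by rw [h4]; exact ⟨0, by ring⟩)

/-- the event: a new split prime with given symbols -/
def Evt (a b : ℤ) (D : ℕ) (v : ℕ → ZMod 2) (ε : ZMod 2) (p : ℕ) : Prop :=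
  IsSplit a b p ∧ p ∉ D.primeFactors ∧ (∀ i ∈ D.primeFactors, nonsq i p = v i) ∧
    rootless a b p = ε

/-- the excluded primes -/
def Exc (a b : ℤ) (D : ℕ) : ℕ := Mod a b * D

section
variable {L : Type} [Field L] [NumberField L] [IsGalois ℚ L]

/-- the elements of the Galois group -/
def CC (a b : ℤ) (D : ℕ) (v : ℕ → ZMod 2) (ε : ZMod 2) (s : ℤ → L) (t : L) : Set Gal(L/ℚ) :=
  {g | (∀ n ∈ T0 a b, g (s n) = s n) ∧ (∀ i ∈ D.primeFactors, g (s i) = s i ↔ v i = 0) ∧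
    (g t = t ↔ ε = 0)}

theorem frob_evt {a b : ℤ} (hb : b ≠ 0) (hΔ : a ^ 2 - 4 * b ≠ 0) {D : ℕ} (hD : Class a b D)
    {s : ℤ → L} {t : L} (ht : t ^ 4 + a * t ^ 2 + b = 0)
    (hs : ∀ n ∈ T0 a b ∪ (D.primeFactors.image fun r : ℕ => (r : ℤ)), (s n) ^ 2 = (n : L))
    (v : ℕ → ZMod 2) (ε : ZMod 2) {p : ℕ} [hp : Fact p.Prime] (hpD : ¬ p ∣ Exc a b D)
    {φ : 𝓞 L →+* AlgebraicClosure (ZMod p)} {g : Gal(L/ℚ)} (hφ : HasFrob p φ g) :
    Evt a b D v ε p ↔ g ∈ CC a b D v ε s t := by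
  have hM : ¬ p ∣ Mod a b := fun h => hpD (h.mul_right _)
  have hD' : ¬ p ∣ D := fun h => hpD (h.mul_left _)
  have h2 : p ≠ 2 := by
    rintro rfl
    exact hM (by unfold Mod; exact (by norm_num : 2 ∣ 8).mul_right _)
  have hd : ¬ (p : ℤ) ∣ b * (a ^ 2 - 4 * b) := fun h =>
    hM (by unfold Mod; exact (Int.natCast_dvd.1 h).mul_left _)
  have hsT : ∀ n ∈ T0 a b, (s n) ^ 2 = (n : L) := fun n hn => hs n (Finset.mem_union_left _ hn)
  have hsR : ∀ i ∈ D.primeFactors, (s i) ^ 2 = (((i : ℕ) : ℤ) : L) := fun i hi =>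
    hs i (Finset.mem_union_right _ (Finset.mem_image.2 ⟨i, hi, rfl⟩))
  have hpR : p ∉ D.primeFactors := fun h => hD' (Nat.dvd_of_mem_primeFactors h)
  have k1 : IsSplit a b p ↔ ∀ n ∈ T0 a b, g (s n) = s n := by
    constructor
    · intro h n hn
      exact (frob_sqrt hφ (hsT n hn) h2 (T0_ne hb hΔ h2 hd hn)).1 (T0_sq hb hΔ h hn)
    · intro h
      exact split_of_sq hb hΔ h2 hd fun n hn =>
        (frob_sqrt hφ (hsT n hn) h2 (T0_ne hb hΔ h2 hd hn)).2 (h n hn)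
  have mb : b ∈ T0 a b := by unfold T0; simp
  have mΔ : a ^ 2 - 4 * b ∈ T0 a b := by unfold T0; simp
  have key : IsSplit a b p → (((∀ i ∈ D.primeFactors, nonsq i p = v i) ∧ rootless a b p = ε) ↔
      ((∀ i ∈ D.primeFactors, g (s i) = s i ↔ v i = 0) ∧ (g t = t ↔ ε = 0))) := by
    intro hsp
    have h8 := hsp.2.1
    refine and_congr (forall_congr' fun i => forall_congr' fun hi => ?_) ?_
    · obtain ⟨i1, i2, -⟩ := class_prime hD hi
      have hip : Fact i.Prime := ⟨i1⟩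
      have n0 : (((i : ℕ) : ℤ) : ZMod p) ≠ 0 := by
        rw [Int.cast_natCast, ne_eq, ZMod.natCast_eq_zero_iff]
        intro h
        exact hpR ((Nat.prime_dvd_prime_iff_eq hp.out i1).1 h ▸ hi)
      rw [z2, nonsq_zero, ← frob_sqrt hφ (hsR i hi) h2 n0, Int.cast_natCast,
        ZMod.exists_sq_eq_prime_iff_of_mod_four_eq_one (p := p) (q := i) (by omega) i2]
    · rw [z2, rootless_zero, frob_quartic hφ ht h2 (T0_ne hb hΔ h2 hd mb) (T0_ne hb hΔ h2 hd mΔ)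
        (T0_sq hb hΔ hsp mb)]
  constructor
  · rintro ⟨h3, -, h4⟩
    exact ⟨k1.1 h3, (key h3).1 h4⟩
  · rintro ⟨h3, h4⟩
    have h5 := k1.2 h3
    exact ⟨h5, hpR, (key h5).2 h4⟩

theorem t_pm {a b : ℤ} {t : L} (ht : t ^ 4 + a * t ^ 2 + b = 0) {u : Gal(L/ℚ)}
    (hu : u (2 * t ^ 2 + a) = 2 * t ^ 2 + a) : u t = t ∨ u t = -t := by
  rw [map_add, map_mul, map_pow, map_ofNat, map_intCast] at hu
  have h3 : (2 : L) * ((u t) ^ 2 - t ^ 2) = 0 := by linear_combination hu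
  rcases mul_eq_zero.1 h3 with h4 | h4
  · norm_num at h4
  · exact sq_eq_sq_iff_eq_or_eq_neg.1 (sub_eq_zero.1 h4)

theorem fix_disc {a b : ℤ} {t r : L} (ht : t ^ 4 + a * t ^ 2 + b = 0) {u : Gal(L/ℚ)}
    (hr : r ^ 2 = ((a ^ 2 - 4 * b : ℤ) : L)) (hu : u r = r) :
    u (2 * t ^ 2 + a) = 2 * t ^ 2 + a := by
  have h3 : (2 * t ^ 2 + a) ^ 2 = r ^ 2 := by
    rw [hr]
    push_cast
    linear_combination 4 * ht
  rcases sq_eq_sq_iff_eq_or_eq_neg.1 h3 with h4 | h4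
  · rw [h4, hu]
  · rw [h4, map_neg, hu]

theorem neg_ne_root {a b : ℤ} (hb0 : b ≠ 0) {t : L} (ht : t ^ 4 + a * t ^ 2 + b = 0) : -t ≠ t := by
  intro h
  have h3 : (2 : L) * t = 0 := by linear_combination -h
  rcases mul_eq_zero.1 h3 with h4 | h4
  · norm_num at h4
  · rw [h4] at ht
    have h5 : ((b : ℤ) : L) = 0 := by linear_combination ht
    exact hb0 (by exact_mod_cast h5)

/-- an element which fixes all the square roots and moves `t` -/
theorem exists_c {a b : ℤ} (hb : ¬ IsSquare b) (hΔ : ¬ IsSquare (a ^ 2 - 4 * b))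
    {t : L} (ht : t ^ 4 + a * t ^ 2 + b = 0) :
    ∃ c : Gal(L/ℚ), (∀ (x : L) (n : ℤ), x ^ 2 = n → c x = x) ∧ c t ≠ t := by
  have hb0 : b ≠ 0 := by rintro rfl; exact hb ⟨0, by simp⟩
  have hΔ0 : a ^ 2 - 4 * b ≠ 0 := by intro h; exact hΔ (by rw [h]; exact ⟨0, by simp⟩)
  obtain ⟨m, hm, hc⟩ := inert_class hb hΔ
  obtain ⟨D₁, hD₁, htor⟩ := torsor L
  have hM := mod_pos hb0 hΔ0
  obtain ⟨q, hq1, hq2, hq3, -⟩ := prime_sym hM hm ∅ (by simp) 0 D₁
  have hq : IsInert a b q := hc q hq2 hq3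
  have hqp : Fact q.Prime := ⟨hq2⟩
  have htq := htor q fun h => absurd (Nat.le_of_dvd hD₁ h) (by omega)
  obtain ⟨φ⟩ := nonempty_hom htq
  obtain ⟨h, hh⟩ := Pool.Agent.W401.Cheb.exists_frob htq φ
  have nb : ((b : ℤ) : ZMod q) ≠ 0 := fun h0 => hq.2.2.1 (by rw [h0]; exact ⟨0, by ring⟩)
  have nΔ : ((a ^ 2 - 4 * b : ℤ) : ZMod q) ≠ 0 := fun h0 =>
    hq.2.2.2 (by rw [h0]; exact ⟨0, by ring⟩)
  refine ⟨h * h, fun x n hx => ?_, fun hcon => ?_⟩
  · show h (h x) = x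
    rcases gal_sqrt h hx with h1 | h1
    · rw [h1, h1]
    · rw [h1, map_neg, h1, neg_neg]
  · have hcon' : h (h t) = t := hcon
    rcases conj_root (g := h) ht with h1 | h1 | h1
    · have h2 : (2 * t ^ 2 + a) ^ 2 = ((a ^ 2 - 4 * b : ℤ) : L) := by
        push_cast
        linear_combination 4 * ht
      refine hq.2.2.2 ((frob_sqrt hh h2 hq.2.1 nΔ).2 ?_)
      rw [map_add, map_mul, map_pow, h1, map_ofNat, map_intCast]
    · have h2 : (2 * t ^ 2 + a) ^ 2 = ((a ^ 2 - 4 * b : ℤ) : L) := by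
        push_cast
        linear_combination 4 * ht
      refine hq.2.2.2 ((frob_sqrt hh h2 hq.2.1 nΔ).2 ?_)
      rw [map_add, map_mul, map_pow, h1, map_ofNat, map_intCast]
      ring
    · have h2 : (t * h t) ^ 2 = ((b : ℤ) : L) := by
        linear_combination t ^ 2 * h1 - ht
      refine hq.2.2.1 ((frob_sqrt hh h2 hq.2.1 nb).2 ?_)
      rw [map_mul, hcon', mul_comm]

theorem nonempty_CC {a b : ℤ} (hb : ¬ IsSquare b) (hΔ : ¬ IsSquare (a ^ 2 - 4 * b)) {D : ℕ}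
    (hD : Class a b D) {s : ℤ → L} {t : L} (ht : t ^ 4 + a * t ^ 2 + b = 0)
    (hs : ∀ n ∈ T0 a b ∪ (D.primeFactors.image fun r : ℕ => (r : ℤ)), (s n) ^ 2 = (n : L))
    (v : ℕ → ZMod 2) (ε : ZMod 2) : (CC a b D v ε s t).Nonempty := by
  classical
  have hb0 : b ≠ 0 := by rintro rfl; exact hb ⟨0, by simp⟩
  have hΔ0 : a ^ 2 - 4 * b ≠ 0 := by intro h; exact hΔ (by rw [h]; exact ⟨0, by simp⟩)
  have hM := mod_pos hb0 hΔ0
  have hD0 : 0 < D := Nat.pos_of_ne_zero hD.1.ne_zero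
  have hExc : 0 < Exc a b D := Nat.mul_pos hM hD0
  obtain ⟨D₁, hD₁, htor⟩ := torsor L
  obtain ⟨p, hp1, hp2, hp3, hp4⟩ := prime_sym hM (Nat.coprime_one_left _) D.primeFactors
    (fun i hi => class_prime hD hi) v (max D₁ (Exc a b D))
  have hpp : Fact p.Prime := ⟨hp2⟩
  have hx1 : ¬ p ∣ D₁ := fun h => by
    have h1 := Nat.le_of_dvd hD₁ h
    have h2 := le_max_left D₁ (Exc a b D)
    omega
  have hx2 : ¬ p ∣ Exc a b D := fun h => by
    have h1 := Nat.le_of_dvd hExc h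
    have h2 := le_max_right D₁ (Exc a b D)
    omega
  have hd : ¬ (p : ℤ) ∣ b * (a ^ 2 - 4 * b) := fun h =>
    hx2 (by unfold Exc Mod; exact ((Int.natCast_dvd.1 h).mul_left _).mul_right _)
  have hsp := split_class hp2 hp3 hd
  have hpR : p ∉ D.primeFactors := fun h =>
    hx2 ((Nat.dvd_of_mem_primeFactors h).mul_left _)
  have htp := htor p hx1
  obtain ⟨φ⟩ := nonempty_hom htp
  obtain ⟨g, hg⟩ := Pool.Agent.W401.Cheb.exists_frob htp φ
  have hev : Evt a b D v (rootless a b p) p := ⟨hsp, hpR, hp4, rfl⟩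
  obtain ⟨g1, g2, g3⟩ := (frob_evt hb0 hΔ0 hD ht hs v _ hx2 hg).1 hev
  by_cases hε : rootless a b p = ε
  · exact ⟨g, g1, g2, by rw [← hε]; exact g3⟩
  · obtain ⟨c, c1, c2⟩ := exists_c hb hΔ ht
    have hsq : (2 * t ^ 2 + a) ^ 2 = ((a ^ 2 - 4 * b : ℤ) : L) := by
      push_cast
      linear_combination 4 * ht
    have ct : c t = -t := (t_pm ht (c1 _ _ hsq)).resolve_left c2
    have mΔ : a ^ 2 - 4 * b ∈ T0 a b := by unfold T0; simp
    have gt : g t = t ∨ g t = -t := t_pm ht (fix_disc ht (hs _ (Finset.mem_union_left _ mΔ)) (g1 _ mΔ))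
    have nt := neg_ne_root hb0 ht
    refine ⟨g * c, fun n hn => ?_, fun i hi => ?_, ?_⟩
    · show g (c (s n)) = s n
      rw [c1 _ _ (hs n (Finset.mem_union_left _ hn)), g1 n hn]
    · show g (c (s i)) = s i ↔ _
      rw [c1 _ _ (hs i (Finset.mem_union_right _ (Finset.mem_image.2 ⟨i, hi, rfl⟩)))]
      exact g2 i hi
    · show g (c t) = t ↔ _
      rw [ct, map_neg]
      have z3 : ∀ x y : ZMod 2, x ≠ y → (y = 0 ↔ x ≠ 0) := by decide
      rw [z3 _ _ hε, ne_eq, ← g3]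
      rcases gt with h | h
      · rw [h]
        exact ⟨fun h5 => absurd h5 nt, fun h5 => absurd rfl h5⟩
      · rw [h, neg_neg]
        exact ⟨fun _ => nt, fun _ => rfl⟩

/-- products -/
theorem mul_CC {a b : ℤ} (hb0 : b ≠ 0) {D : ℕ} (hD0 : ∀ i ∈ D.primeFactors, i ≠ 0) {s : ℤ → L}
    {t : L} (ht : t ^ 4 + a * t ^ 2 + b = 0)
    (hs : ∀ n ∈ T0 a b ∪ (D.primeFactors.image fun r : ℕ => (r : ℤ)), (s n) ^ 2 = (n : L))
    {v w : ℕ → ZMod 2} {ε η : ZMod 2} {g h : Gal(L/ℚ)} (hg : g ∈ CC a b D v ε s t)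
    (hh : h ∈ CC a b D w η s t) : g * h ∈ CC a b D (v + w) (ε + η) s t := by
  obtain ⟨g1, g2, g3⟩ := hg
  obtain ⟨h1, h2, h3⟩ := hh
  have mΔ : a ^ 2 - 4 * b ∈ T0 a b := by unfold T0; simp
  have key : ∀ (x : L) (α β : ZMod 2), -x ≠ x → (g x = x ∨ g x = -x) → (h x = x ∨ h x = -x) →
      (g x = x ↔ α = 0) → (h x = x ↔ β = 0) → (g (h x) = x ↔ α + β = 0) := by
    intro x α β hx gx hx' k1 k2
    have z : ∀ α β : ZMod 2, (α + β = 0 ↔ (α = 0 ↔ β = 0)) := by decide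
    rw [z, ← k1, ← k2]
    rcases hx' with h5 | h5
    · rw [h5]
      rcases gx with h6 | h6
      · rw [h6]; tauto
      · rw [h6]; tauto
    · rw [h5, map_neg]
      rcases gx with h6 | h6
      · rw [h6]; tauto
      · rw [h6, neg_neg]; tauto
  refine ⟨fun n hn => ?_, fun i hi => ?_, ?_⟩
  · show g (h (s n)) = s n
    rw [h1 n hn, g1 n hn]
  · have hsi := hs i (Finset.mem_union_right _ (Finset.mem_image.2 ⟨i, hi, rfl⟩))
    refine key (s i) _ _ ?_ (gal_sqrt g hsi) (gal_sqrt h hsi) (g2 i hi) (h2 i hi)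
    intro h5
    have h6 : (2 : L) * s i = 0 := by linear_combination -h5
    rcases mul_eq_zero.1 h6 with h7 | h7
    · norm_num at h7
    · rw [h7] at hsi
      have h8 : ((i : ℤ) : L) = 0 := by
        rw [← hsi]
        ring
      exact hD0 i hi (by exact_mod_cast h8)
  · exact key t _ _ (neg_ne_root hb0 ht)
      (t_pm ht (fix_disc ht (hs _ (Finset.mem_union_left _ mΔ)) (g1 _ mΔ)))
      (t_pm ht (fix_disc ht (hs _ (Finset.mem_union_left _ mΔ)) (h1 _ mΔ))) g3 h3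

theorem card_CC {a b : ℤ} (hb : ¬ IsSquare b) (hΔ : ¬ IsSquare (a ^ 2 - 4 * b)) {D : ℕ}
    (hD : Class a b D) {s : ℤ → L} {t : L} (ht : t ^ 4 + a * t ^ 2 + b = 0)
    (hs : ∀ n ∈ T0 a b ∪ (D.primeFactors.image fun r : ℕ => (r : ℤ)), (s n) ^ 2 = (n : L))
    (v : ℕ → ZMod 2) (ε : ZMod 2) :
    (CC a b D v ε s t).ncard = (CC a b D 0 0 s t).ncard := by
  have hb0 : b ≠ 0 := by rintro rfl; exact hb ⟨0, by simp⟩
  have hD0 : ∀ i ∈ D.primeFactors, i ≠ 0 := fun i hi => (Nat.prime_of_mem_primeFactors hi).ne_zero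
  have z : ∀ x : ZMod 2, x + x = 0 := by decide
  obtain ⟨h, hh⟩ := nonempty_CC hb hΔ hD ht hs v ε
  refine le_antisymm ?_ ?_
  · refine Set.ncard_le_ncard_of_injOn (fun g => g * h) (fun g hg => ?_) (fun g _ g' _ he => ?_)
      (Set.toFinite _)
    · have h1 := mul_CC hb0 hD0 ht hs hg hh
      have e1 : v + v = 0 := funext fun i => z (v i)
      rw [e1, z] at h1
      exact h1
    · exact mul_right_cancel he
  · refine Set.ncard_le_ncard_of_injOn (fun g => g * h) (fun g hg => ?_) (fun g _ g' _ he => ?_)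
      (Set.toFinite _)
    · have h1 := mul_CC hb0 hD0 ht hs hg hh
      rw [zero_add, zero_add] at h1
      exact h1
    · exact mul_right_cancel he

end

/-- the number of the elements of a disjoint union -/
theorem ncard_bU {ι α : Type} [Finite α] (A : Finset ι) (C : ι → Set α) (n : ℕ)
    (hd : ∀ x ∈ A, ∀ y ∈ A, x ≠ y → Disjoint (C x) (C y)) (hn : ∀ x ∈ A, (C x).ncard = n) :
    ({g | ∃ x ∈ A, g ∈ C x} : Set α).ncard = A.card * n := by
  classical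
  induction A using Finset.induction_on with
  | empty => simp
  | insert y A hy ih =>
    have e : ({g | ∃ x ∈ insert y A, g ∈ C x} : Set α) = C y ∪ {g | ∃ x ∈ A, g ∈ C x} := by
      ext g
      simp only [Set.mem_setOf_eq, Set.mem_union, Finset.mem_insert]
      constructor
      · rintro ⟨x, rfl | hx, hg⟩
        · exact Or.inl hg
        · exact Or.inr ⟨x, hx, hg⟩
      · rintro (hg | ⟨x, hx, hg⟩)
        · exact ⟨y, Or.inl rfl, hg⟩
        · exact ⟨x, Or.inr hx, hg⟩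
    have hdis : Disjoint (C y) {g | ∃ x ∈ A, g ∈ C x} := by
      rw [Set.disjoint_left]
      rintro g hg ⟨x, hx, hg'⟩
      have hne : y ≠ x := by rintro rfl; exact hy hx
      exact Set.disjoint_left.1 (hd y (Finset.mem_insert_self _ _) x
        (Finset.mem_insert_of_mem hx) hne) hg hg'
    rw [e, Set.ncard_union_eq hdis (Set.toFinite _) (Set.toFinite _),
      ih (fun x hx y hy => hd x (Finset.mem_insert_of_mem hx) y (Finset.mem_insert_of_mem hy))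
        (fun x hx => hn x (Finset.mem_insert_of_mem hx)), hn y (Finset.mem_insert_self _ _),
      Finset.card_insert_of_notMem hy]
    ring

/-- the extension of a function by zero -/
def ext0 {D : ℕ} (w : D.primeFactors → ZMod 2) (i : ℕ) : ZMod 2 :=
  if h : i ∈ D.primeFactors then w ⟨i, h⟩ else 0

/-- **Equidistribution of the symbols of the split primes.** -/
theorem dens_union {a b : ℤ} (hb : ¬ IsSquare b) (hΔ : ¬ IsSquare (a ^ 2 - 4 * b)) {D : ℕ}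
    (hD : Class a b D) : ∃ δ : ℝ, 0 < δ ∧ ∀ A : Finset ((D.primeFactors → ZMod 2) × ZMod 2),
      HasDensity (fun p => ∃ x ∈ A, Evt a b D (ext0 x.1) x.2 p) (A.card * δ) := by
  classical
  have hb0 : b ≠ 0 := by rintro rfl; exact hb ⟨0, by simp⟩
  have hΔ0 : a ^ 2 - 4 * b ≠ 0 := by intro h; exact hΔ (by rw [h]; exact ⟨0, by simp⟩)
  have hM := mod_pos hb0 hΔ0
  have hD0 : 0 < D := Nat.pos_of_ne_zero hD.1.ne_zero
  obtain ⟨L, _, _, _, s, t, ht, hs⟩ := exists_fld a b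
    (T0 a b ∪ (D.primeFactors.image fun r : ℕ => (r : ℤ)))
  have hExc : 0 < Exc a b D := Nat.mul_pos hM hD0
  have h2 : 0 < Nat.card Gal(L/ℚ) := Nat.card_pos
  have h1 : 0 < (CC a b D 0 0 s t).ncard :=
    (Set.ncard_pos (Set.toFinite _)).2 (nonempty_CC hb hΔ hD ht hs 0 0)
  refine ⟨((CC a b D 0 0 s t).ncard : ℝ) / (Nat.card Gal(L/ℚ) : ℝ), by positivity, fun A => ?_⟩
  have hcard : ({g | ∃ x ∈ A, g ∈ CC a b D (ext0 x.1) x.2 s t} : Set Gal(L/ℚ)).ncard =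
      A.card * (CC a b D 0 0 s t).ncard := by
    refine ncard_bU A _ _ (fun x _ y _ hxy => ?_) fun x _ => card_CC hb hΔ hD ht hs _ _
    rw [Set.disjoint_left]
    rintro g ⟨-, g2, g3⟩ ⟨-, k2, k3⟩
    apply hxy
    refine Prod.ext (funext fun i => ?_) ?_
    · have h3 := (g2 i i.2).symm.trans (k2 i i.2)
      unfold ext0 at h3
      rw [dif_pos i.2, dif_pos i.2] at h3
      exact (z2 _ _).2 h3
    · exact (z2 _ _).2 (g3.symm.trans k3)
  have e : (A.card : ℝ) * (((CC a b D 0 0 s t).ncard : ℝ) / (Nat.card Gal(L/ℚ) : ℝ)) =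
      (Nat.card ({g | ∃ x ∈ A, g ∈ CC a b D (ext0 x.1) x.2 s t} : Set Gal(L/ℚ)) : ℝ) /
        (Nat.card Gal(L/ℚ) : ℝ) := by
    rw [Nat.card_coe_set_eq, hcard]
    push_cast
    ring
  rw [e, dens_M]
  exact Q283.TW.dens_of L {g | ∃ x ∈ A, g ∈ CC a b D (ext0 x.1) x.2 s t} _ (Exc a b D) hExc
    fun p _ hx φ g hφ => exists_congr fun x => and_congr_right fun _ =>
      frob_evt hb0 hΔ0 hD ht hs _ _ hx hφ

/-- a positive density gives primes -/
theorem exists_of_dens {G : ℕ → Prop} {δ : ℝ} (h : HasDensity G δ) (hδ : 0 < δ) :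
    ∃ l : ℕ, l.Prime ∧ G l := by
  by_contra hcon
  push Not at hcon
  have h1 : HasDensity G 0 := by
    refine tendsto_const_nhds.congr fun X => ?_
    have e : {l : ℕ | l ≤ X ∧ l.Prime ∧ G l} = ∅ := by
      ext l
      simp only [Set.mem_setOf_eq, Set.mem_empty_iff_false, iff_false]
      rintro ⟨-, h2, h3⟩
      exact hcon l h2 h3
    rw [e]
    simp
  exact hδ.ne (tendsto_nhds_unique h1 h)

end Pool.Agent.V8H12.GT
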