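import Mathlib
import Pool.Agent.V8H12.GT.Den

/-!
# The corank of the matrix with one more split prime
-/

set_option autoImplicit false
set_option linter.unusedSectionVars false

namespace Pool.Agent.V8H12.GT

open Pool.Agent.V8H12.X49
open scoped Matrix

section
variable {S Q : Finset ℕ} {d : ℕ → ZMod 2} {l : ℕ}

theorem ker_new_not (hl : l ∉ S ∪ Q) {T : Finset ℕ} (hT : T ⊆ S) : Ker (insert l S) Q d T ↔
    (∀ i ∈ T, d i + ∑ q ∈ (S ∪ Q) \ T, nonsq i q + nonsq i l = 0) ∧
    (∀ i ∈ S, i ∉ T → ∑ q ∈ T, nonsq i q = 0) ∧ ∑ q ∈ T, nonsq l q = 0 := by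
  classical
  have hlS : l ∉ S := fun h => hl (Finset.mem_union_left _ h)
  have hlT : l ∉ T := fun h => hlS (hT h)
  rw [ker_iff (hT.trans (Finset.subset_insert _ _))]
  have e1 : (insert l S ∪ Q) \ T = insert l ((S ∪ Q) \ T) := by
    rw [Finset.insert_union, Finset.insert_sdiff_of_notMem _ hlT]
  have e2 : ∀ i : ℕ, ∑ q ∈ (insert l S ∪ Q) \ T, nonsq i q =
      nonsq i l + ∑ q ∈ (S ∪ Q) \ T, nonsq i q := by
    intro i
    rw [e1, Finset.sum_insert fun h => hl (Finset.mem_sdiff.1 h).1]
  constructor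
  · rintro ⟨h1, h2⟩
    refine ⟨fun i hi => ?_, fun i hi hiT => h2 i (Finset.mem_insert_of_mem hi) hiT,
      h2 l (Finset.mem_insert_self _ _) hlT⟩
    have h3 := h1 i hi
    rw [e2] at h3
    linear_combination h3
  · rintro ⟨h1, h2, h3⟩
    refine ⟨fun i hi => ?_, fun i hi hiT => ?_⟩
    · rw [e2]
      linear_combination h1 i hi
    · rcases Finset.mem_insert.1 hi with rfl | hi
      · exact h3
      · exact h2 i hi hiT

theorem ker_new_mem (hl : l ∉ S ∪ Q) {T : Finset ℕ} (hT : T ⊆ S) :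
    Ker (insert l S) Q d (insert l T) ↔
    (∀ i ∈ T, d i + ∑ q ∈ (S ∪ Q) \ T, nonsq i q = 0) ∧
    (∀ i ∈ S, i ∉ T → ∑ q ∈ T, nonsq i q + nonsq i l = 0) ∧
    d l + ∑ q ∈ (S ∪ Q) \ T, nonsq l q = 0 := by
  classical
  have hlS : l ∉ S := fun h => hl (Finset.mem_union_left _ h)
  have hlT : l ∉ T := fun h => hlS (hT h)
  rw [ker_iff (Finset.insert_subset_insert _ hT)]
  have e1 : (insert l S ∪ Q) \ insert l T = (S ∪ Q) \ T := by
    ext q
    simp only [Finset.mem_sdiff, Finset.mem_union, Finset.mem_insert]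
    constructor
    · rintro ⟨h1, h2⟩
      push Not at h2
      refine ⟨?_, h2.2⟩
      rcases h1 with (h1 | h1) | h1
      · exact absurd h1 h2.1
      · exact Or.inl h1
      · exact Or.inr h1
    · rintro ⟨h1, h2⟩
      refine ⟨?_, ?_⟩
      · rcases h1 with h1 | h1
        · exact Or.inl (Or.inr h1)
        · exact Or.inr h1
      · rintro (rfl | h3)
        · exact hl (Finset.mem_union.2 h1)
        · exact h2 h3
  have e2 : ∀ i : ℕ, ∑ q ∈ insert l T, nonsq i q = nonsq i l + ∑ q ∈ T, nonsq i q := fun i =>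
    Finset.sum_insert hlT
  constructor
  · rintro ⟨h1, h2⟩
    refine ⟨fun i hi => ?_, fun i hi hiT => ?_, ?_⟩
    · have h3 := h1 i (Finset.mem_insert_of_mem hi)
      rwa [e1] at h3
    · have hil : i ≠ l := by rintro rfl; exact hlS hi
      have h3 := h2 i (Finset.mem_insert_of_mem hi) fun h => by
        rcases Finset.mem_insert.1 h with h | h
        · exact hil h
        · exact hiT h
      rw [e2] at h3
      linear_combination h3
    · have h3 := h1 l (Finset.mem_insert_self _ _)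
      rwa [e1] at h3
  · rintro ⟨h1, h2, h3⟩
    refine ⟨fun i hi => ?_, fun i hi hiT => ?_⟩
    · rw [e1]
      rcases Finset.mem_insert.1 hi with rfl | hi
      · exact h3
      · exact h1 i hi
    · rcases Finset.mem_insert.1 hi with rfl | hi
      · exact absurd (Finset.mem_insert_self _ _) hiT
      · rw [e2]
        linear_combination h2 i hi fun h => hiT (Finset.mem_insert_of_mem h)

theorem mem_KG {T : Finset ℕ} : T ∈ KG S Q d ↔ Ker S Q d T := by
  classical
  unfold KG Ker
  rw [Finset.mem_filter, Finset.mem_powerset]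

/-- a set in the kernel of the bigger matrix -/
theorem ker_cases {T : Finset ℕ} (h : Ker (insert l S) Q d T) :
    (l ∉ T ∧ T ⊆ S) ∨ ∃ T₀ : Finset ℕ, T₀ ⊆ S ∧ T = insert l T₀ := by
  classical
  by_cases hl : l ∈ T
  · refine Or.inr ⟨T.erase l, fun q hq => ?_, (Finset.insert_erase hl).symm⟩
    obtain ⟨h1, h2⟩ := Finset.mem_erase.1 hq
    exact (Finset.mem_insert.1 (h.1 h2)).resolve_left h1
  · refine Or.inl ⟨hl, fun q hq => ?_⟩
    rcases Finset.mem_insert.1 (h.1 hq) with rfl | h2
    · exact absurd hq hl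
    · exact h2

/-- trivial symbols, `d l = 1`: the corank does not change -/
theorem gcork_same (hl : l ∉ S ∪ Q) (h1 : ∀ i ∈ S ∪ Q, nonsq i l = 0)
    (h2 : ∀ i ∈ S ∪ Q, nonsq l i = 0) (hd : d l = 1) : gcork (insert l S) Q d = gcork S Q d := by
  classical
  have hKG : KG (insert l S) Q d = KG S Q d := by
    ext T
    rw [mem_KG, mem_KG]
    constructor
    · intro h
      rcases ker_cases h with ⟨h3, h4⟩ | ⟨T₀, h4, rfl⟩
      · obtain ⟨k1, k2, -⟩ := (ker_new_not hl h4).1 h
        rw [ker_iff h4]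
        refine ⟨fun i hi => ?_, k2⟩
        have k3 := k1 i hi
        rwa [h1 i (Finset.mem_union_left _ (h4 hi)), add_zero] at k3
      · exfalso
        obtain ⟨-, -, k3⟩ := (ker_new_mem hl h4).1 h
        rw [Finset.sum_eq_zero fun q hq => h2 q (Finset.mem_sdiff.1 hq).1, add_zero, hd] at k3
        exact absurd k3 (by decide)
    · intro h
      have h4 := h.1
      obtain ⟨k1, k2⟩ := (ker_iff h4).1 h
      rw [ker_new_not hl h4]
      refine ⟨fun i hi => ?_, k2, Finset.sum_eq_zero fun q hq =>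
        h2 q (Finset.mem_union_left _ (h4 hq))⟩
      rw [k1 i hi, h1 i (Finset.mem_union_left _ (h4 hi)), add_zero]
  have h3 := KG_card (insert l S) Q d
  rw [hKG, KG_card] at h3
  exact (Nat.pow_right_injective (le_refl 2) h3).symm

/-- trivial symbols, `d l = 0`: the corank increases by one -/
theorem gcork_up (hl : l ∉ S ∪ Q) (h1 : ∀ i ∈ S ∪ Q, nonsq i l = 0)
    (h2 : ∀ i ∈ S ∪ Q, nonsq l i = 0) (hd : d l = 0) :
    gcork (insert l S) Q d = gcork S Q d + 1 := by
  classical
  have hlS : l ∉ S := fun h => hl (Finset.mem_union_left _ h)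
  have hKG : KG (insert l S) Q d = KG S Q d ∪ (KG S Q d).image (insert l) := by
    ext T
    rw [Finset.mem_union, Finset.mem_image, mem_KG, mem_KG]
    constructor
    · intro h
      rcases ker_cases h with ⟨h3, h4⟩ | ⟨T₀, h4, rfl⟩
      · left
        obtain ⟨k1, k2, -⟩ := (ker_new_not hl h4).1 h
        rw [ker_iff h4]
        refine ⟨fun i hi => ?_, k2⟩
        have k3 := k1 i hi
        rwa [h1 i (Finset.mem_union_left _ (h4 hi)), add_zero] at k3
      · right
        obtain ⟨k1, k2, -⟩ := (ker_new_mem hl h4).1 h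
        refine ⟨T₀, mem_KG.2 ((ker_iff h4).2 ⟨k1, fun i hi hiT => ?_⟩), rfl⟩
        have k3 := k2 i hi hiT
        rwa [h1 i (Finset.mem_union_left _ hi), add_zero] at k3
    · rintro (h | ⟨T₀, h, rfl⟩)
      · have h4 := h.1
        obtain ⟨k1, k2⟩ := (ker_iff h4).1 h
        rw [ker_new_not hl h4]
        refine ⟨fun i hi => ?_, k2, Finset.sum_eq_zero fun q hq =>
          h2 q (Finset.mem_union_left _ (h4 hq))⟩
        rw [k1 i hi, h1 i (Finset.mem_union_left _ (h4 hi)), add_zero]
      · have h' := mem_KG.1 h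
        have h4 := h'.1
        obtain ⟨k1, k2⟩ := (ker_iff h4).1 h'
        rw [ker_new_mem hl h4]
        refine ⟨k1, fun i hi hiT => ?_, ?_⟩
        · rw [k2 i hi hiT, h1 i (Finset.mem_union_left _ hi), add_zero]
        · rw [Finset.sum_eq_zero fun q hq => h2 q (Finset.mem_sdiff.1 hq).1, hd, add_zero]
  have hdis : Disjoint (KG S Q d) ((KG S Q d).image (insert l)) := by
    rw [Finset.disjoint_left]
    intro T hT hT'
    obtain ⟨T₀, -, rfl⟩ := Finset.mem_image.1 hT'
    exact hlS ((mem_KG.1 hT).1 (Finset.mem_insert_self _ _))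
  have hinj : ((KG S Q d).image (insert l)).card = (KG S Q d).card := by
    refine Finset.card_image_of_injOn fun T hT T' hT' he => ?_
    have n1 : l ∉ T := fun h => hlS ((mem_KG.1 hT).1 h)
    have n2 : l ∉ T' := fun h => hlS ((mem_KG.1 hT').1 h)
    have he' : insert l T = insert l T' := he
    rw [← Finset.erase_insert n1, he', Finset.erase_insert n2]
  have h3 := KG_card (insert l S) Q d
  rw [hKG, Finset.card_union_of_disjoint hdis, hinj, KG_card, ← two_mul, ← pow_succ'] at h3
  exact (Nat.pow_right_injective (le_refl 2) h3).symm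

/-- the row of the matrix of `S`, `Q` -/
theorem ent_row {T : Finset ℕ} (hT : T ⊆ S) {i : ℕ} (hi : i ∈ S) :
    ∑ j ∈ S, ent (S ∪ Q) d i j * (if j ∈ T then 1 else 0) =
      if i ∈ T then d i + ∑ q ∈ (S ∪ Q) \ T, nonsq i q else ∑ q ∈ T, nonsq i q := by
  classical
  have hTR : T ⊆ S ∪ Q := hT.trans Finset.subset_union_left
  have e1 : ∑ j ∈ S.erase i, ent (S ∪ Q) d i j * (if j ∈ T then 1 else 0) =
      ∑ j ∈ T.erase i, nonsq i j := by
    have e4 : ∀ j ∈ S.erase i, ent (S ∪ Q) d i j * (if j ∈ T then (1 : ZMod 2) else 0) =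
        if j ∈ T then nonsq i j else 0 := by
      intro j hj
      have hij : i ≠ j := fun h => (Finset.ne_of_mem_erase hj) h.symm
      unfold ent
      rw [if_neg hij]
      split_ifs
      · rw [mul_one]
      · rw [mul_zero]
    rw [Finset.sum_congr rfl e4, ← Finset.sum_filter]
    refine Finset.sum_congr ?_ fun _ _ => rfl
    ext j
    rw [Finset.mem_filter, Finset.mem_erase, Finset.mem_erase]
    constructor
    · rintro ⟨⟨h3, -⟩, h4⟩
      exact ⟨h3, h4⟩
    · rintro ⟨h3, h4⟩
      exact ⟨⟨h3, hT h4⟩, h4⟩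
  rw [← Finset.add_sum_erase S _ hi, e1]
  have z1 : ∀ x y z : ZMod 2, x + (y + z) + z = x + y := by decide
  unfold ent
  by_cases hiT : i ∈ T
  · rw [if_pos rfl, if_pos hiT, if_pos hiT, mul_one]
    have e4 : ∑ q ∈ (S ∪ Q).erase i, nonsq i q =
        ∑ q ∈ (S ∪ Q) \ T, nonsq i q + ∑ q ∈ T.erase i, nonsq i q := by
      rw [← Finset.sum_sdiff (Finset.erase_subset_erase i hTR)]
      congr 1
      refine Finset.sum_congr ?_ fun _ _ => rfl
      ext q
      simp only [Finset.mem_sdiff, Finset.mem_erase]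
      constructor
      · rintro ⟨⟨h1, h2⟩, h3⟩
        exact ⟨h2, fun h => h3 ⟨h1, h⟩⟩
      · rintro ⟨h1, h3⟩
        refine ⟨⟨?_, h1⟩, fun h => h3 h.2⟩
        rintro rfl
        exact h3 hiT
    rw [e4]
    exact z1 _ _ _
  · rw [if_neg hiT, if_neg hiT, mul_zero, zero_add, Finset.erase_eq_of_notMem hiT]

/-- the matrix with the fixed border -/
noncomputable def bor (S R : Finset ℕ) (d : ℕ → ZMod 2) (i j : ℕ) : ZMod 2 :=
  if i = 0 then (if j = 0 then ∑ k ∈ S, ∑ m ∈ S, ent R d k m else ∑ k ∈ S, ent R d k j)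
  else (if j = 0 then ∑ m ∈ S, ent R d i m else ent R d i j)

/-- **Symbols and a value of `d` which make the corank zero** -/
theorem gcork_kill (S Q : Finset ℕ) (d : ℕ → ZMod 2) (h0 : 0 ∉ S) :
    ∃ (v : ℕ → ZMod 2) (ε : ZMod 2), ∀ l : ℕ, l ∉ S ∪ Q → (∀ i ∈ S ∪ Q, nonsq i l = v i) →
      (∀ i ∈ S ∪ Q, nonsq l i = v i) → d l = ε → gcork (insert l S) Q d = 0 := by
  classical
  obtain ⟨c, hc⟩ := choose_diag (insert 0 S) (bor S (S ∪ Q) d)
  refine ⟨fun i => if i ∈ S then c i else 0, c 0, fun l hl h1 h2 hd => ?_⟩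
  replace h1 : ∀ i ∈ S ∪ Q, nonsq i l = if i ∈ S then c i else 0 := h1
  replace h2 : ∀ i ∈ S ∪ Q, nonsq l i = if i ∈ S then c i else 0 := h2
  have z2 : ∀ x : ZMod 2, x + x = 0 := by decide
  have vS : ∀ i ∈ S, (if i ∈ S then c i else 0) = c i := fun i hi => if_pos hi
  -- sums over the border
  have sum0 : ∀ w : ℕ → ZMod 2, ∑ j ∈ insert 0 S, bor S (S ∪ Q) d 0 j * w j =
      (∑ k ∈ S, ∑ m ∈ S, ent (S ∪ Q) d k m) * w 0 +
        ∑ k ∈ S, ∑ j ∈ S, ent (S ∪ Q) d k j * w j := by
    intro w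
    rw [Finset.sum_insert h0]
    congr 1
    rw [Finset.sum_comm]
    refine Finset.sum_congr rfl fun j hj => ?_
    have hj0 : j ≠ 0 := by rintro rfl; exact h0 hj
    unfold bor
    rw [if_pos rfl, if_neg hj0, Finset.sum_mul]
  have sumi : ∀ (w : ℕ → ZMod 2), ∀ i ∈ S, ∑ j ∈ insert 0 S, bor S (S ∪ Q) d i j * w j =
      (∑ m ∈ S, ent (S ∪ Q) d i m) * w 0 + ∑ j ∈ S, ent (S ∪ Q) d i j * w j := by
    intro w i hi
    have hi0 : i ≠ 0 := by rintro rfl; exact h0 hi
    rw [Finset.sum_insert h0]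
    congr 1
    · unfold bor
      rw [if_neg hi0, if_pos rfl]
    · refine Finset.sum_congr rfl fun j hj => ?_
      have hj0 : j ≠ 0 := by rintro rfl; exact h0 hj
      unfold bor
      rw [if_neg hi0, if_neg hj0]
  refine gcork_zero fun T' hT' => ?_
  rcases ker_cases hT' with ⟨h3, hT⟩ | ⟨T, hT, rfl⟩
  · -- the new prime is not in the set
    obtain ⟨k1, k2, k3⟩ := (ker_new_not hl hT).1 hT'
    have row : ∀ i ∈ S, c i * (if i ∈ T' then 1 else 0) +
        ∑ j ∈ S, ent (S ∪ Q) d i j * (if j ∈ T' then 1 else 0) = 0 := by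
      intro i hi
      rw [ent_row hT hi]
      by_cases hiT : i ∈ T'
      · rw [if_pos hiT, if_pos hiT, mul_one]
        have k4 := k1 i hiT
        rw [h1 i (Finset.mem_union_left _ hi), if_pos hi] at k4
        linear_combination k4
      · rw [if_neg hiT, if_neg hiT, mul_zero, zero_add]
        exact k2 i hi hiT
    have hw := hc (fun j => if j = 0 then 0 else if j ∈ T' then 1 else 0) (by
      intro i hi
      have hS : ∀ k : ℕ, ∑ j ∈ S, ent (S ∪ Q) d k j *
          (if j = 0 then (0 : ZMod 2) else if j ∈ T' then 1 else 0) =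
          ∑ j ∈ S, ent (S ∪ Q) d k j * (if j ∈ T' then 1 else 0) := by
        intro k
        refine Finset.sum_congr rfl fun j hj => ?_
        rw [if_neg (by rintro rfl; exact h0 hj : j ≠ 0)]
      rcases Finset.mem_insert.1 hi with rfl | hi
      · rw [sum0, if_pos rfl, mul_zero, mul_zero, zero_add, zero_add]
        rw [Finset.sum_congr rfl fun k _ => hS k]
        have e5 : ∀ k ∈ S, ∑ j ∈ S, ent (S ∪ Q) d k j * (if j ∈ T' then 1 else 0) =
            c k * (if k ∈ T' then 1 else 0) := by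
          intro k hk
          have k5 := row k hk
          have z3 : ∀ x y : ZMod 2, x + y = 0 → y = x := by decide
          exact z3 _ _ k5
        rw [Finset.sum_congr rfl e5]
        have e6 : ∑ k ∈ S, c k * (if k ∈ T' then (1 : ZMod 2) else 0) = ∑ q ∈ T', nonsq l q := by
          have e7 : ∀ k ∈ S, c k * (if k ∈ T' then (1 : ZMod 2) else 0) =
              if k ∈ T' then c k else 0 := by
            intro k _
            split_ifs
            · rw [mul_one]
            · rw [mul_zero]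
          rw [Finset.sum_congr rfl e7, ← Finset.sum_filter]
          have e8 : S.filter (fun k => k ∈ T') = T' := by
            ext k
            rw [Finset.mem_filter]
            exact ⟨fun h => h.2, fun h => ⟨hT h, h⟩⟩
          rw [e8]
          refine Finset.sum_congr rfl fun q hq => ?_
          rw [h2 q (Finset.mem_union_left _ (hT hq)), if_pos (hT hq)]
        rw [e6]
        exact k3
      · rw [sumi _ i hi, if_pos rfl, mul_zero, zero_add, hS,
          if_neg (by rintro rfl; exact h0 hi : i ≠ 0)]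
        exact row i hi)
    refine Finset.eq_empty_of_forall_notMem fun i hi => ?_
    have h5 := hw i (Finset.mem_insert_of_mem (hT hi))
    have hi0 : i ≠ 0 := by rintro rfl; exact h0 (hT hi)
    simp only [if_neg hi0, if_pos hi] at h5
    exact absurd h5 (by decide)
  · exfalso
    obtain ⟨k1, k2, k3⟩ := (ker_new_mem hl hT).1 hT'
    have row : ∀ i ∈ S, c i * ((if i ∈ T then 1 else 0) + 1) +
        ∑ j ∈ S, ent (S ∪ Q) d i j * (if j ∈ T then 1 else 0) = 0 := by
      intro i hi
      rw [ent_row hT hi]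
      by_cases hiT : i ∈ T
      · rw [if_pos hiT, if_pos hiT, z2, mul_zero, zero_add]
        exact k1 i hiT
      · rw [if_neg hiT, if_neg hiT, zero_add, mul_one]
        have k4 := k2 i hi hiT
        rw [h1 i (Finset.mem_union_left _ hi), if_pos hi] at k4
        linear_combination k4
    have hw := hc (fun j => if j = 0 then 1 else (if j ∈ T then 1 else 0) + 1) (by
      intro i hi
      have hS : ∀ k : ℕ, ∑ j ∈ S, ent (S ∪ Q) d k j *
          (if j = 0 then (1 : ZMod 2) else (if j ∈ T then 1 else 0) + 1) =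
          ∑ j ∈ S, ent (S ∪ Q) d k j * (if j ∈ T then 1 else 0) + ∑ j ∈ S, ent (S ∪ Q) d k j := by
        intro k
        rw [← Finset.sum_add_distrib]
        refine Finset.sum_congr rfl fun j hj => ?_
        rw [if_neg (by rintro rfl; exact h0 hj : j ≠ 0)]
        ring
      rcases Finset.mem_insert.1 hi with rfl | hi
      · rw [sum0, if_pos rfl, mul_one, mul_one]
        rw [Finset.sum_congr rfl fun k _ => hS k, Finset.sum_add_distrib]
        have e5 : ∀ k ∈ S, ∑ j ∈ S, ent (S ∪ Q) d k j * (if j ∈ T then 1 else 0) =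
            c k * ((if k ∈ T then 1 else 0) + 1) := by
          intro k hk
          have k5 := row k hk
          have z3 : ∀ x y : ZMod 2, x + y = 0 → y = x := by decide
          exact z3 _ _ k5
        rw [Finset.sum_congr rfl e5]
        have e6 : ∑ k ∈ S, c k * ((if k ∈ T then (1 : ZMod 2) else 0) + 1) =
            ∑ q ∈ (S ∪ Q) \ T, nonsq l q := by
          have e7 : ∀ k ∈ S, c k * ((if k ∈ T then (1 : ZMod 2) else 0) + 1) =
              if k ∉ T then c k else 0 := by
            intro k _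
            by_cases hk : k ∈ T
            · rw [if_pos hk, z2, mul_zero, if_neg (not_not.2 hk)]
            · rw [if_neg hk, zero_add, mul_one, if_pos hk]
          rw [Finset.sum_congr rfl e7, ← Finset.sum_filter]
          have e8 : ∑ q ∈ (S ∪ Q) \ T, nonsq l q = ∑ q ∈ (S ∪ Q) \ T, if q ∈ S then c q else 0 :=
            Finset.sum_congr rfl fun q hq => h2 q (Finset.mem_sdiff.1 hq).1
          rw [e8, ← Finset.sum_filter]
          refine Finset.sum_congr ?_ fun _ _ => rfl
          ext k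
          simp only [Finset.mem_filter, Finset.mem_sdiff, Finset.mem_union]
          tauto
        have z4 : ∀ x y z : ZMod 2, x + y = 0 → x + (z + (y + z)) = 0 := by decide
        rw [e6]
        refine z4 _ _ _ ?_
        rw [← hd]
        exact k3
      · rw [sumi _ i hi, if_pos rfl, mul_one, hS, if_neg (by rintro rfl; exact h0 hi : i ≠ 0)]
        have z5 : ∀ x y z : ZMod 2, x + y = 0 → x + (z + (y + z)) = 0 := by decide
        exact z5 _ _ _ (row i hi))
    have h5 := hw 0 (Finset.mem_insert_self _ _)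
    simp only [if_pos] at h5
    exact absurd h5 (by decide)

open scoped Classical in
/-- the order of the kernel in terms of the symbols of the new prime -/
noncomputable def NN (S Q : Finset ℕ) (d v : ℕ → ZMod 2) (ε : ZMod 2) : ℕ :=
  (S.powerset.filter fun T => (∀ i ∈ T, d i + ∑ q ∈ (S ∪ Q) \ T, nonsq i q + v i = 0) ∧
    (∀ i ∈ S, i ∉ T → ∑ q ∈ T, nonsq i q = 0) ∧ ∑ q ∈ T, v q = 0).card +
  (S.powerset.filter fun T => (∀ i ∈ T, d i + ∑ q ∈ (S ∪ Q) \ T, nonsq i q = 0) ∧
    (∀ i ∈ S, i ∉ T → ∑ q ∈ T, nonsq i q + v i = 0) ∧ ε + ∑ q ∈ (S ∪ Q) \ T, v q = 0).card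

/-- **The order of the kernel depends only on the symbols.** -/
theorem card_NN (hl : l ∉ S ∪ Q) {v : ℕ → ZMod 2} {ε : ZMod 2} (h1 : ∀ i ∈ S ∪ Q, nonsq i l = v i)
    (h2 : ∀ i ∈ S ∪ Q, nonsq l i = v i) (hd : d l = ε) :
    (KG (insert l S) Q d).card = NN S Q d v ε := by
  classical
  have hlS : l ∉ S := fun h => hl (Finset.mem_union_left _ h)
  obtain ⟨A, hA⟩ : ∃ A : Finset (Finset ℕ), A = S.powerset.filter fun T =>
    (∀ i ∈ T, d i + ∑ q ∈ (S ∪ Q) \ T, nonsq i q + v i = 0) ∧
    (∀ i ∈ S, i ∉ T → ∑ q ∈ T, nonsq i q = 0) ∧ ∑ q ∈ T, v q = 0 := ⟨_, rfl⟩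
  obtain ⟨B, hB⟩ : ∃ B : Finset (Finset ℕ), B = S.powerset.filter fun T =>
    (∀ i ∈ T, d i + ∑ q ∈ (S ∪ Q) \ T, nonsq i q = 0) ∧
    (∀ i ∈ S, i ∉ T → ∑ q ∈ T, nonsq i q + v i = 0) ∧ ε + ∑ q ∈ (S ∪ Q) \ T, v q = 0 := ⟨_, rfl⟩
  have s2 : ∀ T : Finset ℕ, T ⊆ S ∪ Q → ∑ q ∈ T, nonsq l q = ∑ q ∈ T, v q := fun T hT =>
    Finset.sum_congr rfl fun q hq => h2 q (hT hq)
  have hKG : KG (insert l S) Q d = A ∪ B.image (insert l) := by
    ext T
    rw [Finset.mem_union, Finset.mem_image, mem_KG]
    constructor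
    · intro h
      rcases ker_cases h with ⟨h3, h4⟩ | ⟨T₀, h4, rfl⟩
      · left
        obtain ⟨k1, k2, k3⟩ := (ker_new_not hl h4).1 h
        rw [hA, Finset.mem_filter, Finset.mem_powerset]
        refine ⟨h4, fun i hi => ?_, k2, ?_⟩
        · have k4 := k1 i hi
          rwa [h1 i (Finset.mem_union_left _ (h4 hi))] at k4
        · rwa [s2 T (h4.trans Finset.subset_union_left)] at k3
      · right
        obtain ⟨k1, k2, k3⟩ := (ker_new_mem hl h4).1 h
        refine ⟨T₀, ?_, rfl⟩
        rw [hB, Finset.mem_filter, Finset.mem_powerset]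
        refine ⟨h4, k1, fun i hi hiT => ?_, ?_⟩
        · have k4 := k2 i hi hiT
          rwa [h1 i (Finset.mem_union_left _ hi)] at k4
        · rwa [s2 _ Finset.sdiff_subset, hd] at k3
    · rintro (h | ⟨T₀, h, rfl⟩)
      · rw [hA, Finset.mem_filter, Finset.mem_powerset] at h
        obtain ⟨h4, k1, k2, k3⟩ := h
        rw [ker_new_not hl h4]
        refine ⟨fun i hi => ?_, k2, ?_⟩
        · rw [h1 i (Finset.mem_union_left _ (h4 hi))]
          exact k1 i hi
        · rw [s2 T (h4.trans Finset.subset_union_left)]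
          exact k3
      · rw [hB, Finset.mem_filter, Finset.mem_powerset] at h
        obtain ⟨h4, k1, k2, k3⟩ := h
        rw [ker_new_mem hl h4]
        refine ⟨k1, fun i hi hiT => ?_, ?_⟩
        · rw [h1 i (Finset.mem_union_left _ hi)]
          exact k2 i hi hiT
        · rw [s2 _ Finset.sdiff_subset, hd]
          exact k3
  have hdis : Disjoint A (B.image (insert l)) := by
    rw [Finset.disjoint_left]
    intro T hT hT'
    obtain ⟨T₀, -, rfl⟩ := Finset.mem_image.1 hT'
    rw [hA, Finset.mem_filter, Finset.mem_powerset] at hT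
    exact hlS (hT.1 (Finset.mem_insert_self _ _))
  have hinj : (B.image (insert l)).card = B.card := by
    refine Finset.card_image_of_injOn fun T hT T' hT' he => ?_
    have g1 : T ∈ B := hT
    have g2 : T' ∈ B := hT'
    rw [hB, Finset.mem_filter, Finset.mem_powerset] at g1 g2
    have n1 : l ∉ T := fun h => hlS (g1.1 h)
    have n2 : l ∉ T' := fun h => hlS (g2.1 h)
    have he' : insert l T = insert l T' := he
    rw [← Finset.erase_insert n1, he', Finset.erase_insert n2]
  rw [hKG, Finset.card_union_of_disjoint hdis, hinj, hA, hB]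
  rfl

end

end Pool.Agent.V8H12.GT
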