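import Mathlib
import Pool.Agent.V8H12.GT.Lin

/-!
# The distribution of the corank over the new split primes
-/

set_option autoImplicit false
set_option linter.unusedSectionVars false

namespace Pool.Agent.V8H12.GT

open Pool.Agent.V8H12.X49
open Pool.Agent.V8H64.X49 (HasDensity)

/-- a new split prime -/
def Nw (a b : ℤ) (D : ℕ) (l : ℕ) : Prop := IsSplit a b l ∧ ¬ l ∣ D

theorem not_mem_iff {D l : ℕ} (hD : D ≠ 0) (hl : l.Prime) : l ∉ D.primeFactors ↔ ¬ l ∣ D := by
  rw [Nat.mem_primeFactors]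
  constructor
  · intro h h1
    exact h ⟨hl, h1, hD⟩
  · intro h h1
    exact h h1.2.1

/-- one more split prime -/
theorem add_split {a b : ℤ} {D l : ℕ} (hD : Class a b D) (h : Nw a b D l) :
    Class a b (D * l) ∧ (D * l).primeFactors = insert l D.primeFactors ∧
      splitSet a b (D * l) = insert l (splitSet a b D) ∧ l ∉ D.primeFactors := by
  classical
  obtain ⟨hl, hlD⟩ := h
  have hD0 : D ≠ 0 := hD.1.ne_zero
  have m1 : l ∉ D.primeFactors := (not_mem_iff hD0 hl.1).2 hlD
  have hpf : (D * l).primeFactors = insert l D.primeFactors := by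
    rw [Nat.primeFactors_mul hD0 hl.1.ne_zero, hl.1.primeFactors]
    ext x
    simp only [Finset.mem_union, Finset.mem_singleton, Finset.mem_insert]
    tauto
  have c1 : Nat.Coprime D l := ((Nat.Prime.coprime_iff_not_dvd hl.1).2 hlD).symm
  refine ⟨⟨?_, ?_, fun p hp => ?_, fun x hx => ?_⟩, hpf, ?_, m1⟩
  · exact (Nat.squarefree_mul c1).2 ⟨hD.1, hl.1.prime.squarefree⟩
  · rw [Nat.mul_mod, hD.2.1, hl.2.1]
  · rw [Nat.cast_mul]
    exact (hD.2.2.1 p hp).mul (hl.2.2.2 p hp)
  · rw [hpf, Finset.mem_insert] at hx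
    rcases hx with rfl | hx
    · exact Or.inl hl
    · exact hD.2.2.2 x hx
  · unfold splitSet
    rw [hpf, Finset.filter_insert, if_pos hl]

/-- the corank for one more split prime -/
theorem cork_new {a b : ℤ} {D l : ℕ} (hD : Class a b D) (h : Nw a b D l) :
    cork a b (D * l) = gcork (insert l (splitSet a b D)) (D.primeFactors \ splitSet a b D)
      (rootless a b) := by
  classical
  obtain ⟨-, h1, h2, h3⟩ := add_split hD h
  have hS : l ∉ splitSet a b D := fun h4 => h3 (splitSet_sub a b D h4)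
  have e : (D * l).primeFactors \ splitSet a b (D * l) = D.primeFactors \ splitSet a b D := by
    rw [h1, h2, Finset.insert_sdiff_insert]
    ext q
    simp only [Finset.mem_sdiff, Finset.mem_insert]
    constructor
    · rintro ⟨g1, g2⟩
      push Not at g2
      exact ⟨g1, g2.2⟩
    · rintro ⟨g1, g2⟩
      refine ⟨g1, ?_⟩
      rintro (rfl | g3)
      · exact h3 g1
      · exact g2 g3
  rw [cork_eq, e, h2]

theorem sym_rec {a b : ℤ} {D l i : ℕ} (hD : Class a b D) (h : Nw a b D l)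
    (hi : i ∈ D.primeFactors) : nonsq l i = nonsq i l := by
  obtain ⟨i1, i2, -⟩ := class_prime hD hi
  have hip : Fact i.Prime := ⟨i1⟩
  have hlp : Fact l.Prime := ⟨h.1.1⟩
  have h8 := h.1.2.1
  rw [z2, nonsq_zero, nonsq_zero]
  exact ZMod.exists_sq_eq_prime_iff_of_mod_four_eq_one (p := l) (q := i) (by omega) i2

/-- the value of the corank for given symbols -/
noncomputable def FF (a b : ℤ) (D : ℕ) (x : (D.primeFactors → ZMod 2) × ZMod 2) : ℕ :=
  Nat.log 2 (NN (splitSet a b D) (D.primeFactors \ splitSet a b D) (rootless a b) (ext0 x.1) x.2)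

/-- the symbols of a prime -/
noncomputable def syms (a b : ℤ) (D l : ℕ) : (D.primeFactors → ZMod 2) × ZMod 2 :=
  (fun i => nonsq i l, rootless a b l)

theorem evt_iff {a b : ℤ} {D l : ℕ} (hD : D ≠ 0) (x : (D.primeFactors → ZMod 2) × ZMod 2) :
    Evt a b D (ext0 x.1) x.2 l ↔ Nw a b D l ∧ syms a b D l = x := by
  unfold Evt Nw syms
  constructor
  · rintro ⟨h1, h2, h3, h4⟩
    refine ⟨⟨h1, (not_mem_iff hD h1.1).1 h2⟩, Prod.ext (funext fun i => ?_) h4⟩
    have h5 := h3 i i.2
    unfold ext0 at h5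
    rw [dif_pos i.2] at h5
    exact h5
  · rintro ⟨⟨h1, h2⟩, rfl⟩
    refine ⟨h1, (not_mem_iff hD h1.1).2 h2, fun i hi => ?_, rfl⟩
    unfold ext0
    rw [dif_pos hi]

theorem cork_FF {a b : ℤ} {D l : ℕ} (hD : Class a b D) (h : Nw a b D l) :
    cork a b (D * l) = FF a b D (syms a b D l) := by
  classical
  obtain ⟨-, -, -, h3⟩ := add_split hD h
  have hu := union_eq a b D
  have hl : l ∉ splitSet a b D ∪ (D.primeFactors \ splitSet a b D) := by rwa [hu]
  have e1 : ∀ i ∈ splitSet a b D ∪ (D.primeFactors \ splitSet a b D),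
      nonsq i l = ext0 (syms a b D l).1 i := by
    intro i hi
    rw [hu] at hi
    unfold ext0
    rw [dif_pos hi]
    rfl
  have e2 : ∀ i ∈ splitSet a b D ∪ (D.primeFactors \ splitSet a b D),
      nonsq l i = ext0 (syms a b D l).1 i := by
    intro i hi
    rw [← e1 i hi]
    rw [hu] at hi
    exact sym_rec hD h hi
  have h4 := card_NN (d := rootless a b) hl e1 e2 (ε := (syms a b D l).2) rfl
  rw [KG_card, ← cork_new hD h] at h4
  unfold FF
  rw [← h4, Nat.log_pow Nat.one_lt_two]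

theorem cork_le (a b : ℤ) (D : ℕ) : cork a b D ≤ D.primeFactors.card := by
  unfold cork
  exact (Nat.sub_le _ _).trans (Finset.card_le_card (splitSet_sub a b D))

/-- **The distribution of the corank.** -/
theorem law {a b : ℤ} (hb : ¬ IsSquare b) (hΔ : ¬ IsSquare (a ^ 2 - 4 * b)) {D : ℕ}
    (hD : Class a b D) : ∃ (δ : ℝ) (d : ℕ → ℕ), 0 < δ ∧ 0 < d 0 ∧ 0 < d (cork a b D) ∧
      0 < d (cork a b D + 1) ∧
      ∑ r ∈ Finset.range (D.primeFactors.card + 2), d r = 2 ^ (D.primeFactors.card + 1) ∧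
      HasDensity (Nw a b D) (2 ^ (D.primeFactors.card + 1) * δ) ∧
      ∀ r : ℕ, HasDensity (fun l => Nw a b D l ∧ cork a b (D * l) = r) (d r * δ) := by
  classical
  obtain ⟨δ, hδ, hU⟩ := dens_union hb hΔ hD
  have hD0 : D ≠ 0 := hD.1.ne_zero
  have hcard : (Finset.univ : Finset ((D.primeFactors → ZMod 2) × ZMod 2)).card =
      2 ^ (D.primeFactors.card + 1) := by
    rw [Finset.card_univ, Fintype.card_prod, Fintype.card_fun, ZMod.card, Fintype.card_coe, pow_succ]
  -- every vector of symbols occurs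
  have hocc : ∀ x : (D.primeFactors → ZMod 2) × ZMod 2, ∃ l, Nw a b D l ∧ syms a b D l = x := by
    intro x
    have h1 := hU {x}
    rw [Finset.card_singleton, Nat.cast_one, one_mul] at h1
    obtain ⟨l, -, y, hy, h2⟩ := exists_of_dens h1 hδ
    rw [Finset.mem_singleton] at hy
    subst hy
    exact ⟨l, (evt_iff hD0 y).1 h2⟩
  have hle : ∀ x, FF a b D x < D.primeFactors.card + 2 := by
    intro x
    obtain ⟨l, h1, h2⟩ := hocc x
    have h3 := cork_le a b (D * l)
    obtain ⟨-, h4, -, h5⟩ := add_split hD h1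
    rw [h4, Finset.card_insert_of_notMem h5, cork_FF hD h1, h2] at h3
    omega
  have pos : ∀ (v : ℕ → ZMod 2) (ε : ZMod 2) (r : ℕ), (∀ l, Nw a b D l →
      (∀ i ∈ D.primeFactors, nonsq i l = v i) → rootless a b l = ε → cork a b (D * l) = r) →
      0 < (Finset.univ.filter fun x => FF a b D x = r).card := by
    intro v ε r h
    obtain ⟨l, h1, h2⟩ := hocc (fun i => v i, ε)
    have e1 : ∀ i ∈ D.primeFactors, nonsq i l = v i := fun i hi =>
      congrFun (congrArg Prod.fst h2) ⟨i, hi⟩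
    have e2 : rootless a b l = ε := congrArg Prod.snd h2
    have h3 := h l h1 e1 e2
    rw [cork_FF hD h1, h2] at h3
    exact Finset.card_pos.2 ⟨_, Finset.mem_filter.2 ⟨Finset.mem_univ _, h3⟩⟩
  have hu := union_eq a b D
  refine ⟨δ, fun r => (Finset.univ.filter fun x => FF a b D x = r).card, hδ, ?_, ?_, ?_, ?_, ?_, ?_⟩
  · obtain ⟨v, ε, h⟩ := gcork_kill (splitSet a b D) (D.primeFactors \ splitSet a b D)
      (rootless a b) (fun h0 => Nat.not_prime_zero (mem_splitSet h0).1)
    refine pos v ε 0 fun l hl h1 h2 => ?_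
    obtain ⟨-, -, -, h3⟩ := add_split hD hl
    rw [cork_new hD hl]
    rw [hu] at h
    exact h l h3 h1 (fun i hi => by rw [sym_rec hD hl hi, h1 i hi]) h2
  · refine pos 0 1 _ fun l hl h1 h2 => ?_
    obtain ⟨-, -, -, h3⟩ := add_split hD hl
    rw [cork_new hD hl, cork_eq]
    refine gcork_same (by rwa [hu]) ?_ ?_ h2
    · rw [hu]
      exact h1
    · rw [hu]
      intro i hi
      rw [sym_rec hD hl hi, h1 i hi]
      rfl
  · refine pos 0 0 _ fun l hl h1 h2 => ?_
    obtain ⟨-, -, -, h3⟩ := add_split hD hl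
    rw [cork_new hD hl, cork_eq]
    refine gcork_up (by rwa [hu]) ?_ ?_ h2
    · rw [hu]
      exact h1
    · rw [hu]
      intro i hi
      rw [sym_rec hD hl hi, h1 i hi]
      rfl
  · rw [← hcard]
    exact (Finset.card_eq_sum_card_fiberwise fun x _ => Finset.mem_range.2 (hle x)).symm
  · have h1 := hU Finset.univ
    rw [hcard] at h1
    push_cast at h1
    refine h1.congr fun l hl => ?_
    constructor
    · rintro ⟨x, -, hx⟩
      exact ((evt_iff hD0 x).1 hx).1
    · intro h2
      exact ⟨syms a b D l, Finset.mem_univ _, (evt_iff hD0 _).2 ⟨h2, rfl⟩⟩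
  · intro r
    refine (hU (Finset.univ.filter fun x => FF a b D x = r)).congr fun l hl => ?_
    constructor
    · rintro ⟨x, hx, h2⟩
      obtain ⟨h3, rfl⟩ := (evt_iff hD0 x).1 h2
      exact ⟨h3, by rw [cork_FF hD h3]; exact (Finset.mem_filter.1 hx).2⟩
    · rintro ⟨h2, h3⟩
      rw [cork_FF hD h2] at h3
      exact ⟨syms a b D l, Finset.mem_filter.2 ⟨Finset.mem_univ _, h3⟩,
        (evt_iff hD0 _).2 ⟨h2, rfl⟩⟩

end Pool.Agent.V8H12.GT
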