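import Mathlib
import Pool.Agent.V8H12.GT.Law

/-!
# The density of the split primes
-/

set_option autoImplicit false
set_option linter.unusedSectionVars false

namespace Pool.Agent.V8H12.GT

open NumberField Filter Topology Pool.Agent.W401.Cheb
open Pool.Agent.V8H12.X49
open Pool.Agent.V8H64.X49 (HasDensity dens_M)
open Q283.TW (gal_sqrt frob_sqrt)

/-- prime numbers with prescribed quadratic symbols of `-1`, `2` and of odd primes -/
theorem exists_multi (P : Finset ℕ) (hP : ∀ q ∈ P, q.Prime ∧ q ≠ 2) (σ : ℤ → ZMod 2) (N : ℕ) :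
    ∃ p : ℕ, N < p ∧ p.Prime ∧ (IsSquare (-1 : ZMod p) ↔ σ (-1) = 0) ∧
      (IsSquare (2 : ZMod p) ↔ σ 2 = 0) ∧ ∀ q ∈ P, (IsSquare (q : ZMod p) ↔ σ q = 0) := by
  classical
  have z1 : ∀ x : ZMod 2, x = 0 ∨ x = 1 := by decide
  have h10 : (1 : ZMod 2) ≠ 0 := by decide
  obtain ⟨m, hm8, hm1, hm2⟩ : ∃ m : ℕ, (m = 1 ∨ m = 3 ∨ m = 5 ∨ m = 7) ∧
      (m % 4 = 1 ↔ σ (-1) = 0) ∧ ((m = 1 ∨ m = 7) ↔ σ 2 = 0) := by
    rcases z1 (σ (-1)) with h1 | h1 <;> rcases z1 (σ 2) with h2 | h2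
    · exact ⟨1, by omega, by simp [h1], by simp [h2]⟩
    · exact ⟨5, by omega, by simp [h1], by simp [h2]⟩
    · exact ⟨7, by omega, by simp [h1], by simp [h2]⟩
    · exact ⟨3, by omega, by simp [h1], by simp [h2]⟩
  have hmc : Nat.Coprime m 8 := by rcases hm8 with rfl | rfl | rfl | rfl <;> decide
  obtain ⟨p, hpN, hp, hpm, hps⟩ := prime_sym (M := 8) (by norm_num) hmc P (fun q hq =>
    ⟨(hP q hq).1, (hP q hq).2, fun hd => (hP q hq).2 ((Nat.prime_dvd_prime_iff_eq (hP q hq).1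
      Nat.prime_two).1 ((hP q hq).1.dvd_of_dvd_pow (show q ∣ 2 ^ 3 by norm_num; exact hd)))⟩)
    (fun q => σ q + if m % 4 = 3 ∧ q % 4 = 3 then 1 else 0) (max N (max 2 (∏ q ∈ P, q)))
  have h8 : p % 8 = m := by
    have h : p % 8 = m % 8 := hpm
    omega
  have hpf : Fact p.Prime := ⟨hp⟩
  have hp2 : 2 < p := lt_of_le_of_lt ((le_max_left _ _).trans (le_max_right _ _)) hpN
  have hpP : (∏ q ∈ P, q) < p := lt_of_le_of_lt ((le_max_right _ _).trans (le_max_right _ _)) hpN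
  refine ⟨p, lt_of_le_of_lt (le_max_left _ _) hpN, hp, ?_, ?_, fun q hq => ?_⟩
  · rw [ZMod.exists_sq_eq_neg_one_iff, ← hm1]
    omega
  · rw [ZMod.exists_sq_eq_two_iff (by omega : p ≠ 2), ← hm2, h8]
  · have hqf : Fact q.Prime := ⟨(hP q hq).1⟩
    have hq2 := (hP q hq).2
    have hpq : p ≠ q := by
      rintro rfl
      have h3 : p ≤ ∏ q ∈ P, q := Nat.le_of_dvd (Finset.prod_pos fun q hq => (hP q hq).1.pos)
        (Finset.dvd_prod_of_mem (fun q => q) hq)
      omega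
    have hs : nonsq q p = σ q + if m % 4 = 3 ∧ q % 4 = 3 then 1 else 0 := hps q hq
    have ho : q % 2 = 1 := (hP q hq).1.eq_two_or_odd.resolve_left hq2
    by_cases h4 : p % 4 = 1
    · rw [ZMod.exists_sq_eq_prime_iff_of_mod_four_eq_one (p := p) (q := q) h4 hq2, ← nonsq_zero, hs,
        if_neg (by omega), add_zero]
    · have h43 : p % 4 = 3 := by omega
      by_cases h5 : q % 4 = 1
      · rw [← ZMod.exists_sq_eq_prime_iff_of_mod_four_eq_one (p := q) (q := p) h5 (by omega),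
          ← nonsq_zero, hs, if_neg (by omega), add_zero]
      · have h53 : q % 4 = 3 := by omega
        rw [ZMod.exists_sq_eq_prime_iff_of_mod_four_eq_three (p := p) (q := q) h43 h53 hpq,
          ← nonsq_zero, hs, if_pos ⟨by omega, h53⟩]
        have z : ∀ x : ZMod 2, (¬ x + 1 = 0) ↔ x = 0 := by decide
        exact z _

/-- the set of the integers `-1`, `2` and of the primes in `P` -/
def T1 (P : Finset ℕ) : Finset ℤ := insert (-1) (insert 2 (P.image fun r : ℕ => (r : ℤ)))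

theorem T1_card {P : Finset ℕ} (hP : ∀ q ∈ P, q.Prime ∧ q ≠ 2) : (T1 P).card = P.card + 2 := by
  unfold T1
  rw [Finset.card_insert_of_notMem, Finset.card_insert_of_notMem,
    Finset.card_image_of_injective _ Nat.cast_injective]
  · rw [Finset.mem_image]
    rintro ⟨q, hq, h⟩
    exact (hP q hq).2 (by exact_mod_cast h)
  · rw [Finset.mem_insert, Finset.mem_image]
    rintro (h | ⟨q, hq, h⟩)
    · norm_num at h
    · omega

/-- **The density of the primes modulo which `-1`, `2` and given primes are squares.** -/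
theorem dens_multi (P : Finset ℕ) (hP : ∀ q ∈ P, q.Prime ∧ q ≠ 2) :
    HasDensity (fun p => ∀ n ∈ T1 P, IsSquare (n : ZMod p)) (1 / 2 ^ (P.card + 2)) := by
  classical
  obtain ⟨L, _, _, _, s, t, -, hs⟩ := exists_fld 0 1 (T1 P)
  obtain ⟨C, hC⟩ : ∃ C : (T1 P → ZMod 2) → Set Gal(L/ℚ), C = fun σ =>
    {g | ∀ n : T1 P, (g (s n) = s n ↔ σ n = 0)} := ⟨_, rfl⟩
  have hmC : ∀ σ (g : Gal(L/ℚ)), g ∈ C σ ↔ ∀ n : T1 P, (g (s n) = s n ↔ σ n = 0) := by
    intro σ g
    rw [hC]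
    exact Iff.rfl
  have n0 : ∀ n ∈ T1 P, n ≠ 0 := by
    intro n hn
    unfold T1 at hn
    rw [Finset.mem_insert, Finset.mem_insert, Finset.mem_image] at hn
    rcases hn with rfl | rfl | ⟨q, hq, rfl⟩
    · norm_num
    · norm_num
    · have := (hP q hq).1.ne_zero
      exact_mod_cast this
  obtain ⟨B, hB⟩ : ∃ B : ℕ, B = 2 * ∏ q ∈ P, q := ⟨_, rfl⟩
  have hB0 : 0 < B := by
    rw [hB]
    exact Nat.mul_pos (by norm_num) (Finset.prod_pos fun q hq => (hP q hq).1.pos)
  have hne : ∀ (p : ℕ) [Fact p.Prime], ¬ p ∣ B → p ≠ 2 ∧ ∀ n ∈ T1 P, (n : ZMod p) ≠ 0 := by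
    intro p hp hpB
    have h2 : p ≠ 2 := by
      rintro rfl
      exact hpB (by rw [hB]; exact dvd_mul_right 2 _)
    refine ⟨h2, fun n hn h0 => ?_⟩
    rw [ZMod.intCast_zmod_eq_zero_iff_dvd] at h0
    unfold T1 at hn
    rw [Finset.mem_insert, Finset.mem_insert, Finset.mem_image] at hn
    rcases hn with rfl | rfl | ⟨q, hq, rfl⟩
    · have h1 := Int.natCast_dvd.1 h0
      simp at h1
      exact hp.out.one_lt.ne' h1
    · have h1 := Int.natCast_dvd.1 h0
      have h3 : p ∣ 2 := by simpa using h1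
      exact h2 ((Nat.prime_dvd_prime_iff_eq hp.out Nat.prime_two).1 h3)
    · have h1 := Int.natCast_dvd_natCast.1 h0
      exact hpB (by rw [hB]; exact (h1.trans (Finset.dvd_prod_of_mem (fun q => q) hq)).mul_left 2)
  have hnonempty : ∀ σ, (C σ).Nonempty := by
    intro σ
    obtain ⟨D₁, hD₁, htor⟩ := torsor L
    obtain ⟨p, hp1, hp2, k1, k2, k3⟩ := exists_multi P hP
      (fun n => if h : n ∈ T1 P then σ ⟨n, h⟩ else 0) (max D₁ B)
    have hpp : Fact p.Prime := ⟨hp2⟩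
    have hx1 : ¬ p ∣ D₁ := fun h => by
      have h1 := Nat.le_of_dvd hD₁ h
      have h2 := le_max_left D₁ B
      omega
    have hx2 : ¬ p ∣ B := fun h => by
      have h1 := Nat.le_of_dvd hB0 h
      have h2 := le_max_right D₁ B
      omega
    obtain ⟨φ⟩ := nonempty_hom (htor p hx1)
    obtain ⟨g, hg⟩ := Pool.Agent.W401.Cheb.exists_frob (htor p hx1) φ
    obtain ⟨g2, g3⟩ := hne p hx2
    refine ⟨g, (hmC σ g).2 fun n => ?_⟩
    rw [← frob_sqrt hg (hs n n.2) g2 (g3 n n.2)]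
    obtain ⟨n, hn⟩ := n
    have hn' := hn
    unfold T1 at hn'
    rw [Finset.mem_insert, Finset.mem_insert, Finset.mem_image] at hn'
    rcases hn' with rfl | rfl | ⟨q, hq, rfl⟩
    · simp only [dif_pos hn] at k1
      push_cast
      exact k1
    · simp only [dif_pos hn] at k2
      push_cast
      exact k2
    · have k4 := k3 q hq
      simp only [dif_pos hn] at k4
      push_cast
      exact k4
  have z2' : ∀ x y : ZMod 2, x = y ↔ (x = 0 ↔ y = 0) := z2
  have hmul : ∀ (σ τ : T1 P → ZMod 2) (g h : Gal(L/ℚ)), g ∈ C σ → h ∈ C τ → g * h ∈ C (σ + τ) := by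
    intro σ τ g h hg hh
    rw [hmC] at hg hh ⊢
    intro n
    have hsn := hs n n.2
    have nx : -(s n) ≠ s n := by
      intro h5
      have h6 : (2 : L) * s n = 0 := by linear_combination -h5
      rcases mul_eq_zero.1 h6 with h7 | h7
      · norm_num at h7
      · rw [h7] at hsn
        have h8 : ((n : ℤ) : L) = 0 := by
          rw [← hsn]
          ring
        exact n0 n n.2 (by exact_mod_cast h8)
    show g (h (s n)) = s n ↔ σ n + τ n = 0
    have z : ∀ α β : ZMod 2, (α + β = 0 ↔ (α = 0 ↔ β = 0)) := by decide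
    rw [z, ← hg n, ← hh n]
    rcases gal_sqrt h hsn with h5 | h5
    · rw [h5]
      rcases gal_sqrt g hsn with h6 | h6
      · rw [h6]; tauto
      · rw [h6]; tauto
    · rw [h5, map_neg]
      rcases gal_sqrt g hsn with h6 | h6
      · rw [h6]; tauto
      · rw [h6, neg_neg]; tauto
  have hzz : ∀ x : ZMod 2, x + x = 0 := by decide
  have hcard : ∀ σ, (C σ).ncard = (C 0).ncard := by
    intro σ
    obtain ⟨h, hh⟩ := hnonempty σ
    refine le_antisymm ?_ ?_
    · refine Set.ncard_le_ncard_of_injOn (fun g => g * h) (fun g hg => ?_) (fun g _ g' _ he => ?_)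
        (Set.toFinite _)
      · have h1 := hmul σ σ g h hg hh
        have e1 : σ + σ = 0 := funext fun i => hzz (σ i)
        rw [e1] at h1
        exact h1
      · exact mul_right_cancel he
    · refine Set.ncard_le_ncard_of_injOn (fun g => g * h) (fun g hg => ?_) (fun g _ g' _ he => ?_)
        (Set.toFinite _)
      · have h1 := hmul 0 σ g h hg hh
        rw [zero_add] at h1
        exact h1
      · exact mul_right_cancel he
  have htot : Nat.card Gal(L/ℚ) = 2 ^ (P.card + 2) * (C 0).ncard := by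
    have h1 := ncard_bU (Finset.univ : Finset (T1 P → ZMod 2)) C (C 0).ncard (fun σ _ τ _ hne => by
      rw [Set.disjoint_left]
      intro g hg hg'
      rw [hmC] at hg hg'
      exact hne (funext fun n => (z2' _ _).2 ((hg n).symm.trans (hg' n)))) fun σ _ => hcard σ
    have e : ({g | ∃ σ ∈ (Finset.univ : Finset (T1 P → ZMod 2)), g ∈ C σ} : Set Gal(L/ℚ)) =
        Set.univ := by
      refine Set.eq_univ_of_forall fun g => ⟨fun n => if g (s n) = s n then 0 else 1,
        Finset.mem_univ _, (hmC _ _).2 fun n => ?_⟩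
      by_cases h : g (s n) = s n
      · simp [h]
      · simp [h]
    rw [e, Set.ncard_univ, Finset.card_univ, Fintype.card_fun, ZMod.card, Fintype.card_coe,
      T1_card hP] at h1
    exact h1
  have hC0 : 0 < (C 0).ncard := (Set.ncard_pos (Set.toFinite _)).2 (hnonempty 0)
  have e2 : (1 / 2 ^ (P.card + 2) : ℝ) = (Nat.card (C 0) : ℝ) / (Nat.card Gal(L/ℚ) : ℝ) := by
    rw [htot, Nat.card_coe_set_eq]
    have h3 : ((C 0).ncard : ℝ) ≠ 0 := by exact_mod_cast hC0.ne'
    push_cast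
    field_simp
  rw [e2, dens_M]
  refine Q283.TW.dens_of L (C 0) _ B hB0 fun p _ hx φ g hφ => ?_
  obtain ⟨g2, g3⟩ := hne p hx
  rw [hmC]
  constructor
  · intro h n
    refine ⟨fun _ => rfl, fun _ => ?_⟩
    exact (frob_sqrt hφ (hs n n.2) g2 (g3 n n.2)).1 (h n n.2)
  · intro h n hn
    exact (frob_sqrt hφ (hs n hn) g2 (g3 n hn)).2 ((h ⟨n, hn⟩).2 rfl)

/-- the odd primes that divide `b (a² - 4 b)` -/
def badS (a b : ℤ) : Finset ℕ := (b * (a ^ 2 - 4 * b)).natAbs.primeFactors.erase 2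

theorem mem_badS {a b : ℤ} (hb : b ≠ 0) (hΔ : a ^ 2 - 4 * b ≠ 0) {q : ℕ} :
    q ∈ badS a b ↔ Bad a b q := by
  unfold badS Bad
  rw [Finset.mem_erase, Nat.mem_primeFactors, Int.natCast_dvd]
  constructor
  · rintro ⟨h1, h2, h3, -⟩
    exact ⟨h2, h1, h3⟩
  · rintro ⟨h1, h2, h3⟩
    exact ⟨h2, h1, h3, Int.natAbs_ne_zero.2 (mul_ne_zero hb hΔ)⟩

/-- `HasDensity` ignores finitely many primes -/
theorem dens_congr {G G' : ℕ → Prop} {δ δ' : ℝ} (N : ℕ) (h : HasDensity G δ) (h' : HasDensity G' δ')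
    (hG : ∀ l : ℕ, l.Prime → N < l → (G l ↔ G' l)) : δ = δ' := by
  classical
  unfold HasDensity at h h'
  have hlim : Tendsto (fun X : ℕ => ((N : ℝ) + 1) / (Nat.primeCounting X : ℝ)) atTop (𝓝 0) := by
    refine Tendsto.div_atTop tendsto_const_nhds ?_
    exact tendsto_natCast_atTop_atTop.comp Nat.tendsto_primeCounting
  have hfin : ∀ (H : ℕ → Prop) (X : ℕ), {l : ℕ | l ≤ X ∧ l.Prime ∧ H l}.Finite := fun H X =>
    (Set.finite_Iic X).subset fun l hl => hl.1
  have hle : ∀ (H H' : ℕ → Prop), (∀ l : ℕ, l.Prime → N < l → (H l → H' l)) → ∀ X : ℕ,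
      {l : ℕ | l ≤ X ∧ l.Prime ∧ H l}.ncard ≤ {l : ℕ | l ≤ X ∧ l.Prime ∧ H' l}.ncard + (N + 1) := by
    intro H H' hHH X
    have h1 : {l : ℕ | l ≤ X ∧ l.Prime ∧ H l} ⊆
        {l : ℕ | l ≤ X ∧ l.Prime ∧ H' l} ∪ Set.Iic N := by
      rintro l ⟨h1, h2, h3⟩
      by_cases h4 : N < l
      · exact Or.inl ⟨h1, h2, hHH l h2 h4 h3⟩
      · exact Or.inr (not_lt.1 h4)
    refine (Set.ncard_le_ncard h1 ((hfin H' X).union (Set.finite_Iic N))).trans ?_
    refine (Set.ncard_union_le _ _).trans ?_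
    have h5 : (Set.Iic N).ncard = N + 1 := by
      rw [← Finset.coe_Iic, Set.ncard_coe_finset, Nat.card_Iic]
    rw [h5]
  have key : ∀ {H H' : ℕ → Prop} {x x' : ℝ},
      Tendsto (fun X : ℕ => ({l : ℕ | l ≤ X ∧ l.Prime ∧ H l}.ncard : ℝ) /
        (Nat.primeCounting X : ℝ)) atTop (𝓝 x) →
      Tendsto (fun X : ℕ => ({l : ℕ | l ≤ X ∧ l.Prime ∧ H' l}.ncard : ℝ) /
        (Nat.primeCounting X : ℝ)) atTop (𝓝 x') →
      (∀ l : ℕ, l.Prime → N < l → (H l → H' l)) → x ≤ x' := by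
    intro H H' x x' t1 t2 hHH
    have t3 := t2.add hlim
    rw [add_zero] at t3
    refine le_of_tendsto_of_tendsto' t1 t3 fun X => ?_
    rw [← add_div]
    refine div_le_div_of_nonneg_right ?_ (Nat.cast_nonneg _)
    exact_mod_cast hle H H' hHH X
  exact le_antisymm (key h h' fun l hl hN => (hG l hl hN).1)
    (key h' h fun l hl hN => (hG l hl hN).2)

/-- **The density of the split primes.** -/
theorem dens_split {a b : ℤ} (hb : b ≠ 0) (hΔ : a ^ 2 - 4 * b ≠ 0) {D : ℕ} (hD : 0 < D) {δ : ℝ}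
    (h : HasDensity (Nw a b D) δ) : δ = 1 / 2 ^ ((badS a b).card + 2) := by
  have hP : ∀ q ∈ badS a b, q.Prime ∧ q ≠ 2 := fun q hq =>
    ⟨((mem_badS hb hΔ).1 hq).1, ((mem_badS hb hΔ).1 hq).2.1⟩
  refine dens_congr (Mod a b + D) h (dens_multi (badS a b) hP) fun p hp hpN => ?_
  have hpp : Fact p.Prime := ⟨hp⟩
  have hM := mod_pos hb hΔ
  have x1 : ¬ p ∣ Mod a b := fun h => by
    have := Nat.le_of_dvd hM h
    omega
  have x2 : ¬ p ∣ D := fun h => by
    have := Nat.le_of_dvd hD h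
    omega
  have h2 : p ≠ 2 := by
    rintro rfl
    exact x1 (by unfold Mod; exact (by norm_num : 2 ∣ 8).mul_right _)
  have hd : ¬ (p : ℤ) ∣ b * (a ^ 2 - 4 * b) := fun h =>
    x1 (by unfold Mod; exact (Int.natCast_dvd.1 h).mul_left _)
  constructor
  · rintro ⟨hsp, -⟩ n hn
    unfold T1 at hn
    rw [Finset.mem_insert, Finset.mem_insert, Finset.mem_image] at hn
    rcases hn with rfl | rfl | ⟨q, hq, rfl⟩
    · exact T0_sq hb hΔ hsp (by unfold T0; simp)
    · exact T0_sq hb hΔ hsp (by unfold T0; simp)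
    · refine T0_sq hb hΔ hsp ?_
      unfold T0
      rw [Finset.mem_union]
      refine Or.inr (Finset.mem_image.2 ⟨q, ?_, rfl⟩)
      unfold badS at hq
      exact Finset.mem_of_mem_erase hq
  · intro h
    refine ⟨?_, x2⟩
    have k1 := h (-1) (by unfold T1; simp)
    have k2 := h 2 (by unfold T1; simp)
    push_cast at k1 k2
    rw [ZMod.exists_sq_eq_neg_one_iff] at k1
    rw [ZMod.exists_sq_eq_two_iff h2] at k2
    have h8 : p % 8 = 1 := by omega
    refine ⟨hp, h8, hd, fun q hq => ?_⟩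
    have hqp : Fact q.Prime := ⟨hq.1⟩
    have k3 := h q (by
      unfold T1
      rw [Finset.mem_insert, Finset.mem_insert]
      exact Or.inr (Or.inr (Finset.mem_image.2 ⟨q, (mem_badS hb hΔ).2 hq, rfl⟩)))
    rw [Int.cast_natCast] at k3
    exact (ZMod.exists_sq_eq_prime_iff_of_mod_four_eq_one (p := p) (q := q) (by omega) hq.2.1).1 k3

end Pool.Agent.V8H12.GT
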